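import Pool.Agent.H1.C5.D0

/-!
Row A1 (template LD/CoA.lean: copy its private classes; d = n+5).  Kernels of Z, q = |Z|^2+ε^2, kr m = q^(-(m+1)/2), d_k kr m = -(m+1) kr (m+2) Z_k:
 F_i = kr n Z_i, S_ij = kr n δ_ij - (n+1) kr(n+2) Z_i Z_j,
 R_ijk = -(n+1) kr(n+2)(δ_ij Z_k + δ_ik Z_j + δ_jk Z_i) + (n+1)(n+3) kr(n+4) Z_i Z_j Z_k,
 T = kr(n+2)(4|Z|^2 + (n+5) ε^2), V_k = sum_i R_iik = -(n+1)[4 kr(n+2) + (n+3) ε^2 kr(n+4)] Z_k,
 sum_i d_i R_ijl = H_jl = d_l V_j = the integrand of H5.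
-/

set_option autoImplicit false

open MeasureTheory Filter Topology Metric Set
open scoped RealInnerProductSpace ENNReal

namespace Pool.Agent.H1.LD

open Pool.Agent.RZ

variable {d : ℕ}

/-- `O ((1 + |Z|) ^ (-p))` -/
private def C5A1Bd (p : ℕ) (f : X d → ℝ) : Prop := ∃ C : ℝ, ∀ Z, |f Z| ≤ C * (1 + ‖Z‖)⁻¹ ^ p

private theorem C5A1_pos (Z : X d) : 0 < 1 + ‖Z‖ := by
  have := norm_nonneg Z
  linarith

private theorem C5A1_le (i : Fin d) (Z : X d) : |Z i| ≤ 1 + ‖Z‖ := by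
  have h1 : |Z i| ≤ ‖Z‖ := by
    have := EuclideanSpace.norm_eq Z
    have h2 : |Z i| ^ 2 ≤ ‖Z‖ ^ 2 := by
      rw [EuclideanSpace.real_norm_sq_eq, sq_abs]
      exact Finset.single_le_sum (f := fun j => Z j ^ 2) (fun j _ => sq_nonneg _)
        (Finset.mem_univ i)
    exact abs_le_of_sq_le_sq' h2 (norm_nonneg _) |>.2 |> fun h => by
      simpa using h
  linarith

private theorem C5A1Bd.nonneg {p : ℕ} {f : X d → ℝ} (h : C5A1Bd p f) :
    ∃ C : ℝ, 0 ≤ C ∧ ∀ Z, |f Z| ≤ C * (1 + ‖Z‖)⁻¹ ^ p := by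
  obtain ⟨C, hC⟩ := h
  have h0 := (abs_nonneg _).trans (hC 0)
  have hC0 : 0 ≤ C := by simpa using h0
  exact ⟨C, hC0, hC⟩

private theorem C5A1Bd.add {p : ℕ} {f g : X d → ℝ} (hf : C5A1Bd p f) (hg : C5A1Bd p g) :
    C5A1Bd p (fun Z => f Z + g Z) := by
  obtain ⟨C, hC⟩ := hf
  obtain ⟨D, hD⟩ := hg
  refine ⟨C + D, fun Z => (abs_add_le _ _).trans ?_⟩
  rw [add_mul]
  exact add_le_add (hC Z) (hD Z)

private theorem C5A1Bd.const_mul {p : ℕ} {f : X d → ℝ} (c : ℝ) (hf : C5A1Bd p f) :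
    C5A1Bd p (fun Z => c * f Z) := by
  obtain ⟨C, hC⟩ := hf
  refine ⟨|c| * C, fun Z => ?_⟩
  rw [abs_mul, mul_assoc]
  exact mul_le_mul_of_nonneg_left (hC Z) (abs_nonneg _)

private theorem C5A1Bd.coord {p : ℕ} {f : X d → ℝ} (i : Fin d) (hf : C5A1Bd (p + 1) f) :
    C5A1Bd p (fun Z => f Z * Z i) := by
  obtain ⟨C, hC0, hC⟩ := hf.nonneg
  refine ⟨C, fun Z => ?_⟩
  rw [abs_mul]
  have h1 := C5A1_pos Z
  calc |f Z| * |Z i| ≤ (C * (1 + ‖Z‖)⁻¹ ^ (p + 1)) * (1 + ‖Z‖) :=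
        mul_le_mul (hC Z) (C5A1_le i Z) (abs_nonneg _) (by positivity)
    _ = C * (1 + ‖Z‖)⁻¹ ^ p := by
        rw [pow_succ]
        field_simp

private theorem C5A1Bd.normsq {p : ℕ} {f : X d → ℝ} (hf : C5A1Bd (p + 2) f) :
    C5A1Bd p (fun Z => f Z * ‖Z‖ ^ 2) := by
  obtain ⟨C, hC0, hC⟩ := hf.nonneg
  refine ⟨C, fun Z => ?_⟩
  rw [abs_mul, abs_of_nonneg (sq_nonneg ‖Z‖)]
  have h1 := C5A1_pos Z
  have h2 : ‖Z‖ ^ 2 ≤ (1 + ‖Z‖) ^ 2 :=
    pow_le_pow_left₀ (norm_nonneg _) (by linarith) 2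
  calc |f Z| * ‖Z‖ ^ 2 ≤ (C * (1 + ‖Z‖)⁻¹ ^ (p + 2)) * (1 + ‖Z‖) ^ 2 :=
        mul_le_mul (hC Z) h2 (by positivity) (by positivity)
    _ = C * (1 + ‖Z‖)⁻¹ ^ p := by
        rw [pow_add]
        field_simp

private theorem C5A1Bd.krn (m : ℕ) {ε : ℝ} (hε : 0 < ε) :
    C5A1Bd (m + 1) (fun Z : X d => kr m ε Z) := by
  refine ⟨(1 + ε⁻¹) ^ (m + 1), fun Z => ?_⟩
  have h0 := C5A1_pos Z
  have hq : 0 < Real.sqrt (‖Z‖ ^ 2 + ε ^ 2) := by positivity
  have h1 : ‖Z‖ ≤ Real.sqrt (‖Z‖ ^ 2 + ε ^ 2) := by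
    apply Real.le_sqrt_of_sq_le
    nlinarith [sq_nonneg ε]
  have h2 : ε ≤ Real.sqrt (‖Z‖ ^ 2 + ε ^ 2) := by
    apply Real.le_sqrt_of_sq_le
    nlinarith [sq_nonneg ‖Z‖]
  have h3 : (Real.sqrt (‖Z‖ ^ 2 + ε ^ 2))⁻¹ ≤ (1 + ε⁻¹) * (1 + ‖Z‖)⁻¹ := by
    rw [← div_eq_mul_inv, le_div_iff₀ h0, inv_mul_le_iff₀ hq]
    have h4 : 1 ≤ Real.sqrt (‖Z‖ ^ 2 + ε ^ 2) * ε⁻¹ := by
      rw [← div_eq_mul_inv, le_div_iff₀ hε]
      linarith
    nlinarith
  show |(Real.sqrt (‖Z‖ ^ 2 + ε ^ 2))⁻¹ ^ (m + 1)| ≤ _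
  rw [abs_of_nonneg (by positivity), ← mul_pow]
  exact pow_le_pow_left₀ (by positivity) h3 _

private theorem C5A1Bd.unif {ι : Type} [Fintype ι] {p : ℕ} {g : ι → X d → ℝ}
    (h : ∀ i, C5A1Bd p (g i)) : ∃ C : ℝ, 0 ≤ C ∧ ∀ i Z, |g i Z| ≤ C * (1 + ‖Z‖)⁻¹ ^ p := by
  choose C hC0 hC using fun i => (h i).nonneg
  refine ⟨∑ i, C i, Finset.sum_nonneg fun i _ => hC0 i, fun i Z => (hC i Z).trans ?_⟩
  have h0 := C5A1_pos Z
  exact mul_le_mul_of_nonneg_right
    (Finset.single_le_sum (fun j _ => hC0 j) (Finset.mem_univ i)) (by positivity)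

/-- smooth kernels with their derivatives, with decay of order `p` -/
private structure C5A1K (p : ℕ) (f : X d → ℝ) (f' : Fin d → X d → ℝ) : Prop where
  cd : ContDiff ℝ 1 f
  ef : ∀ Z k, fderiv ℝ f Z (EuclideanSpace.single k 1) = f' k Z
  b : C5A1Bd p f
  b' : ∀ k, C5A1Bd (p + 1) (f' k)

private theorem C5A1K.congr {p : ℕ} {f : X d → ℝ} {f' g' : Fin d → X d → ℝ}
    (h : C5A1K p f f') (e : ∀ k Z, f' k Z = g' k Z) : C5A1K p f g' := by
  have : f' = g' := funext fun k => funext fun Z => e k Z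
  rwa [← this]

private theorem C5A1K.add {p : ℕ} {f g : X d → ℝ} {f' g' : Fin d → X d → ℝ}
    (hf : C5A1K p f f') (hg : C5A1K p g g') :
    C5A1K p (fun Z => f Z + g Z) (fun k Z => f' k Z + g' k Z) where
  cd := hf.cd.add hg.cd
  ef Z k := by
    rw [fderiv_fun_add (hf.cd.differentiable one_ne_zero Z) (hg.cd.differentiable one_ne_zero Z)]
    simp only [add_apply, hf.ef, hg.ef]
  b := hf.b.add hg.b
  b' k := (hf.b' k).add (hg.b' k)

private theorem C5A1K.const_mul {p : ℕ} {f : X d → ℝ} {f' : Fin d → X d → ℝ} (c : ℝ)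
    (hf : C5A1K p f f') : C5A1K p (fun Z => c * f Z) (fun k Z => c * f' k Z) where
  cd := contDiff_const.mul hf.cd
  ef Z k := by
    rw [fderiv_const_mul (hf.cd.differentiable one_ne_zero Z)]
    simp only [smul_apply, smul_eq_mul, hf.ef]
  b := hf.b.const_mul c
  b' k := (hf.b' k).const_mul c

private theorem C5A1_hc (i : Fin d) (Z : X d) :
    HasFDerivAt (fun Z : X d => Z i) (EuclideanSpace.proj i : X d →L[ℝ] ℝ) Z :=
  (EuclideanSpace.proj i : X d →L[ℝ] ℝ).hasFDerivAt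

private theorem C5A1_single (i k : Fin d) :
    (EuclideanSpace.single k (1 : ℝ) : X d) i = if i = k then 1 else 0 := by
  simp

private theorem C5A1K.coord {p : ℕ} {f : X d → ℝ} {f' : Fin d → X d → ℝ} (i : Fin d)
    (hf : C5A1K (p + 1) f f') :
    C5A1K p (fun Z => f Z * Z i)
      (fun k Z => f' k Z * Z i + (if i = k then 1 else 0) * f Z) where
  cd := hf.cd.mul (EuclideanSpace.proj i : X d →L[ℝ] ℝ).contDiff
  ef Z k := by
    have h1 : HasFDerivAt f (fderiv ℝ f Z) Z :=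
      (hf.cd.differentiable one_ne_zero Z).hasFDerivAt
    have h2 : HasFDerivAt (fun Z : X d => f Z * Z i) _ Z := h1.mul (C5A1_hc i Z)
    rw [h2.fderiv]
    simp only [add_apply, smul_apply, smul_eq_mul, hf.ef, PiLp.proj_apply, C5A1_single]
    ring
  b := hf.b.coord i
  b' k := by
    have h1 : C5A1Bd (p + 1) (fun Z => f' k Z * Z i) := (hf.b' k).coord i
    exact h1.add (hf.b.const_mul _)

private theorem C5A1K.normsq {p : ℕ} {f : X d → ℝ} {f' : Fin d → X d → ℝ}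
    (hf : C5A1K (p + 2) f f') :
    C5A1K p (fun Z => f Z * ‖Z‖ ^ 2)
      (fun k Z => f' k Z * ‖Z‖ ^ 2 + 2 * (f Z * Z k)) where
  cd := hf.cd.mul (contDiff_norm_sq ℝ)
  ef Z k := by
    have h1 : HasFDerivAt f (fderiv ℝ f Z) Z :=
      (hf.cd.differentiable one_ne_zero Z).hasFDerivAt
    have h2 : HasFDerivAt (fun Z : X d => f Z * ‖Z‖ ^ 2) _ Z :=
      h1.mul (hasStrictFDerivAt_norm_sq Z).hasFDerivAt
    rw [h2.fderiv]
    simp only [add_apply, smul_apply, smul_eq_mul, hf.ef, innerSL_apply_apply, nsmul_eq_mul,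
      EuclideanSpace.inner_single_right]
    simp
    ring
  b := hf.b.normsq
  b' k := by
    have h1 : C5A1Bd (p + 1) (fun Z => f' k Z * ‖Z‖ ^ 2) := (hf.b' k).normsq
    exact h1.add ((hf.b.coord k).const_mul 2)

private theorem C5A1K.krn (m : ℕ) {ε : ℝ} (hε : 0 < ε) :
    C5A1K (d := d) (m + 1) (fun Z => kr m ε Z)
      (fun k Z => -(m + 1) * (kr (m + 2) ε Z * Z k)) where
  cd := by
    unfold kr
    have h1 : ContDiff ℝ 1 fun Z : X d => ‖Z‖ ^ 2 + ε ^ 2 :=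
      (contDiff_norm_sq ℝ).add contDiff_const
    have h2 := h1.sqrt (fun Z => by positivity)
    exact (h2.inv (fun Z => by positivity)).pow _
  ef Z k := by
    have hq : 0 < Real.sqrt (‖Z‖ ^ 2 + ε ^ 2) := by positivity
    have h1 : HasDerivAt (fun s : ℝ => (Real.sqrt (s + ε ^ 2))⁻¹ ^ (m + 1))
        (-((m + 1) / 2) * (Real.sqrt (‖Z‖ ^ 2 + ε ^ 2))⁻¹ ^ (m + 3)) (‖Z‖ ^ 2) := by
      have h2 : HasDerivAt (fun s : ℝ => s + ε ^ 2) 1 (‖Z‖ ^ 2) :=
        (hasDerivAt_id _).add_const _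
      have h3 : HasDerivAt (fun s : ℝ => (Real.sqrt (s + ε ^ 2))⁻¹ ^ (m + 1)) _ (‖Z‖ ^ 2) :=
        ((h2.sqrt (by positivity)).inv hq.ne').pow (m + 1)
      convert h3 using 1
      have h6 : ((fun y : ℝ => Real.sqrt (y + ε ^ 2))⁻¹ (‖Z‖ ^ 2)) =
          (Real.sqrt (‖Z‖ ^ 2 + ε ^ 2))⁻¹ := rfl
      rw [h6, Nat.add_sub_cancel, pow_add _ m 3]
      push_cast
      field_simp
    have h4 := h1.comp_hasFDerivAt Z (hasStrictFDerivAt_norm_sq Z).hasFDerivAt
    have h5 : fderiv ℝ (fun Z : X d => kr m ε Z) Z = _ := h4.fderiv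
    rw [h5]
    simp only [smul_apply, smul_eq_mul, innerSL_apply_apply, nsmul_eq_mul,
      EuclideanSpace.inner_single_right, kr]
    simp
    ring
  b := C5A1Bd.krn m hε
  b' k := by
    have h1 : C5A1Bd (m + 1 + 1) (fun Z : X d => kr (m + 2) ε Z * Z k) :=
      (C5A1Bd.krn (m + 2) hε).coord k
    exact h1.const_mul _

private theorem C5A1K.cont' {p : ℕ} {f : X d → ℝ} {f' : Fin d → X d → ℝ} (h : C5A1K p f f')
    (k : Fin d) : Continuous (f' k) := by
  have h1 : Continuous fun Z => fderiv ℝ f Z (EuclideanSpace.single k 1) :=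
    (h.cd.continuous_fderiv one_ne_zero).clm_apply continuous_const
  have h2 : (fun Z => fderiv ℝ f Z (EuclideanSpace.single k 1)) = f' k :=
    funext fun Z => h.ef Z k
  rwa [h2] at h1

private theorem C5A1_inv_le (Z : X d) : (1 + ‖Z‖)⁻¹ ≤ 1 := by
  have := norm_nonneg Z
  exact inv_le_one_of_one_le₀ (by linarith)

private theorem C5A1Bd.bounded {p : ℕ} {f : X d → ℝ} (h : C5A1Bd p f) :
    ∃ C : ℝ, 0 ≤ C ∧ ∀ Z, |f Z| ≤ C := by
  obtain ⟨C, hC0, hC⟩ := h.nonneg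
  refine ⟨C, hC0, fun Z => (hC Z).trans ?_⟩
  have h0 := C5A1_pos Z
  have h1 : (1 + ‖Z‖)⁻¹ ^ p ≤ 1 := pow_le_one₀ (by positivity) (C5A1_inv_le Z)
  nlinarith

private theorem C5A1_op (L : X d →L[ℝ] ℝ) {C : ℝ} (hC : 0 ≤ C)
    (h : ∀ k, |L (EuclideanSpace.single k 1)| ≤ C) : ‖L‖ ≤ d * C := by
  refine ContinuousLinearMap.opNorm_le_bound _ (by positivity) fun v => ?_
  have h1 : v = ∑ k, v k • EuclideanSpace.single k (1 : ℝ) := by
    have h2 := (EuclideanSpace.basisFun (Fin d) ℝ).sum_repr v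
    simp only [EuclideanSpace.basisFun_repr, EuclideanSpace.basisFun_apply] at h2
    exact h2.symm
  have h3 : L v = ∑ k, v k * L (EuclideanSpace.single k 1) := by
    conv_lhs => rw [h1]
    rw [map_sum]
    refine Finset.sum_congr rfl fun k _ => ?_
    rw [map_smul, smul_eq_mul]
  rw [h3]
  have hv : ∀ k, |v k| ≤ ‖v‖ := by
    intro k
    have := PiLp.norm_apply_le v k
    simpa using this
  calc ‖∑ k, v k * L (EuclideanSpace.single k 1)‖
      ≤ ∑ k, ‖v k * L (EuclideanSpace.single k 1)‖ := norm_sum_le _ _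
    _ ≤ ∑ _k : Fin d, ‖v‖ * C := by
        refine Finset.sum_le_sum fun k _ => ?_
        rw [norm_mul, Real.norm_eq_abs, Real.norm_eq_abs]
        exact mul_le_mul (hv k) (h k) (abs_nonneg _) (norm_nonneg _)
    _ = d * C * ‖v‖ := by
        rw [Finset.sum_const, Finset.card_univ, Fintype.card_fin, nsmul_eq_mul]
        ring

section

variable {μ : Measure (X d)} [IsFiniteMeasure μ]

private theorem C5A1_integrable {f : X d → ℝ} (hc : Continuous f) {C : ℝ}
    (h : ∀ Z, |f Z| ≤ C) (Y : X d) : Integrable (fun x => f (Y - x)) μ :=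
  Integrable.of_bound (hc.comp (continuous_const.sub continuous_id)).aestronglyMeasurable C
    (Eventually.of_forall fun x => by
      rw [Real.norm_eq_abs]
      exact h _)

private theorem C5A1_cont {f : X d → ℝ} (hc : Continuous f) {C : ℝ} (h : ∀ Z, |f Z| ≤ C) :
    Continuous fun Y => ∫ x, f (Y - x) ∂μ := by
  refine continuous_of_dominated (bound := fun _ => C) (fun Y =>
    (hc.comp (continuous_const.sub continuous_id)).aestronglyMeasurable)
    (fun Y => Eventually.of_forall fun x => ?_) (integrable_const C)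
    (Eventually.of_forall fun x => ?_)
  · rw [Real.norm_eq_abs]
    exact h _
  · exact hc.comp (continuous_id.sub continuous_const)

private theorem C5A1_bd {A : ℝ} (hA : μ (closedBall 0 A)ᶜ = 0) {p : ℕ} {f : X d → ℝ}
    (h : C5A1Bd p f) : C5A1Bd p (fun Y => ∫ x, f (Y - x) ∂μ) := by
  obtain ⟨C, hC0, hC⟩ := h.nonneg
  refine ⟨C * (1 + |A|) ^ p * μ.real Set.univ, fun Y => ?_⟩
  have h0 := C5A1_pos Y
  have h1 : ∀ᵐ x ∂μ, ‖f (Y - x)‖ ≤ C * ((1 + |A|) * (1 + ‖Y‖)⁻¹) ^ p := by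
    have h2 : ∀ᵐ x ∂μ, x ∈ closedBall (0 : X d) A := by
      rw [ae_iff]
      exact hA
    filter_upwards [h2] with x hx
    rw [mem_closedBall_zero_iff] at hx
    rw [Real.norm_eq_abs]
    refine (hC _).trans (mul_le_mul_of_nonneg_left ?_ hC0)
    have h3 := C5A1_pos (Y - x)
    refine pow_le_pow_left₀ (by positivity) ?_ _
    rw [← div_eq_mul_inv, le_div_iff₀ h0, inv_mul_le_iff₀ h3]
    have h4 : ‖Y‖ ≤ ‖Y - x‖ + ‖x‖ := by
      have := norm_add_le (Y - x) x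
      rwa [sub_add_cancel] at this
    have h5 : ‖x‖ ≤ |A| := hx.trans (le_abs_self A)
    have h6 := abs_nonneg A
    have h7 := norm_nonneg (Y - x)
    nlinarith
  have h8 := norm_integral_le_of_norm_le_const h1
  rw [Real.norm_eq_abs] at h8
  refine h8.trans (le_of_eq ?_)
  rw [mul_pow]
  ring

private theorem C5A1_diff {p : ℕ} {f : X d → ℝ} {f' : Fin d → X d → ℝ} (h : C5A1K p f f') :
    Differentiable ℝ (fun Y => ∫ x, f (Y - x) ∂μ) ∧
      ∀ k Y, fderiv ℝ (fun Y => ∫ x, f (Y - x) ∂μ) Y (EuclideanSpace.single k 1) =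
        ∫ x, f' k (Y - x) ∂μ := by
  obtain ⟨C, hC0, hC⟩ := C5A1Bd.unif h.b'
  have hC' : ∀ k Z, |f' k Z| ≤ C := by
    intro k Z
    refine (hC k Z).trans ?_
    have h0 := C5A1_pos Z
    have h1 : (1 + ‖Z‖)⁻¹ ^ (p + 1) ≤ 1 := pow_le_one₀ (by positivity) (C5A1_inv_le Z)
    nlinarith
  obtain ⟨D, hD0, hD⟩ := h.b.bounded
  have hL : ∀ Z, ‖fderiv ℝ f Z‖ ≤ d * C := fun Z =>
    C5A1_op _ hC0 fun k => by
      rw [h.ef]
      exact hC' k Z
  have hcL : Continuous (fderiv ℝ f) := h.cd.continuous_fderiv one_ne_zero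
  have key : ∀ Y, HasFDerivAt (fun Y => ∫ x, f (Y - x) ∂μ) (∫ x, fderiv ℝ f (Y - x) ∂μ) Y := by
    intro Y
    refine hasFDerivAt_integral_of_dominated_of_fderiv_le (s := Set.univ)
      (bound := fun _ => d * C) (F' := fun Y x => fderiv ℝ f (Y - x)) Filter.univ_mem
      (Eventually.of_forall fun Y =>
        (h.cd.continuous.comp (continuous_const.sub continuous_id)).aestronglyMeasurable)
      (C5A1_integrable h.cd.continuous hD Y)
      (hcL.comp (continuous_const.sub continuous_id)).aestronglyMeasurable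
      (Eventually.of_forall fun x Y _ => hL _) (integrable_const _)
      (Eventually.of_forall fun x Y _ => ?_)
    have h1 : HasFDerivAt f (fderiv ℝ f (Y - x)) (Y - x) :=
      (h.cd.differentiable one_ne_zero _).hasFDerivAt
    have h2 : HasFDerivAt (fun Y : X d => Y - x) (ContinuousLinearMap.id ℝ (X d)) Y :=
      (hasFDerivAt_id Y).sub_const x
    have h3 := h1.comp Y h2
    rwa [ContinuousLinearMap.comp_id] at h3
  refine ⟨fun Y => (key Y).differentiableAt, fun k Y => ?_⟩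
  rw [(key Y).fderiv, ContinuousLinearMap.integral_apply]
  · simp only [h.ef]
  · exact Integrable.of_bound
      (hcL.comp (continuous_const.sub continuous_id)).aestronglyMeasurable (d * C)
      (Eventually.of_forall fun x => hL _)

end


private theorem C5A1_intv {p : ℕ} {f : X d → ℝ} (hc : Continuous f) (h : C5A1Bd (p + 1) f)
    (μ : Measure (X d)) [IsFiniteMeasure μ] (Y : X d) :
    Integrable (fun x => f (Y - x) • (Y - x)) μ := by
  obtain ⟨C, hC0, hC⟩ := h.nonneg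
  have h1 : Continuous fun x : X d => Y - x := continuous_const.sub continuous_id
  refine Integrable.of_bound ((hc.comp h1).smul h1).aestronglyMeasurable C
    (Eventually.of_forall fun x => ?_)
  have h0 := C5A1_pos (Y - x)
  have h2 : (1 + ‖Y - x‖)⁻¹ ^ p ≤ 1 := pow_le_one₀ (by positivity) (C5A1_inv_le _)
  rw [norm_smul, Real.norm_eq_abs]
  calc |f (Y - x)| * ‖Y - x‖ ≤ (C * (1 + ‖Y - x‖)⁻¹ ^ (p + 1)) * (1 + ‖Y - x‖) :=
        mul_le_mul (hC _) (by linarith) (norm_nonneg _) (by positivity)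
    _ = C * (1 + ‖Y - x‖)⁻¹ ^ p := by
        rw [pow_succ]
        field_simp
    _ ≤ C := by nlinarith

/-- the kernel of `F` -/
private noncomputable def C5A1F (n : ℕ) (ε : ℝ) (i : Fin d) (Z : X d) : ℝ := kr n ε Z * Z i

/-- the kernel of `S` -/
private noncomputable def C5A1S (n : ℕ) (ε : ℝ) (i j : Fin d) (Z : X d) : ℝ :=
  (if i = j then 1 else 0) * kr n ε Z + -(n + 1) * (kr (n + 2) ε Z * Z j * Z i)

/-- the kernel of `R` -/
private noncomputable def C5A1R (n : ℕ) (ε : ℝ) (i j k : Fin d) (Z : X d) : ℝ :=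
  (-(n + 1) * (if i = j then 1 else 0)) * (kr (n + 2) ε Z * Z k) +
    (-(n + 1) * (if j = k then 1 else 0)) * (kr (n + 2) ε Z * Z i) +
    (-(n + 1) * (if i = k then 1 else 0)) * (kr (n + 2) ε Z * Z j) +
    ((n + 1) * (n + 3)) * (kr (n + 4) ε Z * Z k * Z j * Z i)

/-- the kernel of the derivative of `R` -/
private noncomputable def C5A1D (n : ℕ) (ε : ℝ) (i j k l : Fin d) (Z : X d) : ℝ :=
  (-(n + 1) * (if i = j then 1 else 0)) * (-(n + 3) * (kr (n + 4) ε Z * Z l) * Z k +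
      (if k = l then 1 else 0) * kr (n + 2) ε Z) +
    (-(n + 1) * (if j = k then 1 else 0)) * (-(n + 3) * (kr (n + 4) ε Z * Z l) * Z i +
      (if i = l then 1 else 0) * kr (n + 2) ε Z) +
    (-(n + 1) * (if i = k then 1 else 0)) * (-(n + 3) * (kr (n + 4) ε Z * Z l) * Z j +
      (if j = l then 1 else 0) * kr (n + 2) ε Z) +
    ((n + 1) * (n + 3)) * (((-(n + 5) * (kr (n + 6) ε Z * Z l) * Z k +
      (if k = l then 1 else 0) * kr (n + 4) ε Z) * Z j +
      (if j = l then 1 else 0) * (kr (n + 4) ε Z * Z k)) * Z i +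
      (if i = l then 1 else 0) * (kr (n + 4) ε Z * Z k * Z j))

/-- the kernel of `V` -/
private noncomputable def C5A1V (n : ℕ) (ε : ℝ) (k : Fin d) (Z : X d) : ℝ :=
  (-(n + 1) * 4) * (kr (n + 2) ε Z * Z k) +
    (-(n + 1) * ((n + 3) * ε ^ 2)) * (kr (n + 4) ε Z * Z k)

/-- the kernel of `H`, up to a factor -/
private noncomputable def C5A1H (n : ℕ) (ε : ℝ) (k l : Fin d) (Z : X d) : ℝ :=
  (4 * kr (n + 2) ε Z + (n + 3) * ε ^ 2 * kr (n + 4) ε Z) * (if k = l then 1 else 0) -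
    (n + 3) * (4 * kr (n + 4) ε Z + (n + 5) * ε ^ 2 * kr (n + 6) ε Z) * (Z k * Z l)

private theorem C5A1Bd.mono {p q : ℕ} (h : q ≤ p) {f : X d → ℝ} (hf : C5A1Bd p f) :
    C5A1Bd q f := by
  obtain ⟨C, hC0, hC⟩ := hf.nonneg
  refine ⟨C, fun Z => (hC Z).trans (mul_le_mul_of_nonneg_left ?_ hC0)⟩
  have h0 := C5A1_pos Z
  exact pow_le_pow_of_le_one (by positivity) (C5A1_inv_le Z) h

private theorem C5A1K.mono {p q : ℕ} (h : q ≤ p) {f : X d → ℝ} {f' : Fin d → X d → ℝ}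
    (hf : C5A1K p f f') : C5A1K q f f' where
  cd := hf.cd
  ef := hf.ef
  b := hf.b.mono h
  b' k := (hf.b' k).mono (by omega)

private theorem C5A1K_F (n : ℕ) {ε : ℝ} (hε : 0 < ε) (i : Fin d) :
    C5A1K n (C5A1F n ε i) (C5A1S n ε i) :=
  ((C5A1K.krn n hε).coord i).congr fun k Z => by
    unfold C5A1S
    ring

private theorem C5A1K_S (n : ℕ) {ε : ℝ} (hε : 0 < ε) (i j : Fin d) :
    C5A1K (n + 1) (C5A1S n ε i j) (C5A1R n ε i j) := by
  have h1 : C5A1K (d := d) (n + 1) (fun Z => kr (n + 2) ε Z * Z j * Z i) _ :=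
    ((C5A1K.krn (n + 2) hε).coord j).coord i
  refine (((C5A1K.krn n hε).const_mul (if i = j then 1 else 0)).add
    (h1.const_mul (-(n + 1)))).congr fun k Z => ?_
  unfold C5A1R
  push_cast
  ring

private theorem C5A1K_R (n : ℕ) {ε : ℝ} (hε : 0 < ε) (i j k : Fin d) :
    C5A1K (n + 2) (C5A1R n ε i j k) (C5A1D n ε i j k) := by
  have h1 : ∀ a : Fin d, C5A1K (d := d) (n + 2) (fun Z => kr (n + 2) ε Z * Z a) _ := fun a =>
    (C5A1K.krn (n + 2) hε).coord a
  have h2 : C5A1K (d := d) (n + 2) (fun Z => kr (n + 4) ε Z * Z k * Z j * Z i) _ :=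
    (((C5A1K.krn (n + 4) hε).coord k : C5A1K (n + 3 + 1) _ _).coord j :
      C5A1K (n + 2 + 1) _ _).coord i
  refine (((((h1 k).const_mul (-(n + 1) * (if i = j then 1 else 0))).add
    ((h1 i).const_mul (-(n + 1) * (if j = k then 1 else 0)))).add
    ((h1 j).const_mul (-(n + 1) * (if i = k then 1 else 0)))).add
    (h2.const_mul ((n + 1) * (n + 3)))).congr fun l Z => ?_
  unfold C5A1D
  push_cast
  ring

private theorem C5A1K_V (n : ℕ) {ε : ℝ} (hε : 0 < ε) (k : Fin d) :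
    C5A1K (n + 2) (C5A1V n ε k) (fun l Z => -(n + 1) * C5A1H n ε k l Z) := by
  have h1 : C5A1K (d := d) (n + 2) (fun Z => kr (n + 2) ε Z * Z k) _ :=
    (C5A1K.krn (n + 2) hε).coord k
  have h2 : C5A1K (d := d) (n + 2) (fun Z => kr (n + 4) ε Z * Z k) _ :=
    ((C5A1K.krn (n + 4) hε).coord k : C5A1K (n + 4) _ _).mono (by omega)
  refine ((h1.const_mul (-(n + 1) * 4)).add
    (h2.const_mul (-(n + 1) * ((n + 3) * ε ^ 2)))).congr fun l Z => ?_
  unfold C5A1H
  push_cast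
  ring

private theorem C5A1_krs (m : ℕ) {ε : ℝ} (hε : 0 < ε) (Z : X d) :
    kr m ε Z = kr (m + 2) ε Z * (‖Z‖ ^ 2 + ε ^ 2) := by
  have hq : 0 < Real.sqrt (‖Z‖ ^ 2 + ε ^ 2) := by positivity
  have h1 : ‖Z‖ ^ 2 + ε ^ 2 = Real.sqrt (‖Z‖ ^ 2 + ε ^ 2) ^ 2 :=
    (Real.sq_sqrt (by positivity)).symm
  unfold kr
  conv_rhs => rw [h1]
  rw [Real.sqrt_sq hq.le, show m + 2 + 1 = m + 1 + 2 by ring, pow_add _ (m + 1) 2]
  field_simp

private theorem C5A1_eT {n : ℕ} {ε : ℝ} (hε : 0 < ε) (Z : X (n + 5)) :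
    kr (n + 2) ε Z * (4 * ‖Z‖ ^ 2 + (n + 5) * ε ^ 2) = ∑ i, C5A1S n ε i i Z := by
  have h1 : ∑ i, C5A1S n ε i i Z =
      ∑ i, (kr n ε Z + -(n + 1) * kr (n + 2) ε Z * Z i ^ 2) := by
    refine Finset.sum_congr rfl fun i _ => ?_
    unfold C5A1S
    rw [if_pos rfl]
    ring
  rw [h1, Finset.sum_add_distrib, ← Finset.mul_sum, ← EuclideanSpace.real_norm_sq_eq,
    Finset.sum_const, Finset.card_univ, Fintype.card_fin, nsmul_eq_mul, C5A1_krs n hε]
  push_cast
  ring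

private theorem C5A1_eV {n : ℕ} {ε : ℝ} (hε : 0 < ε) (k : Fin (n + 5)) (Z : X (n + 5)) :
    C5A1V n ε k Z = ∑ i, C5A1R n ε i i k Z := by
  have h1 : ∑ i, C5A1R n ε i i k Z =
      ∑ i, (-(n + 1) * (kr (n + 2) ε Z * Z k) +
        (n + 1) * (n + 3) * (kr (n + 4) ε Z * Z k) * Z i ^ 2 +
        (if i = k then -(2 * (n + 1)) * (kr (n + 2) ε Z * Z i) else 0)) := by
    refine Finset.sum_congr rfl fun i _ => ?_
    unfold C5A1R
    rw [if_pos rfl]
    split_ifs <;> ring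
  rw [h1, Finset.sum_add_distrib, Finset.sum_add_distrib,
    ← Finset.mul_sum _ (fun i => Z i ^ 2) _,
    ← EuclideanSpace.real_norm_sq_eq, Finset.sum_const, Finset.card_univ, Fintype.card_fin,
    nsmul_eq_mul, Finset.sum_ite_eq' Finset.univ k, if_pos (Finset.mem_univ k)]
  unfold C5A1V
  rw [C5A1_krs (n + 2) hε, show n + 2 + 2 = n + 4 by ring]
  push_cast
  ring

private theorem C5A1_eR {n : ℕ} {ε : ℝ} (hε : 0 < ε) (j k : Fin (n + 5)) (Z : X (n + 5)) :
    ∑ i, C5A1D n ε i j k i Z = -(n + 1) * C5A1H n ε j k Z := by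
  have h1 : ∑ i, C5A1D n ε i j k i Z =
      ∑ i, ((-(n + 1) * (if j = k then 1 else 0) * kr (n + 2) ε Z +
          (n + 1) * (n + 3) * (kr (n + 4) ε Z * Z k * Z j)) +
        ((n + 1) * (n + 3) * (if j = k then 1 else 0) * kr (n + 4) ε Z -
          (n + 1) * (n + 3) * (n + 5) * (kr (n + 6) ε Z * Z k * Z j)) * Z i ^ 2 +
        (if i = j then -(n + 1) * (-(n + 3) * (kr (n + 4) ε Z * Z i) * Z k +
          (if k = j then 1 else 0) * kr (n + 2) ε Z) +
          (n + 1) * (n + 3) * (kr (n + 4) ε Z * Z k * Z i) else 0) +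
        (if i = k then -(n + 1) * (-(n + 3) * (kr (n + 4) ε Z * Z i) * Z j +
          (if j = k then 1 else 0) * kr (n + 2) ε Z) +
          (n + 1) * (n + 3) * (kr (n + 4) ε Z * Z j * Z i) else 0)) := by
    refine Finset.sum_congr rfl fun i _ => ?_
    unfold C5A1D
    by_cases h1 : i = j
    · subst h1
      by_cases h2 : i = k
      · subst h2
        simp only [if_true]
        ring
      · simp only [if_neg h2, if_neg (Ne.symm h2), if_true]
        ring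
    · by_cases h2 : i = k
      · subst h2
        simp only [if_neg h1, if_neg (Ne.symm h1), if_true]
        ring
      · simp only [if_neg h1, if_neg (Ne.symm h1), if_neg h2, if_neg (Ne.symm h2), if_true]
        ring
  rw [h1, Finset.sum_add_distrib, Finset.sum_add_distrib, Finset.sum_add_distrib,
    ← Finset.mul_sum _ (fun i => Z i ^ 2) _,
    ← EuclideanSpace.real_norm_sq_eq, Finset.sum_const, Finset.card_univ, Fintype.card_fin,
    nsmul_eq_mul, Finset.sum_ite_eq' Finset.univ k, if_pos (Finset.mem_univ k),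
    Finset.sum_ite_eq' Finset.univ j, if_pos (Finset.mem_univ j)]
  unfold C5A1H
  have e1 := C5A1_krs (n + 2) hε Z
  have e2 := C5A1_krs (n + 4) hε Z
  rw [show n + 2 + 2 = n + 4 by ring] at e1
  rw [show n + 4 + 2 = n + 6 by ring] at e2
  by_cases h2 : j = k
  · subst h2
    simp only [if_true]
    rw [e1, e2]
    push_cast
    ring
  · simp only [if_neg h2, if_neg (Ne.symm h2)]
    rw [e2]
    push_cast
    ring

private theorem C5A1_sR {n : ℕ} {ε : ℝ} (i j k : Fin d) (Z : X d) :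
    C5A1R n ε i j k Z = C5A1R n ε i k j Z := by
  unfold C5A1R
  by_cases h : j = k
  · subst h
    rfl
  · rw [if_neg h, if_neg (Ne.symm h)]
    ring

private theorem C5A1_sH {n : ℕ} {ε : ℝ} (k l : Fin d) (Z : X d) :
    C5A1H n ε k l Z = C5A1H n ε l k Z := by
  unfold C5A1H
  by_cases h : k = l
  · subst h
    rfl
  · rw [if_neg h, if_neg (Ne.symm h)]
    ring

private theorem C5A1_sS {n : ℕ} {ε : ℝ} (i j : Fin d) (Z : X d) :
    C5A1S n ε i j Z = C5A1S n ε j i Z := by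
  unfold C5A1S
  by_cases h : i = j
  · subst h
    rfl
  · rw [if_neg h, if_neg (Ne.symm h)]
    ring

private theorem C5A1_Fe {n : ℕ} {ε : ℝ} (hε : 0 < ε) (μ : Measure (X d))
    [IsFiniteMeasure μ] (i : Fin d) (Y : X d) :
    ⟪EuclideanSpace.single i 1, Fe n ε μ Y⟫ = ∫ x, C5A1F n ε i (Y - x) ∂μ := by
  unfold Fe
  rw [← integral_inner (C5A1_intv (p := n) (C5A1K.krn n hε).cd.continuous (C5A1Bd.krn n hε) μ Y)]
  refine integral_congr_ae (Eventually.of_forall fun x => ?_)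
  show ⟪EuclideanSpace.single i 1, kr n ε (Y - x) • (Y - x)⟫ = C5A1F n ε i (Y - x)
  rw [EuclideanSpace.inner_single_left]
  simp [C5A1F]

private theorem C5A1_Se {n : ℕ} {ε : ℝ} (hε : 0 < ε) (μ : Measure (X d))
    [IsFiniteMeasure μ] (i j : Fin d) (Y : X d) :
    ⟪EuclideanSpace.single i 1, Se n ε μ Y (EuclideanSpace.single j 1)⟫ =
      ∫ x, C5A1S n ε i j (Y - x) ∂μ := by
  obtain ⟨C, hC0, hC⟩ := (C5A1Bd.krn (d := d) n hε).bounded
  have h1 : Integrable (fun x => kr n ε (Y - x) • (EuclideanSpace.single j (1 : ℝ) : X d)) μ :=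
    (C5A1_integrable (C5A1K.krn n hε).cd.continuous hC Y).smul_const _
  have h2 : C5A1Bd (n + 1 + 1) (fun Z : X d => (n + 1) * (kr (n + 2) ε Z * Z j)) :=
    ((C5A1Bd.krn (n + 2) hε).coord j).const_mul _
  have h3 : Continuous (fun Z : X d => (n + 1) * (kr (n + 2) ε Z * Z j)) :=
    continuous_const.mul ((C5A1K.krn (n + 2) hε).coord j).cd.continuous
  have h4 := C5A1_intv h3 h2 μ Y
  have h5 : ∀ x, dK n ε (Y - x) (EuclideanSpace.single j 1) =
      kr n ε (Y - x) • (EuclideanSpace.single j (1 : ℝ) : X d) -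
        ((n + 1) * (kr (n + 2) ε (Y - x) * (Y - x) j)) • (Y - x) := by
    intro x
    unfold dK
    rw [EuclideanSpace.inner_single_right]
    simp
  have h6 : Integrable (fun x => kr n ε (Y - x) • (EuclideanSpace.single j (1 : ℝ) : X d) -
      ((n + 1) * (kr (n + 2) ε (Y - x) * (Y - x) j)) • (Y - x)) μ := h1.sub h4
  unfold Se
  simp only [h5]
  rw [← integral_inner h6]
  refine integral_congr_ae (Eventually.of_forall fun x => ?_)
  show ⟪EuclideanSpace.single i 1, kr n ε (Y - x) • (EuclideanSpace.single j (1 : ℝ) : X d) -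
        ((n + 1) * (kr (n + 2) ε (Y - x) * (Y - x) j)) • (Y - x)⟫ = C5A1S n ε i j (Y - x)
  rw [EuclideanSpace.inner_single_left]
  unfold C5A1S
  by_cases h : i = j
  · subst h
    simp
    ring
  · simp [h]
    ring

theorem exists_HesA {n : ℕ} (hn : 1 ≤ n) (hd : d = n + 5) {ε : ℝ} (hε : 0 < ε)
    (μ : Measure (X d)) [IsFiniteMeasure μ] {A : ℝ} (hA : μ (closedBall 0 A)ᶜ = 0) :
    ∃ (R : Fin d → Fin d → Fin d → X d → ℝ) (V : Fin d → X d → ℝ),
      HesA n (fun i Y => ⟪EuclideanSpace.single i 1, Fe n ε μ Y⟫)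
        (fun i j Y => ⟪EuclideanSpace.single i 1, Se n ε μ Y (EuclideanSpace.single j 1)⟫) R
        (T5 n ε μ) V (H5 n ε μ) := by
  subst hd
  have kF := fun i => C5A1K_F (d := n + 5) n hε i
  have kS := fun i j => C5A1K_S (d := n + 5) n hε i j
  have kR := fun i j k => C5A1K_R (d := n + 5) n hε i j k
  have kV := fun k => C5A1K_V (d := n + 5) n hε k
  have iS : ∀ i j Y, Integrable (fun x => C5A1S n ε i j (Y - x)) μ := fun i j Y => by
    obtain ⟨C, hC0, hC⟩ := (kS i j).b.bounded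
    exact C5A1_integrable (kS i j).cd.continuous hC Y
  have iR : ∀ i j k Y, Integrable (fun x => C5A1R n ε i j k (Y - x)) μ := fun i j k Y => by
    obtain ⟨C, hC0, hC⟩ := (kR i j k).b.bounded
    exact C5A1_integrable (kR i j k).cd.continuous hC Y
  have bD : ∀ i j k l, C5A1Bd (n + 3) (C5A1D (d := n + 5) n ε i j k l) := fun i j k l =>
    (kR i j k).b' l
  have cD : ∀ i j k l, Continuous (C5A1D (d := n + 5) n ε i j k l) := fun i j k l =>
    (kR i j k).cont' l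
  have iD : ∀ i j k l Y, Integrable (fun x => C5A1D n ε i j k l (Y - x)) μ :=
    fun i j k l Y => by
    obtain ⟨C, hC0, hC⟩ := (bD i j k l).bounded
    exact C5A1_integrable (cD i j k l) hC Y
  have bH : ∀ k l, C5A1Bd (n + 3) (fun Z : X (n + 5) => -(n + 1) * C5A1H n ε k l Z) :=
    fun k l => (kV k).b' l
  have cH : ∀ k l, Continuous (fun Z : X (n + 5) => -(n + 1) * C5A1H n ε k l Z) :=
    fun k l => (kV k).cont' l
  refine ⟨fun i j k Y => ∫ x, C5A1R n ε i j k (Y - x) ∂μ,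
    fun k Y => ∫ x, C5A1V n ε k (Y - x) ∂μ, ?_⟩
  have eF : (fun (i : Fin (n + 5)) (Y : X (n + 5)) =>
      (⟪EuclideanSpace.single i 1, Fe n ε μ Y⟫ : ℝ)) =
      fun i Y => ∫ x, C5A1F n ε i (Y - x) ∂μ :=
    funext fun i => funext fun Y => C5A1_Fe hε μ i Y
  have eS : (fun (i j : Fin (n + 5)) (Y : X (n + 5)) =>
      (⟪EuclideanSpace.single i 1, Se n ε μ Y (EuclideanSpace.single j 1)⟫ : ℝ)) =
      fun i j Y => ∫ x, C5A1S n ε i j (Y - x) ∂μ :=
    funext fun i => funext fun j => funext fun Y => C5A1_Se hε μ i j Y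
  have eH : H5 n ε μ = fun (k l : Fin (n + 5)) (Y : X (n + 5)) =>
      ∫ x, -(n + 1) * C5A1H n ε k l (Y - x) ∂μ :=
    funext fun k => funext fun l => funext fun Y => (integral_const_mul _ _).symm
  rw [eF, eS, eH]
  refine
    { dF := fun i => (C5A1_diff (kF i)).1
      dS := fun i j => (C5A1_diff (kS i j)).1
      dR := fun i j k => (C5A1_diff (kR i j k)).1
      dV := fun k => (C5A1_diff (kV k)).1
      cH := fun k l => ?_
      eF := fun i j x => (C5A1_diff (kF i)).2 j x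
      eS := fun i j k x => (C5A1_diff (kS i j)).2 k x
      eR := fun j l x => ?_
      eT := fun x => ?_
      eV := fun k x => ?_
      eH := fun k l x => (C5A1_diff (kV k)).2 l x
      sS := fun i j x => ?_
      sR := fun i j k x => ?_
      sH := fun k l x => ?_
      bd := ?_ }
  · obtain ⟨C, hC0, hC⟩ := (bH k l).bounded
    exact C5A1_cont (cH k l) hC
  · rw [Finset.sum_congr rfl fun i _ => (C5A1_diff (μ := μ) (kR i j l)).2 i x,
      ← integral_finsetSum _ fun i _ => iD i j l i x]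
    exact integral_congr_ae (Eventually.of_forall fun y => C5A1_eR hε j l (x - y))
  · rw [← integral_finsetSum _ fun i _ => iS i i x]
    exact integral_congr_ae (Eventually.of_forall fun y => C5A1_eT hε (x - y))
  · rw [← integral_finsetSum _ fun i _ => iR i i k x]
    exact integral_congr_ae (Eventually.of_forall fun y => C5A1_eV hε k (x - y))
  · exact integral_congr_ae (Eventually.of_forall fun y => C5A1_sS i j (x - y))
  · exact integral_congr_ae (Eventually.of_forall fun y => C5A1_sR i j k (x - y))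
  · exact integral_congr_ae (Eventually.of_forall fun y =>
      congrArg (fun s => -((n : ℝ) + 1) * s) (C5A1_sH k l (x - y)))
  · obtain ⟨C1, p1, h1⟩ := C5A1Bd.unif (fun i => C5A1_bd hA (kF i).b)
    obtain ⟨C2, p2, h2⟩ := C5A1Bd.unif (ι := Fin (n + 5) × Fin (n + 5))
      (fun i => C5A1_bd hA (kS i.1 i.2).b)
    obtain ⟨C3, p3, h3⟩ := C5A1Bd.unif (ι := Fin (n + 5) × Fin (n + 5) × Fin (n + 5))
      (fun i => C5A1_bd hA (kR i.1 i.2.1 i.2.2).b)
    obtain ⟨C4, p4, h4⟩ := C5A1Bd.unif (ι := Fin (n + 5) × Fin (n + 5) × Fin (n + 5) ×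
      Fin (n + 5)) (fun i => C5A1_bd hA (bD i.1 i.2.1 i.2.2.1 i.2.2.2))
    obtain ⟨C5, p5, h5⟩ := C5A1Bd.unif (ι := Fin (n + 5) × Fin (n + 5))
      (fun i => C5A1_bd hA (bH i.1 i.2))
    refine ⟨C1 + C2 + C3 + C4 + C5, fun x => ?_⟩
    have h0 := C5A1_pos x
    refine ⟨fun i => (h1 i x).trans ?_, fun i j => (h2 (i, j) x).trans ?_,
      fun i j k => (h3 (i, j, k) x).trans ?_, fun i j k l => ?_,
      fun k l => (h5 (k, l) x).trans ?_⟩
    · exact mul_le_mul_of_nonneg_right (by linarith) (by positivity)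
    · exact mul_le_mul_of_nonneg_right (by linarith) (by positivity)
    · exact mul_le_mul_of_nonneg_right (by linarith) (by positivity)
    · rw [(C5A1_diff (kR i j k)).2 l x]
      refine (h4 (i, j, k, l) x).trans ?_
      exact mul_le_mul_of_nonneg_right (by linarith) (by positivity)
    · exact mul_le_mul_of_nonneg_right (by linarith) (by positivity)

end Pool.Agent.H1.LD
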