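import Pool.Agent.H1.C5.D0

/-!
Row A2 (template LD/CoA.lean: copy its private classes; d = n+5).  Kernels: U = sum_k H_kk = -(n+1)[8 kr(n+2) + 4(n+3) ε^2 kr(n+4) + (n+3)(n+5) ε^4 kr(n+6)]
 (check with d = n+5, |Z|^2 = q - ε^2), G_k = d_k U = (n+1)(n+3)[8 kr(n+4) + 4(n+5) ε^2 kr(n+6) + (n+5)(n+7) ε^4 kr(n+8)] Z_k,
 sum d_k G_k = (n+1)(n+3)(n+5)(n+7)(n+9) ε^6 kr(n+10); W_k = kr(n+2) Z_k, sum d_k W_k = 2 kr(n+2) + (n+3) ε^2 kr(n+4).
-/

set_option autoImplicit false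

open MeasureTheory Filter Topology Metric Set
open scoped RealInnerProductSpace ENNReal

namespace Pool.Agent.H1.LD

open Pool.Agent.RZ

variable {d : ℕ}

/-- `O ((1 + |Z|) ^ (-p))` -/
private def C5A2Bd (p : ℕ) (f : X d → ℝ) : Prop := ∃ C : ℝ, ∀ Z, |f Z| ≤ C * (1 + ‖Z‖)⁻¹ ^ p

private theorem C5A2_pos (Z : X d) : 0 < 1 + ‖Z‖ := by
  have := norm_nonneg Z
  linarith

private theorem C5A2_le (i : Fin d) (Z : X d) : |Z i| ≤ 1 + ‖Z‖ := by
  have h1 : |Z i| ≤ ‖Z‖ := by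
    have := EuclideanSpace.norm_eq Z
    have h2 : |Z i| ^ 2 ≤ ‖Z‖ ^ 2 := by
      rw [EuclideanSpace.real_norm_sq_eq, sq_abs]
      exact Finset.single_le_sum (f := fun j => Z j ^ 2) (fun j _ => sq_nonneg _)
        (Finset.mem_univ i)
    exact abs_le_of_sq_le_sq' h2 (norm_nonneg _) |>.2 |> fun h => by
      simpa using h
  linarith

private theorem C5A2Bd.nonneg {p : ℕ} {f : X d → ℝ} (h : C5A2Bd p f) :
    ∃ C : ℝ, 0 ≤ C ∧ ∀ Z, |f Z| ≤ C * (1 + ‖Z‖)⁻¹ ^ p := by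
  obtain ⟨C, hC⟩ := h
  have h0 := (abs_nonneg _).trans (hC 0)
  have hC0 : 0 ≤ C := by simpa using h0
  exact ⟨C, hC0, hC⟩

private theorem C5A2Bd.add {p : ℕ} {f g : X d → ℝ} (hf : C5A2Bd p f) (hg : C5A2Bd p g) :
    C5A2Bd p (fun Z => f Z + g Z) := by
  obtain ⟨C, hC⟩ := hf
  obtain ⟨D, hD⟩ := hg
  refine ⟨C + D, fun Z => (abs_add_le _ _).trans ?_⟩
  rw [add_mul]
  exact add_le_add (hC Z) (hD Z)

private theorem C5A2Bd.const_mul {p : ℕ} {f : X d → ℝ} (c : ℝ) (hf : C5A2Bd p f) :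
    C5A2Bd p (fun Z => c * f Z) := by
  obtain ⟨C, hC⟩ := hf
  refine ⟨|c| * C, fun Z => ?_⟩
  rw [abs_mul, mul_assoc]
  exact mul_le_mul_of_nonneg_left (hC Z) (abs_nonneg _)

private theorem C5A2Bd.coord {p : ℕ} {f : X d → ℝ} (i : Fin d) (hf : C5A2Bd (p + 1) f) :
    C5A2Bd p (fun Z => f Z * Z i) := by
  obtain ⟨C, hC0, hC⟩ := hf.nonneg
  refine ⟨C, fun Z => ?_⟩
  rw [abs_mul]
  have h1 := C5A2_pos Z
  calc |f Z| * |Z i| ≤ (C * (1 + ‖Z‖)⁻¹ ^ (p + 1)) * (1 + ‖Z‖) :=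
        mul_le_mul (hC Z) (C5A2_le i Z) (abs_nonneg _) (by positivity)
    _ = C * (1 + ‖Z‖)⁻¹ ^ p := by
        rw [pow_succ]
        field_simp

private theorem C5A2Bd.krn (m : ℕ) {ε : ℝ} (hε : 0 < ε) :
    C5A2Bd (m + 1) (fun Z : X d => kr m ε Z) := by
  refine ⟨(1 + ε⁻¹) ^ (m + 1), fun Z => ?_⟩
  have h0 := C5A2_pos Z
  have hq : 0 < Real.sqrt (‖Z‖ ^ 2 + ε ^ 2) := by positivity
  have h1 : ‖Z‖ ≤ Real.sqrt (‖Z‖ ^ 2 + ε ^ 2) := by
    apply Real.le_sqrt_of_sq_le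
    nlinarith [sq_nonneg ε]
  have h2 : ε ≤ Real.sqrt (‖Z‖ ^ 2 + ε ^ 2) := by
    apply Real.le_sqrt_of_sq_le
    nlinarith [sq_nonneg ‖Z‖]
  have h3 : (Real.sqrt (‖Z‖ ^ 2 + ε ^ 2))⁻¹ ≤ (1 + ε⁻¹) * (1 + ‖Z‖)⁻¹ := by
    rw [← div_eq_mul_inv, le_div_iff₀ h0, inv_mul_le_iff₀ hq]
    have h4 : 1 ≤ Real.sqrt (‖Z‖ ^ 2 + ε ^ 2) * ε⁻¹ := by
      rw [← div_eq_mul_inv, le_div_iff₀ hε]
      linarith
    nlinarith
  show |(Real.sqrt (‖Z‖ ^ 2 + ε ^ 2))⁻¹ ^ (m + 1)| ≤ _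
  rw [abs_of_nonneg (by positivity), ← mul_pow]
  exact pow_le_pow_left₀ (by positivity) h3 _

private theorem C5A2Bd.unif {ι : Type} [Fintype ι] {p : ℕ} {g : ι → X d → ℝ}
    (h : ∀ i, C5A2Bd p (g i)) : ∃ C : ℝ, 0 ≤ C ∧ ∀ i Z, |g i Z| ≤ C * (1 + ‖Z‖)⁻¹ ^ p := by
  choose C hC0 hC using fun i => (h i).nonneg
  refine ⟨∑ i, C i, Finset.sum_nonneg fun i _ => hC0 i, fun i Z => (hC i Z).trans ?_⟩
  have h0 := C5A2_pos Z
  exact mul_le_mul_of_nonneg_right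
    (Finset.single_le_sum (fun j _ => hC0 j) (Finset.mem_univ i)) (by positivity)

/-- smooth kernels with their derivatives, with decay of order `p` -/
private structure C5A2K (p : ℕ) (f : X d → ℝ) (f' : Fin d → X d → ℝ) : Prop where
  cd : ContDiff ℝ 1 f
  ef : ∀ Z k, fderiv ℝ f Z (EuclideanSpace.single k 1) = f' k Z
  b : C5A2Bd p f
  b' : ∀ k, C5A2Bd (p + 1) (f' k)

private theorem C5A2K.congr {p : ℕ} {f : X d → ℝ} {f' g' : Fin d → X d → ℝ}
    (h : C5A2K p f f') (e : ∀ k Z, f' k Z = g' k Z) : C5A2K p f g' := by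
  have : f' = g' := funext fun k => funext fun Z => e k Z
  rwa [← this]

private theorem C5A2K.add {p : ℕ} {f g : X d → ℝ} {f' g' : Fin d → X d → ℝ}
    (hf : C5A2K p f f') (hg : C5A2K p g g') :
    C5A2K p (fun Z => f Z + g Z) (fun k Z => f' k Z + g' k Z) where
  cd := hf.cd.add hg.cd
  ef Z k := by
    rw [fderiv_fun_add (hf.cd.differentiable one_ne_zero Z) (hg.cd.differentiable one_ne_zero Z)]
    simp only [add_apply, hf.ef, hg.ef]
  b := hf.b.add hg.b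
  b' k := (hf.b' k).add (hg.b' k)

private theorem C5A2K.const_mul {p : ℕ} {f : X d → ℝ} {f' : Fin d → X d → ℝ} (c : ℝ)
    (hf : C5A2K p f f') : C5A2K p (fun Z => c * f Z) (fun k Z => c * f' k Z) where
  cd := contDiff_const.mul hf.cd
  ef Z k := by
    rw [fderiv_const_mul (hf.cd.differentiable one_ne_zero Z)]
    simp only [smul_apply, smul_eq_mul, hf.ef]
  b := hf.b.const_mul c
  b' k := (hf.b' k).const_mul c

private theorem C5A2_hc (i : Fin d) (Z : X d) :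
    HasFDerivAt (fun Z : X d => Z i) (EuclideanSpace.proj i : X d →L[ℝ] ℝ) Z :=
  (EuclideanSpace.proj i : X d →L[ℝ] ℝ).hasFDerivAt

private theorem C5A2_single (i k : Fin d) :
    (EuclideanSpace.single k (1 : ℝ) : X d) i = if i = k then 1 else 0 := by
  simp

private theorem C5A2K.coord {p : ℕ} {f : X d → ℝ} {f' : Fin d → X d → ℝ} (i : Fin d)
    (hf : C5A2K (p + 1) f f') :
    C5A2K p (fun Z => f Z * Z i)
      (fun k Z => f' k Z * Z i + (if i = k then 1 else 0) * f Z) where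
  cd := hf.cd.mul (EuclideanSpace.proj i : X d →L[ℝ] ℝ).contDiff
  ef Z k := by
    have h1 : HasFDerivAt f (fderiv ℝ f Z) Z :=
      (hf.cd.differentiable one_ne_zero Z).hasFDerivAt
    have h2 : HasFDerivAt (fun Z : X d => f Z * Z i) _ Z := h1.mul (C5A2_hc i Z)
    rw [h2.fderiv]
    simp only [add_apply, smul_apply, smul_eq_mul, hf.ef, PiLp.proj_apply, C5A2_single]
    ring
  b := hf.b.coord i
  b' k := by
    have h1 : C5A2Bd (p + 1) (fun Z => f' k Z * Z i) := (hf.b' k).coord i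
    exact h1.add (hf.b.const_mul _)

private theorem C5A2K.krn (m : ℕ) {ε : ℝ} (hε : 0 < ε) :
    C5A2K (d := d) (m + 1) (fun Z => kr m ε Z)
      (fun k Z => -(m + 1) * (kr (m + 2) ε Z * Z k)) where
  cd := by
    unfold kr
    have h1 : ContDiff ℝ 1 fun Z : X d => ‖Z‖ ^ 2 + ε ^ 2 :=
      (contDiff_norm_sq ℝ).add contDiff_const
    have h2 := h1.sqrt (fun Z => by positivity)
    exact (h2.inv (fun Z => by positivity)).pow _
  ef Z k := by
    have hq : 0 < Real.sqrt (‖Z‖ ^ 2 + ε ^ 2) := by positivity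
    have h1 : HasDerivAt (fun s : ℝ => (Real.sqrt (s + ε ^ 2))⁻¹ ^ (m + 1))
        (-((m + 1) / 2) * (Real.sqrt (‖Z‖ ^ 2 + ε ^ 2))⁻¹ ^ (m + 3)) (‖Z‖ ^ 2) := by
      have h2 : HasDerivAt (fun s : ℝ => s + ε ^ 2) 1 (‖Z‖ ^ 2) :=
        (hasDerivAt_id _).add_const _
      have h3 : HasDerivAt (fun s : ℝ => (Real.sqrt (s + ε ^ 2))⁻¹ ^ (m + 1)) _ (‖Z‖ ^ 2) :=
        ((h2.sqrt (by positivity)).inv hq.ne').pow (m + 1)
      convert h3 using 1
      have h6 : ((fun y : ℝ => Real.sqrt (y + ε ^ 2))⁻¹ (‖Z‖ ^ 2)) =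
          (Real.sqrt (‖Z‖ ^ 2 + ε ^ 2))⁻¹ := rfl
      rw [h6, Nat.add_sub_cancel, pow_add _ m 3]
      push_cast
      field_simp
    have h4 := h1.comp_hasFDerivAt Z (hasStrictFDerivAt_norm_sq Z).hasFDerivAt
    have h5 : fderiv ℝ (fun Z : X d => kr m ε Z) Z = _ := h4.fderiv
    rw [h5]
    simp only [smul_apply, smul_eq_mul, innerSL_apply_apply, nsmul_eq_mul,
      EuclideanSpace.inner_single_right, kr]
    simp
    ring
  b := C5A2Bd.krn m hε
  b' k := by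
    have h1 : C5A2Bd (m + 1 + 1) (fun Z : X d => kr (m + 2) ε Z * Z k) :=
      (C5A2Bd.krn (m + 2) hε).coord k
    exact h1.const_mul _

private theorem C5A2K.cont' {p : ℕ} {f : X d → ℝ} {f' : Fin d → X d → ℝ} (h : C5A2K p f f')
    (k : Fin d) : Continuous (f' k) := by
  have h1 : Continuous fun Z => fderiv ℝ f Z (EuclideanSpace.single k 1) :=
    (h.cd.continuous_fderiv one_ne_zero).clm_apply continuous_const
  have h2 : (fun Z => fderiv ℝ f Z (EuclideanSpace.single k 1)) = f' k :=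
    funext fun Z => h.ef Z k
  rwa [h2] at h1

private theorem C5A2_inv_le (Z : X d) : (1 + ‖Z‖)⁻¹ ≤ 1 := by
  have := norm_nonneg Z
  exact inv_le_one_of_one_le₀ (by linarith)

private theorem C5A2Bd.bounded {p : ℕ} {f : X d → ℝ} (h : C5A2Bd p f) :
    ∃ C : ℝ, 0 ≤ C ∧ ∀ Z, |f Z| ≤ C := by
  obtain ⟨C, hC0, hC⟩ := h.nonneg
  refine ⟨C, hC0, fun Z => (hC Z).trans ?_⟩
  have h0 := C5A2_pos Z
  have h1 : (1 + ‖Z‖)⁻¹ ^ p ≤ 1 := pow_le_one₀ (by positivity) (C5A2_inv_le Z)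
  nlinarith

private theorem C5A2_op (L : X d →L[ℝ] ℝ) {C : ℝ} (hC : 0 ≤ C)
    (h : ∀ k, |L (EuclideanSpace.single k 1)| ≤ C) : ‖L‖ ≤ d * C := by
  refine ContinuousLinearMap.opNorm_le_bound _ (by positivity) fun v => ?_
  have h1 : v = ∑ k, v k • EuclideanSpace.single k (1 : ℝ) := by
    have h2 := (EuclideanSpace.basisFun (Fin d) ℝ).sum_repr v
    simp only [EuclideanSpace.basisFun_repr, EuclideanSpace.basisFun_apply] at h2
    exact h2.symm
  have h3 : L v = ∑ k, v k * L (EuclideanSpace.single k 1) := by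
    conv_lhs => rw [h1]
    rw [map_sum]
    refine Finset.sum_congr rfl fun k _ => ?_
    rw [map_smul, smul_eq_mul]
  rw [h3]
  have hv : ∀ k, |v k| ≤ ‖v‖ := by
    intro k
    have := PiLp.norm_apply_le v k
    simpa using this
  calc ‖∑ k, v k * L (EuclideanSpace.single k 1)‖
      ≤ ∑ k, ‖v k * L (EuclideanSpace.single k 1)‖ := norm_sum_le _ _
    _ ≤ ∑ _k : Fin d, ‖v‖ * C := by
        refine Finset.sum_le_sum fun k _ => ?_
        rw [norm_mul, Real.norm_eq_abs, Real.norm_eq_abs]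
        exact mul_le_mul (hv k) (h k) (abs_nonneg _) (norm_nonneg _)
    _ = d * C * ‖v‖ := by
        rw [Finset.sum_const, Finset.card_univ, Fintype.card_fin, nsmul_eq_mul]
        ring

section

variable {μ : Measure (X d)} [IsFiniteMeasure μ]

private theorem C5A2_integrable {f : X d → ℝ} (hc : Continuous f) {C : ℝ}
    (h : ∀ Z, |f Z| ≤ C) (Y : X d) : Integrable (fun x => f (Y - x)) μ :=
  Integrable.of_bound (hc.comp (continuous_const.sub continuous_id)).aestronglyMeasurable C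
    (Eventually.of_forall fun x => by
      rw [Real.norm_eq_abs]
      exact h _)

private theorem C5A2_cont {f : X d → ℝ} (hc : Continuous f) {C : ℝ} (h : ∀ Z, |f Z| ≤ C) :
    Continuous fun Y => ∫ x, f (Y - x) ∂μ := by
  refine continuous_of_dominated (bound := fun _ => C) (fun Y =>
    (hc.comp (continuous_const.sub continuous_id)).aestronglyMeasurable)
    (fun Y => Eventually.of_forall fun x => ?_) (integrable_const C)
    (Eventually.of_forall fun x => ?_)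
  · rw [Real.norm_eq_abs]
    exact h _
  · exact hc.comp (continuous_id.sub continuous_const)

private theorem C5A2_bd {A : ℝ} (hA : μ (closedBall 0 A)ᶜ = 0) {p : ℕ} {f : X d → ℝ}
    (h : C5A2Bd p f) : C5A2Bd p (fun Y => ∫ x, f (Y - x) ∂μ) := by
  obtain ⟨C, hC0, hC⟩ := h.nonneg
  refine ⟨C * (1 + |A|) ^ p * μ.real Set.univ, fun Y => ?_⟩
  have h0 := C5A2_pos Y
  have h1 : ∀ᵐ x ∂μ, ‖f (Y - x)‖ ≤ C * ((1 + |A|) * (1 + ‖Y‖)⁻¹) ^ p := by
    have h2 : ∀ᵐ x ∂μ, x ∈ closedBall (0 : X d) A := by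
      rw [ae_iff]
      exact hA
    filter_upwards [h2] with x hx
    rw [mem_closedBall_zero_iff] at hx
    rw [Real.norm_eq_abs]
    refine (hC _).trans (mul_le_mul_of_nonneg_left ?_ hC0)
    have h3 := C5A2_pos (Y - x)
    refine pow_le_pow_left₀ (by positivity) ?_ _
    rw [← div_eq_mul_inv, le_div_iff₀ h0, inv_mul_le_iff₀ h3]
    have h4 : ‖Y‖ ≤ ‖Y - x‖ + ‖x‖ := by
      have := norm_add_le (Y - x) x
      rwa [sub_add_cancel] at this
    have h5 : ‖x‖ ≤ |A| := hx.trans (le_abs_self A)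
    have h6 := abs_nonneg A
    have h7 := norm_nonneg (Y - x)
    nlinarith
  have h8 := norm_integral_le_of_norm_le_const h1
  rw [Real.norm_eq_abs] at h8
  refine h8.trans (le_of_eq ?_)
  rw [mul_pow]
  ring

private theorem C5A2_diff {p : ℕ} {f : X d → ℝ} {f' : Fin d → X d → ℝ} (h : C5A2K p f f') :
    Differentiable ℝ (fun Y => ∫ x, f (Y - x) ∂μ) ∧
      ∀ k Y, fderiv ℝ (fun Y => ∫ x, f (Y - x) ∂μ) Y (EuclideanSpace.single k 1) =
        ∫ x, f' k (Y - x) ∂μ := by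
  obtain ⟨C, hC0, hC⟩ := C5A2Bd.unif h.b'
  have hC' : ∀ k Z, |f' k Z| ≤ C := by
    intro k Z
    refine (hC k Z).trans ?_
    have h0 := C5A2_pos Z
    have h1 : (1 + ‖Z‖)⁻¹ ^ (p + 1) ≤ 1 := pow_le_one₀ (by positivity) (C5A2_inv_le Z)
    nlinarith
  obtain ⟨D, hD0, hD⟩ := h.b.bounded
  have hL : ∀ Z, ‖fderiv ℝ f Z‖ ≤ d * C := fun Z =>
    C5A2_op _ hC0 fun k => by
      rw [h.ef]
      exact hC' k Z
  have hcL : Continuous (fderiv ℝ f) := h.cd.continuous_fderiv one_ne_zero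
  have key : ∀ Y, HasFDerivAt (fun Y => ∫ x, f (Y - x) ∂μ) (∫ x, fderiv ℝ f (Y - x) ∂μ) Y := by
    intro Y
    refine hasFDerivAt_integral_of_dominated_of_fderiv_le (s := Set.univ)
      (bound := fun _ => d * C) (F' := fun Y x => fderiv ℝ f (Y - x)) Filter.univ_mem
      (Eventually.of_forall fun Y =>
        (h.cd.continuous.comp (continuous_const.sub continuous_id)).aestronglyMeasurable)
      (C5A2_integrable h.cd.continuous hD Y)
      (hcL.comp (continuous_const.sub continuous_id)).aestronglyMeasurable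
      (Eventually.of_forall fun x Y _ => hL _) (integrable_const _)
      (Eventually.of_forall fun x Y _ => ?_)
    have h1 : HasFDerivAt f (fderiv ℝ f (Y - x)) (Y - x) :=
      (h.cd.differentiable one_ne_zero _).hasFDerivAt
    have h2 : HasFDerivAt (fun Y : X d => Y - x) (ContinuousLinearMap.id ℝ (X d)) Y :=
      (hasFDerivAt_id Y).sub_const x
    have h3 := h1.comp Y h2
    rwa [ContinuousLinearMap.comp_id] at h3
  refine ⟨fun Y => (key Y).differentiableAt, fun k Y => ?_⟩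
  rw [(key Y).fderiv, ContinuousLinearMap.integral_apply]
  · simp only [h.ef]
  · exact Integrable.of_bound
      (hcL.comp (continuous_const.sub continuous_id)).aestronglyMeasurable (d * C)
      (Eventually.of_forall fun x => hL _)

end


/-- the kernel of `V` -/
private noncomputable def C5A2V (n : ℕ) (ε : ℝ) (k : Fin d) (Z : X d) : ℝ :=
  (-(n + 1) * 4) * (kr (n + 2) ε Z * Z k) +
    (-(n + 1) * ((n + 3) * ε ^ 2)) * (kr (n + 4) ε Z * Z k)

/-- the kernel of `H`, up to a factor -/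
private noncomputable def C5A2H (n : ℕ) (ε : ℝ) (k l : Fin d) (Z : X d) : ℝ :=
  (4 * kr (n + 2) ε Z + (n + 3) * ε ^ 2 * kr (n + 4) ε Z) * (if k = l then 1 else 0) -
    (n + 3) * (4 * kr (n + 4) ε Z + (n + 5) * ε ^ 2 * kr (n + 6) ε Z) * (Z k * Z l)

/-- the kernel of `U` -/
private noncomputable def C5A2U (n : ℕ) (ε : ℝ) (Z : X d) : ℝ :=
  (-(n + 1) * 8) * kr (n + 2) ε Z + (-(n + 1) * (4 * (n + 3) * ε ^ 2)) * kr (n + 4) ε Z +
    (-(n + 1) * ((n + 3) * (n + 5) * ε ^ 4)) * kr (n + 6) ε Z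

/-- the kernel of `G` -/
private noncomputable def C5A2G (n : ℕ) (ε : ℝ) (k : Fin d) (Z : X d) : ℝ :=
  ((n + 1) * (n + 3) * 8) * (kr (n + 4) ε Z * Z k) +
    ((n + 1) * (n + 3) * (4 * (n + 5) * ε ^ 2)) * (kr (n + 6) ε Z * Z k) +
    ((n + 1) * (n + 3) * ((n + 5) * (n + 7) * ε ^ 4)) * (kr (n + 8) ε Z * Z k)

/-- the derivative of the kernel `kr m * Z` -/
private noncomputable def C5A2D (m : ℕ) (ε : ℝ) (k l : Fin d) (Z : X d) : ℝ :=
  -(m + 1) * (kr (m + 2) ε Z * Z l) * Z k + (if k = l then 1 else 0) * kr m ε Z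

/-- the kernel of the derivative of `G` -/
private noncomputable def C5A2M (n : ℕ) (ε : ℝ) (k l : Fin d) (Z : X d) : ℝ :=
  ((n + 1) * (n + 3) * 8) * C5A2D (n + 4) ε k l Z +
    ((n + 1) * (n + 3) * (4 * (n + 5) * ε ^ 2)) * C5A2D (n + 6) ε k l Z +
    ((n + 1) * (n + 3) * ((n + 5) * (n + 7) * ε ^ 4)) * C5A2D (n + 8) ε k l Z

private theorem C5A2Bd.mono {p q : ℕ} (h : q ≤ p) {f : X d → ℝ} (hf : C5A2Bd p f) :
    C5A2Bd q f := by
  obtain ⟨C, hC0, hC⟩ := hf.nonneg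
  refine ⟨C, fun Z => (hC Z).trans (mul_le_mul_of_nonneg_left ?_ hC0)⟩
  have h0 := C5A2_pos Z
  exact pow_le_pow_of_le_one (by positivity) (C5A2_inv_le Z) h

private theorem C5A2K.mono {p q : ℕ} (h : q ≤ p) {f : X d → ℝ} {f' : Fin d → X d → ℝ}
    (hf : C5A2K p f f') : C5A2K q f f' where
  cd := hf.cd
  ef := hf.ef
  b := hf.b.mono h
  b' k := (hf.b' k).mono (by omega)

private theorem C5A2K_V (n : ℕ) {ε : ℝ} (hε : 0 < ε) (k : Fin d) :
    C5A2K (n + 2) (C5A2V n ε k) (fun l Z => -(n + 1) * C5A2H n ε k l Z) := by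
  have h1 : C5A2K (d := d) (n + 2) (fun Z => kr (n + 2) ε Z * Z k) _ :=
    (C5A2K.krn (n + 2) hε).coord k
  have h2 : C5A2K (d := d) (n + 2) (fun Z => kr (n + 4) ε Z * Z k) _ :=
    ((C5A2K.krn (n + 4) hε).coord k : C5A2K (n + 4) _ _).mono (by omega)
  refine ((h1.const_mul (-(n + 1) * 4)).add
    (h2.const_mul (-(n + 1) * ((n + 3) * ε ^ 2)))).congr fun l Z => ?_
  unfold C5A2H
  push_cast
  ring

private theorem C5A2K_D (m : ℕ) {ε : ℝ} (hε : 0 < ε) (k : Fin d) :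
    C5A2K m (fun Z => kr m ε Z * Z k) (C5A2D m ε k) :=
  ((C5A2K.krn m hε).coord k).congr fun l Z => by
    unfold C5A2D
    ring

private theorem C5A2K_U (n : ℕ) {ε : ℝ} (hε : 0 < ε) :
    C5A2K (d := d) (n + 3) (C5A2U n ε) (C5A2G n ε) := by
  have h1 : C5A2K (d := d) (n + 3) (fun Z => kr (n + 2) ε Z) _ := C5A2K.krn (n + 2) hε
  have h2 : C5A2K (d := d) (n + 3) (fun Z => kr (n + 4) ε Z) _ :=
    (C5A2K.krn (n + 4) hε).mono (by omega)
  have h3 : C5A2K (d := d) (n + 3) (fun Z => kr (n + 6) ε Z) _ :=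
    (C5A2K.krn (n + 6) hε).mono (by omega)
  refine (((h1.const_mul (-(n + 1) * 8)).add
    (h2.const_mul (-(n + 1) * (4 * (n + 3) * ε ^ 2)))).add
    (h3.const_mul (-(n + 1) * ((n + 3) * (n + 5) * ε ^ 4)))).congr fun l Z => ?_
  unfold C5A2G
  push_cast
  ring

private theorem C5A2K_G (n : ℕ) {ε : ℝ} (hε : 0 < ε) (k : Fin d) :
    C5A2K (n + 4) (C5A2G n ε k) (C5A2M n ε k) :=
  (((C5A2K_D (n + 4) hε k).const_mul ((n + 1) * (n + 3) * 8)).add
    (((C5A2K_D (n + 6) hε k).mono (by omega)).const_mul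
      ((n + 1) * (n + 3) * (4 * (n + 5) * ε ^ 2)))).add
    (((C5A2K_D (n + 8) hε k).mono (by omega)).const_mul
      ((n + 1) * (n + 3) * ((n + 5) * (n + 7) * ε ^ 4)))

private theorem C5A2_krs (m : ℕ) {ε : ℝ} (hε : 0 < ε) (Z : X d) :
    kr m ε Z = kr (m + 2) ε Z * (‖Z‖ ^ 2 + ε ^ 2) := by
  have hq : 0 < Real.sqrt (‖Z‖ ^ 2 + ε ^ 2) := by positivity
  have h1 : ‖Z‖ ^ 2 + ε ^ 2 = Real.sqrt (‖Z‖ ^ 2 + ε ^ 2) ^ 2 :=
    (Real.sq_sqrt (by positivity)).symm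
  unfold kr
  conv_rhs => rw [h1]
  rw [Real.sqrt_sq hq.le, show m + 2 + 1 = m + 1 + 2 by ring, pow_add _ (m + 1) 2]
  field_simp

private theorem C5A2_tr {n : ℕ} (m : ℕ) {ε : ℝ} (hε : 0 < ε) (Z : X (n + 5)) :
    ∑ k, C5A2D m ε k k Z =
      ((n : ℝ) + 4 - m) * kr m ε Z + (m + 1) * ε ^ 2 * kr (m + 2) ε Z := by
  have h1 : ∑ k, C5A2D m ε k k Z =
      ∑ k, (kr m ε Z + -(m + 1) * kr (m + 2) ε Z * Z k ^ 2) := by
    refine Finset.sum_congr rfl fun i _ => ?_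
    unfold C5A2D
    rw [if_pos rfl]
    ring
  rw [h1, Finset.sum_add_distrib, ← Finset.mul_sum, ← EuclideanSpace.real_norm_sq_eq,
    Finset.sum_const, Finset.card_univ, Fintype.card_fin, nsmul_eq_mul, C5A2_krs m hε]
  push_cast
  ring

private theorem C5A2_eU {n : ℕ} {ε : ℝ} (hε : 0 < ε) (Z : X (n + 5)) :
    C5A2U n ε Z = ∑ k, -(n + 1) * C5A2H n ε k k Z := by
  have h1 : ∑ k, -(n + 1) * C5A2H n ε k k Z =
      ∑ k, (-(n + 1) * (4 * kr (n + 2) ε Z + (n + 3) * ε ^ 2 * kr (n + 4) ε Z) +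
        (n + 1) * (n + 3) * (4 * kr (n + 4) ε Z + (n + 5) * ε ^ 2 * kr (n + 6) ε Z) *
          Z k ^ 2) := by
    refine Finset.sum_congr rfl fun i _ => ?_
    unfold C5A2H
    rw [if_pos rfl]
    ring
  have e1 := C5A2_krs (n + 2) hε Z
  have e2 := C5A2_krs (n + 4) hε Z
  rw [show n + 2 + 2 = n + 4 by ring] at e1
  rw [show n + 4 + 2 = n + 6 by ring] at e2
  rw [h1, Finset.sum_add_distrib, Finset.sum_const, Finset.card_univ, Fintype.card_fin,
    nsmul_eq_mul, ← Finset.mul_sum, ← EuclideanSpace.real_norm_sq_eq]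
  unfold C5A2U
  rw [e1, e2]
  push_cast
  ring

private theorem C5A2_eQ {n : ℕ} {ε : ℝ} (hε : 0 < ε) (Z : X (n + 5)) :
    ∑ k, C5A2M n ε k k Z =
      ((n + 1) * (n + 3) * (n + 5) * (n + 7) * (n + 9)) * (ε ^ 6 * kr (n + 10) ε Z) := by
  unfold C5A2M
  rw [Finset.sum_add_distrib, Finset.sum_add_distrib, ← Finset.mul_sum, ← Finset.mul_sum,
    ← Finset.mul_sum, C5A2_tr (n + 4) hε, C5A2_tr (n + 6) hε, C5A2_tr (n + 8) hε]
  push_cast
  ring

private theorem C5A2_eW {n : ℕ} {ε : ℝ} (hε : 0 < ε) (Z : X (n + 5)) :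
    ∑ k, C5A2D (n + 2) ε k k Z =
      2 * kr (n + 2) ε Z + (n + 3) * ε ^ 2 * kr (n + 4) ε Z := by
  rw [C5A2_tr (n + 2) hε]
  push_cast
  ring

theorem exists_HesB {n : ℕ} (hn : 1 ≤ n) (hd : d = n + 5) {ε : ℝ} (hε : 0 < ε)
    (μ : Measure (X d)) [IsFiniteMeasure μ] {A : ℝ} (hA : μ (closedBall 0 A)ᶜ = 0) :
    ∃ (U : X d → ℝ) (G : Fin d → X d → ℝ),
      HesB n (H5 n ε μ) U G (Q5 n ε μ) (W5 n ε μ) (DW5 n ε μ) := by
  subst hd
  have kU := C5A2K_U (d := n + 5) n hε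
  have kG := fun k => C5A2K_G (d := n + 5) n hε k
  have kW := fun k => C5A2K_D (d := n + 5) (n + 2) hε k
  have kV := fun k => C5A2K_V (d := n + 5) n hε k
  have bM : ∀ k l, C5A2Bd (n + 5) (C5A2M (d := n + 5) n ε k l) := fun k l => (kG k).b' l
  have cM : ∀ k l, Continuous (C5A2M (d := n + 5) n ε k l) := fun k l => (kG k).cont' l
  have bD : ∀ k l, C5A2Bd (n + 3) (C5A2D (d := n + 5) (n + 2) ε k l) := fun k l => (kW k).b' l
  have cD : ∀ k l, Continuous (C5A2D (d := n + 5) (n + 2) ε k l) := fun k l => (kW k).cont' l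
  have iM : ∀ k l Y, Integrable (fun x => C5A2M n ε k l (Y - x)) μ := fun k l Y => by
    obtain ⟨C, hC0, hC⟩ := (bM k l).bounded
    exact C5A2_integrable (cM k l) hC Y
  have iD : ∀ k l Y, Integrable (fun x => C5A2D (n + 2) ε k l (Y - x)) μ := fun k l Y => by
    obtain ⟨C, hC0, hC⟩ := (bD k l).bounded
    exact C5A2_integrable (cD k l) hC Y
  have iH : ∀ k l Y, Integrable (fun x => -(n + 1) * C5A2H n ε k l (Y - x)) μ :=
    fun k l Y => by
    obtain ⟨C, hC0, hC⟩ := ((kV k).b' l).bounded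
    exact C5A2_integrable ((kV k).cont' l) hC Y
  have kQ : C5A2K (d := n + 5) (n + 11) (fun Z => ε ^ 6 * kr (n + 10) ε Z) _ :=
    (C5A2K.krn (n + 10) hε).const_mul (ε ^ 6)
  have kE : C5A2K (d := n + 5) (n + 3)
      (fun Z => 2 * kr (n + 2) ε Z + (n + 3) * ε ^ 2 * kr (n + 4) ε Z) _ :=
    ((C5A2K.krn (n + 2) hε).const_mul 2).add
      (((C5A2K.krn (n + 4) hε).mono (by omega)).const_mul ((n + 3) * ε ^ 2))
  refine ⟨fun Y => ∫ x, C5A2U n ε (Y - x) ∂μ, fun k Y => ∫ x, C5A2G n ε k (Y - x) ∂μ, ?_⟩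
  refine
    { dU := (C5A2_diff kU).1
      dG := fun k => (C5A2_diff (kG k)).1
      dW := fun k => (C5A2_diff (kW k)).1
      cQ := ?_
      cD := ?_
      eU := fun x => ?_
      eG := fun k x => (C5A2_diff kU).2 k x
      eQ := fun x => ?_
      eW := fun x => ?_
      bd := ?_ }
  · obtain ⟨C, hC0, hC⟩ := kQ.b.bounded
    exact continuous_const.mul (C5A2_cont kQ.cd.continuous hC)
  · obtain ⟨C, hC0, hC⟩ := kE.b.bounded
    exact C5A2_cont kE.cd.continuous hC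
  · have h1 : ∀ k, H5 n ε μ k k x = ∫ y, -(n + 1) * C5A2H n ε k k (x - y) ∂μ := fun k =>
      (integral_const_mul _ _).symm
    rw [Finset.sum_congr rfl fun k _ => h1 k, ← integral_finsetSum _ fun k _ => iH k k x]
    exact integral_congr_ae (Eventually.of_forall fun y => C5A2_eU hε (x - y))
  · have h1 : Q5 n ε μ x = ∫ y, ((n + 1) * (n + 3) * (n + 5) * (n + 7) * (n + 9)) *
        (ε ^ 6 * kr (n + 10) ε (x - y)) ∂μ := (integral_const_mul _ _).symm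
    rw [Finset.sum_congr rfl fun k _ => (C5A2_diff (μ := μ) (kG k)).2 k x,
      ← integral_finsetSum _ fun k _ => iM k k x, h1]
    exact integral_congr_ae (Eventually.of_forall fun y => C5A2_eQ hε (x - y))
  · have h1 : ∀ k, fderiv ℝ (W5 n ε μ k) x (EuclideanSpace.single k 1) =
        ∫ y, C5A2D (n + 2) ε k k (x - y) ∂μ := fun k => (C5A2_diff (μ := μ) (kW k)).2 k x
    rw [Finset.sum_congr rfl fun k _ => h1 k, ← integral_finsetSum _ fun k _ => iD k k x]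
    exact integral_congr_ae (Eventually.of_forall fun y => C5A2_eW hε (x - y))
  · obtain ⟨C1, q1, h1⟩ := (C5A2_bd hA kU.b).nonneg
    obtain ⟨C2, q2, h2⟩ := C5A2Bd.unif (fun k => C5A2_bd hA (kG k).b)
    obtain ⟨C3, q3, h3⟩ := C5A2Bd.unif (ι := Fin (n + 5) × Fin (n + 5))
      (fun i => C5A2_bd hA (bM i.1 i.2))
    obtain ⟨C4, q4, h4⟩ := C5A2Bd.unif (fun k => C5A2_bd hA (kW k).b)
    obtain ⟨C5, q5, h5⟩ := C5A2Bd.unif (ι := Fin (n + 5) × Fin (n + 5))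
      (fun i => C5A2_bd hA (bD i.1 i.2))
    refine ⟨C1 + C2 + C3 + C4 + C5, fun x => ?_⟩
    have h0 := C5A2_pos x
    refine ⟨(h1 x).trans ?_, fun k => (h2 k x).trans ?_, fun k l => ?_,
      fun k => (h4 k x).trans ?_, fun k l => ?_⟩
    · exact mul_le_mul_of_nonneg_right (by linarith) (by positivity)
    · exact mul_le_mul_of_nonneg_right (by linarith) (by positivity)
    · rw [(C5A2_diff (kG k)).2 l x]
      refine (h3 (k, l) x).trans ?_
      exact mul_le_mul_of_nonneg_right (by linarith) (by positivity)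
    · exact mul_le_mul_of_nonneg_right (by linarith) (by positivity)
    · have e : fderiv ℝ (W5 n ε μ k) x (EuclideanSpace.single l 1) =
        ∫ y, C5A2D (n + 2) ε k l (x - y) ∂μ := (C5A2_diff (μ := μ) (kW k)).2 l x
      rw [e]
      refine (h5 (k, l) x).trans ?_
      exact mul_le_mul_of_nonneg_right (by linarith) (by positivity)

end Pool.Agent.H1.LD
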