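import Pool.Agent.H1.C5.D0
import Pool.Agent.H1.LD.EnD

/-!
Row B (template LD/CoB.lean; copy, ε^4 kr(n+6) in R^(n+3) becomes ε^6 kr(n+10) in R^(n+5): ε^(n+5) ε^6 kr(n+10) ε (ε w) = kr(n+10) 1 w).
-/

set_option autoImplicit false

open MeasureTheory Filter Topology Metric Set
open scoped RealInnerProductSpace ENNReal

namespace Pool.Agent.H1.LD

open Pool.Agent.RZ

variable {d : ℕ}

private theorem C5B_kr (n : ℕ) {ρ : ℝ} (hρ : 0 < ρ) {a : X d} (ha : 2 * ρ ≤ ‖a‖) :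
    ‖a‖⁻¹ ^ (n + 1) ≤ 2 ^ (n + 1) * kr n ρ a := by
  have ha0 : 0 < ‖a‖ := by linarith
  unfold kr
  rw [← mul_pow]
  refine pow_le_pow_left₀ (by positivity) ?_ _
  have h1 : Real.sqrt (‖a‖ ^ 2 + ρ ^ 2) ≤ 2 * ‖a‖ := by
    rw [Real.sqrt_le_left (by positivity)]
    nlinarith
  have h2 : 0 < Real.sqrt (‖a‖ ^ 2 + ρ ^ 2) := Real.sqrt_pos.2 (by positivity)
  rw [← div_eq_mul_inv, inv_eq_one_div, div_le_div_iff₀ ha0 h2]
  linarith

private theorem C5B_pw (n : ℕ) {ε : ℝ} (hε : 0 < ε) (e w a : X d) (he : ‖e‖ ≤ 1) {ρ : ℝ}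
    (hρ : ρ = ε * (1 + ‖w‖)) :
    |⟪e, a + ε • w⟫ * kr n ε (a + ε • w) - ⟪e, a⟫ * kr n ρ a| ≤
      3 * ρ * kr n ε (a + ε • w) +
        ((((n : ℝ) + 2) * 2 ^ (n + 3) + (n + 1)) * 2 ^ (n + 1)) * ρ * kr n ρ a := by
  have hw : 0 ≤ ‖w‖ := norm_nonneg w
  have hρε : ε ≤ ρ := by
    rw [hρ]
    nlinarith
  have hρ0 : 0 < ρ := by linarith
  have hwρ : ‖ε • w‖ ≤ ρ := by
    rw [norm_smul, Real.norm_of_nonneg hε.le, hρ]
    nlinarith
  have hC : (2 : ℝ) ≤ (((n : ℝ) + 2) * 2 ^ (n + 3) + (n + 1)) * 2 ^ (n + 1) := by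
    have h1 : (1 : ℝ) ≤ 2 ^ (n + 3) := one_le_pow₀ (by norm_num)
    have h2 : (1 : ℝ) ≤ 2 ^ (n + 1) := one_le_pow₀ (by norm_num)
    have hn : (0 : ℝ) ≤ n := Nat.cast_nonneg n
    have h3 : (2 : ℝ) ≤ ((n : ℝ) + 2) * 2 ^ (n + 3) + (n + 1) := by nlinarith
    nlinarith
  have hin : ∀ v : X d, |⟪e, v⟫| ≤ ‖v‖ := fun v =>
    (abs_real_inner_le_norm e v).trans (mul_le_of_le_one_left (norm_nonneg _) he)
  have k1 := kr_nonneg n ε (a + ε • w)
  have k2 := kr_nonneg n ρ a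
  rcases lt_or_ge ‖a‖ (2 * ρ) with ha | ha
  · have h1 : |⟪e, a + ε • w⟫ * kr n ε (a + ε • w)| ≤ 3 * ρ * kr n ε (a + ε • w) := by
      rw [abs_mul, abs_of_nonneg k1]
      refine mul_le_mul_of_nonneg_right ?_ k1
      have := norm_add_le a (ε • w)
      linarith [hin (a + ε • w)]
    have h2 : |⟪e, a⟫ * kr n ρ a| ≤ 2 * ρ * kr n ρ a := by
      rw [abs_mul, abs_of_nonneg k2]
      refine mul_le_mul_of_nonneg_right ?_ k2
      linarith [hin a]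
    have h3 : 2 * ρ * kr n ρ a ≤
        ((((n : ℝ) + 2) * 2 ^ (n + 3) + (n + 1)) * 2 ^ (n + 1)) * ρ * kr n ρ a := by
      refine mul_le_mul_of_nonneg_right ?_ k2
      exact mul_le_mul_of_nonneg_right hC hρ0.le
    exact (abs_sub _ _).trans (by linarith)
  · have ha0 : 0 < ‖a‖ := by linarith
    have haz : a ≠ 0 := norm_pos_iff.1 ha0
    have e1 : a - (a + ε • w) = -(ε • w) := by abel
    have e2 : ‖a - (a + ε • w)‖ = ‖ε • w‖ := by rw [e1, norm_neg]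
    have t1 := Kr_sub_le n ε (z := a) (z' := a + ε • w) e he haz (by rw [e2]; linarith)
    rw [e2] at t1
    have hP : 0 ≤ ‖a‖⁻¹ ^ (n + 1) := by positivity
    have t1' : |⟪e, a⟫ * kr n ε a - ⟪e, a + ε • w⟫ * kr n ε (a + ε • w)| ≤
        (((n : ℝ) + 2) * 2 ^ (n + 3)) * (ρ * ‖a‖⁻¹ ^ (n + 1)) := by
      refine t1.trans ?_
      rw [mul_assoc]
      exact mul_le_mul_of_nonneg_left (mul_le_mul_of_nonneg_right hwρ hP) (by positivity)
    have t2 := kr_eps_diff n hε hρε haz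
    have t2' := kr_eps_diff_nonneg n hε hρε a
    have t3 : |⟪e, a⟫ * kr n ε a - ⟪e, a⟫ * kr n ρ a| ≤ (n + 1) * (ρ * ‖a‖⁻¹ ^ (n + 1)) := by
      rw [← mul_sub, abs_mul, abs_of_nonneg t2']
      have h1 : |⟪e, a⟫| * (kr n ε a - kr n ρ a) ≤ ‖a‖ * ((n + 1) * ρ ^ 2 * ‖a‖⁻¹ ^ (n + 3)) :=
        mul_le_mul (hin a) t2 t2' (norm_nonneg _)
      have h2 : ‖a‖ * ((n + 1) * ρ ^ 2 * ‖a‖⁻¹ ^ (n + 3)) =
          (n + 1) * (ρ * ‖a‖⁻¹ ^ (n + 1)) * (ρ * ‖a‖⁻¹) := by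
        have : ‖a‖ * ‖a‖⁻¹ = 1 := mul_inv_cancel₀ ha0.ne'
        calc ‖a‖ * (((n : ℝ) + 1) * ρ ^ 2 * ‖a‖⁻¹ ^ (n + 3))
            = (‖a‖ * ‖a‖⁻¹) * ((n + 1) * (ρ * ‖a‖⁻¹ ^ (n + 1)) * (ρ * ‖a‖⁻¹)) := by ring
          _ = _ := by rw [this, one_mul]
      have h3 : ρ * ‖a‖⁻¹ ≤ 1 := by
        rw [← div_eq_mul_inv, div_le_one ha0]
        linarith
      rw [h2] at h1
      refine h1.trans ?_
      exact mul_le_of_le_one_right (by positivity) h3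
    have t4 := C5B_kr n hρ0 ha
    have t5 : |⟪e, a + ε • w⟫ * kr n ε (a + ε • w) - ⟪e, a⟫ * kr n ρ a| ≤
        (((n : ℝ) + 2) * 2 ^ (n + 3) + (n + 1)) * (ρ * ‖a‖⁻¹ ^ (n + 1)) := by
      have e3 : ⟪e, a + ε • w⟫ * kr n ε (a + ε • w) - ⟪e, a⟫ * kr n ρ a =
          (⟪e, a⟫ * kr n ε a - ⟪e, a⟫ * kr n ρ a) -
            (⟪e, a⟫ * kr n ε a - ⟪e, a + ε • w⟫ * kr n ε (a + ε • w)) := by ring
      rw [e3]
      refine (abs_sub _ _).trans ?_
      rw [add_mul]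
      linarith
    have t6 : (((n : ℝ) + 2) * 2 ^ (n + 3) + (n + 1)) * (ρ * ‖a‖⁻¹ ^ (n + 1)) ≤
        (((n : ℝ) + 2) * 2 ^ (n + 3) + (n + 1)) * (ρ * (2 ^ (n + 1) * kr n ρ a)) :=
      mul_le_mul_of_nonneg_left (mul_le_mul_of_nonneg_left t4 hρ0.le) (by positivity)
    have t7 : 0 ≤ 3 * ρ * kr n ε (a + ε • w) := by positivity
    have t8 : (((n : ℝ) + 2) * 2 ^ (n + 3) + (n + 1)) * (ρ * (2 ^ (n + 1) * kr n ρ a)) =
      ((((n : ℝ) + 2) * 2 ^ (n + 3) + (n + 1)) * 2 ^ (n + 1)) * ρ * kr n ρ a := by ring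
    linarith

private theorem C5B_int (n : ℕ) {ε : ℝ} (hε : 0 < ε) (μ : Measure (X d)) [IsFiniteMeasure μ]
    (Y : X d) : Integrable (fun x => kr n ε (Y - x) • (Y - x)) μ := by
  have hc : Continuous fun x : X d => kr n ε (Y - x) • (Y - x) :=
    ((kr_continuous n hε).comp (continuous_const.sub continuous_id)).smul
      (continuous_const.sub continuous_id)
  refine Integrable.of_bound hc.aestronglyMeasurable (ε⁻¹ ^ n) (Eventually.of_forall fun x => ?_)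
  rw [norm_smul, Real.norm_of_nonneg (kr_nonneg _ _ _), mul_comm]
  exact norm_mul_kr_le_eps n hε _

private theorem C5B_inner (n : ℕ) {ε : ℝ} (hε : 0 < ε) (μ : Measure (X d)) [IsFiniteMeasure μ]
    (e Y : X d) : ⟪e, Fe n ε μ Y⟫ = ∫ x, ⟪e, Y - x⟫ * kr n ε (Y - x) ∂μ := by
  unfold Fe
  rw [← integral_inner (C5B_int n hε μ Y)]
  refine integral_congr_ae (Eventually.of_forall fun x => ?_)
  simp only [inner_smul_right]
  ring

private theorem C5B_int' (n : ℕ) {ε : ℝ} (hε : 0 < ε) (μ : Measure (X d)) [IsFiniteMeasure μ]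
    (e Y : X d) : Integrable (fun x => ⟪e, Y - x⟫ * kr n ε (Y - x)) μ := by
  refine ((C5B_int n hε μ Y).const_inner e).congr (Eventually.of_forall fun x => ?_)
  simp only [inner_smul_right]
  ring

private theorem C5B_diff (d n : ℕ) (hn : 1 ≤ n) {C₀ : ℝ} (hC₀ : 0 ≤ C₀) :
    ∃ C : ℝ, 0 ≤ C ∧ ∀ (μ : Measure (X d)) [IsFiniteMeasure μ], Gr n C₀ μ → ∀ ε : ℝ, 0 < ε →
      ∀ w y : X d, ‖Fe n ε μ (y + ε • w) - Fe n (ε * (1 + ‖w‖)) μ y‖ ≤ C * (1 + ‖w‖) := by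
  obtain ⟨A, hA, hk⟩ := Gr.kr_integrable (d := d) n hn
  set C₂ : ℝ := ((((n : ℝ) + 2) * 2 ^ (n + 3) + (n + 1)) * 2 ^ (n + 1)) with hC₂
  have hC₂0 : 0 ≤ C₂ := by positivity
  refine ⟨A * C₀ * (3 + C₂), by positivity, fun μ _ hg ε hε w y => ?_⟩
  have hw : 0 ≤ ‖w‖ := norm_nonneg w
  have hρ0 : 0 < ε * (1 + ‖w‖) := by positivity
  have key : ∀ e : X d, ‖e‖ ≤ 1 →
      |⟪e, Fe n ε μ (y + ε • w) - Fe n (ε * (1 + ‖w‖)) μ y⟫| ≤ A * C₀ * (3 + C₂) * (1 + ‖w‖) := by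
    intro e he
    rw [inner_sub_right, C5B_inner n hε, C5B_inner n hρ0,
      ← integral_sub (C5B_int' n hε μ e _) (C5B_int' n hρ0 μ e _)]
    obtain ⟨i1, b1⟩ := hk C₀ hC₀ μ hg (y + ε • w) ε hε
    obtain ⟨i2, b2⟩ := hk C₀ hC₀ μ hg y (ε * (1 + ‖w‖)) hρ0
    have i3 := (i1.const_mul (3 * (ε * (1 + ‖w‖)))).add (i2.const_mul (C₂ * (ε * (1 + ‖w‖))))
    rw [← Real.norm_eq_abs]
    refine (norm_integral_le_of_norm_le i3 (Eventually.of_forall fun x => ?_)).trans ?_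
    · have h1 := C5B_pw n hε e w (y - x) he rfl
      have e1 : y - x + ε • w = y + ε • w - x := by abel
      rw [e1] at h1
      rw [Real.norm_eq_abs]
      simp only [Pi.add_apply]
      rw [kr_comm n ε x, kr_comm n _ x]
      exact h1
    · rw [integral_add' (i1.const_mul _) (i2.const_mul _), integral_const_mul, integral_const_mul]
      have h1 : 3 * (ε * (1 + ‖w‖)) * ∫ x, kr n ε (x - (y + ε • w)) ∂μ ≤
          3 * (ε * (1 + ‖w‖)) * (A * C₀ * ε⁻¹) := mul_le_mul_of_nonneg_left b1 (by positivity)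
      have h2 : C₂ * (ε * (1 + ‖w‖)) * ∫ x, kr n (ε * (1 + ‖w‖)) (x - y) ∂μ ≤
          C₂ * (ε * (1 + ‖w‖)) * (A * C₀ * (ε * (1 + ‖w‖))⁻¹) :=
        mul_le_mul_of_nonneg_left b2 (by positivity)
      have h3 : 3 * (ε * (1 + ‖w‖)) * (A * C₀ * ε⁻¹) = 3 * (1 + ‖w‖) * (A * C₀) := by
        field_simp
      have h4 : C₂ * (ε * (1 + ‖w‖)) * (A * C₀ * (ε * (1 + ‖w‖))⁻¹) = C₂ * (A * C₀) := by
        field_simp
      rw [h3] at h1
      rw [h4] at h2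
      refine (add_le_add h1 h2).trans ?_
      have h5 : 0 ≤ C₂ * (A * C₀) * ‖w‖ := by positivity
      nlinarith
  by_cases hv : Fe n ε μ (y + ε • w) - Fe n (ε * (1 + ‖w‖)) μ y = 0
  · rw [hv, norm_zero]
    positivity
  · have hv0 : 0 < ‖Fe n ε μ (y + ε • w) - Fe n (ε * (1 + ‖w‖)) μ y‖ := norm_pos_iff.2 hv
    have h1 := key (‖Fe n ε μ (y + ε • w) - Fe n (ε * (1 + ‖w‖)) μ y‖⁻¹ •
      (Fe n ε μ (y + ε • w) - Fe n (ε * (1 + ‖w‖)) μ y)) (by
        rw [norm_smul, norm_inv, norm_norm, inv_mul_cancel₀ hv0.ne'])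
    rw [real_inner_smul_left, real_inner_self_eq_norm_sq, pow_two, ← mul_assoc,
      inv_mul_cancel₀ hv0.ne', one_mul, abs_of_pos hv0] at h1
    exact h1

private theorem C5B_meas (n : ℕ) {ε : ℝ} (hε : 0 < ε) (μ : Measure (X d)) [IsFiniteMeasure μ] :
    Measurable (Fe n ε μ) := by
  have h : StronglyMeasurable (fun Y : X d => ∫ x, kr n ε (Y - x) • (Y - x) ∂μ) := by
    refine StronglyMeasurable.integral_prod_right (f := fun Y x => kr n ε (Y - x) • (Y - x)) ?_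
    have hc : Continuous (Function.uncurry fun (Y x : X d) => kr n ε (Y - x) • (Y - x)) := by
      have h1 : Continuous fun p : X d × X d => p.1 - p.2 := continuous_fst.sub continuous_snd
      exact ((kr_continuous n hε).comp h1).smul h1
    exact hc.stronglyMeasurable
  exact h.measurable

private theorem C5B_bdd (n : ℕ) {ε : ℝ} (hε : 0 < ε) (μ : Measure (X d)) [IsFiniteMeasure μ]
    (Y : X d) : ‖Fe n ε μ Y‖ ≤ ε⁻¹ ^ n * μ.real univ := by
  unfold Fe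
  refine norm_integral_le_of_norm_le_const (Eventually.of_forall fun x => ?_)
  rw [norm_smul, Real.norm_of_nonneg (kr_nonneg _ _ _), mul_comm]
  exact norm_mul_kr_le_eps n hε _

/-- the energy bound for the vector -/
private theorem C5B_energy {n : ℕ} {μ : Measure (X d)} [IsFiniteMeasure μ] {B : ℝ}
    (hB : ∀ ε : ℝ, 0 < ε → ∀ e : X d, ‖e‖ ≤ 1 →
      ∫ x, (∫ y, ⟪e, x - y⟫ * kr n ε (x - y) ∂μ) ^ 2 ∂μ ≤ B) {ε : ℝ} (hε : 0 < ε) :
    Integrable (fun x => ‖Fe n ε μ x‖ ^ 2) μ ∧ ∫ x, ‖Fe n ε μ x‖ ^ 2 ∂μ ≤ d * B := by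
  have hm := C5B_meas n hε μ
  have h1 : ∀ x, ‖Fe n ε μ x‖ ^ 2 = ∑ i : Fin d, ⟪(EuclideanSpace.single i 1 : X d), Fe n ε μ x⟫ ^ 2 := by
    intro x
    rw [EuclideanSpace.norm_sq_eq]
    refine Finset.sum_congr rfl fun i _ => ?_
    rw [EuclideanSpace.inner_single_left, Real.norm_eq_abs, sq_abs]
    simp
  have h2 : ∀ i : Fin d, Integrable (fun x => ⟪(EuclideanSpace.single i 1 : X d), Fe n ε μ x⟫ ^ 2) μ := by
    intro i
    refine Integrable.of_bound ((hm.const_inner).pow_const 2).aestronglyMeasurable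
      ((ε⁻¹ ^ n * μ.real univ) ^ 2) (Eventually.of_forall fun x => ?_)
    rw [norm_pow, Real.norm_eq_abs]
    refine pow_le_pow_left₀ (abs_nonneg _) ?_ 2
    refine (abs_real_inner_le_norm _ _).trans ?_
    rw [EuclideanSpace.norm_single, norm_one, one_mul]
    exact C5B_bdd n hε μ x
  constructor
  · simp_rw [h1]
    exact integrable_finsetSum _ fun i _ => h2 i
  · simp_rw [h1]
    rw [integral_finsetSum _ fun i _ => h2 i]
    calc ∑ i : Fin d, ∫ x, ⟪(EuclideanSpace.single i 1 : X d), Fe n ε μ x⟫ ^ 2 ∂μ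
        ≤ ∑ _i : Fin d, B := by
          refine Finset.sum_le_sum fun i _ => ?_
          have h3 := hB ε hε (EuclideanSpace.single i 1) (by
            rw [EuclideanSpace.norm_single, norm_one])
          simp_rw [C5B_inner n hε]
          exact h3
      _ = d * B := by
          rw [Finset.sum_const, Finset.card_univ, Fintype.card_fin, nsmul_eq_mul]

/-- substitution -/
private theorem C5B_subst {ε : ℝ} (hε : 0 < ε) (x : X d) {g : X d → ℝ≥0∞} (hg : Measurable g) :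
    ∫⁻ Y, g Y = ENNReal.ofReal (ε ^ d) * ∫⁻ w, g (x + ε • w) := by
  have h1 : ∫⁻ Y, g Y = ∫⁻ Y, g (x + Y) := (lintegral_add_left_eq_self g x).symm
  have h2 : ∫⁻ w, g (x + ε • w) = ∫⁻ Y, g (x + Y) ∂(Measure.map (fun w : X d => ε • w) volume) := by
    have hm : Measurable fun Y : X d => g (x + Y) := hg.comp (measurable_const_add x)
    have hm' : Measurable fun w : X d => ε • w := measurable_const_smul ε
    rw [lintegral_map hm hm']
  rw [h1, h2, Measure.map_addHaar_smul volume hε.ne', lintegral_smul_measure, smul_eq_mul,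
    ← mul_assoc, ← ENNReal.ofReal_mul (by positivity)]
  have h3 : ε ^ d * |(ε ^ (Module.finrank ℝ (X d)))⁻¹| = 1 := by
    rw [finrank_euclideanSpace_fin, abs_of_pos (by positivity)]
    exact mul_inv_cancel₀ (by positivity)
  rw [h3, ENNReal.ofReal_one, one_mul]

private theorem C5B_weight {n : ℕ} (hd : d = n + 5) (a b : ℝ) :
    Integrable (fun w : X d => kr (n + 10) 1 w * (a + b * (1 + ‖w‖) ^ 2)) := by
  have h0 : Integrable (fun w : X d => (1 + ‖w‖) ^ (-((n : ℝ) + 9))) := by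
    refine integrable_one_add_norm ?_
    rw [finrank_euclideanSpace_fin, hd]
    push_cast
    linarith
  have h1 : ∀ w : X d, kr (n + 10) 1 w * (1 + ‖w‖) ^ 2 ≤ 2 ^ (n + 11) * (1 + ‖w‖) ^ (-((n : ℝ) + 9)) := by
    intro w
    have hw : 0 ≤ ‖w‖ := norm_nonneg w
    have hp : 0 < 1 + ‖w‖ := by positivity
    have h2 : (1 + ‖w‖) / 2 ≤ Real.sqrt (‖w‖ ^ 2 + 1 ^ 2) := by
      apply Real.le_sqrt_of_sq_le
      nlinarith [sq_nonneg (‖w‖ - 1)]
    have h3 : kr (n + 10) 1 w ≤ 2 ^ (n + 11) * (1 + ‖w‖)⁻¹ ^ (n + 11) := by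
      unfold kr
      rw [← mul_pow]
      refine pow_le_pow_left₀ (by positivity) ?_ _
      rw [← div_eq_mul_inv, ← inv_div]
      exact inv_anti₀ (by positivity) h2
    have h4 : (1 + ‖w‖) ^ (-((n : ℝ) + 9)) = (1 + ‖w‖)⁻¹ ^ (n + 9) := by
      rw [Real.rpow_neg hp.le, inv_pow]
      congr 1
      exact_mod_cast Real.rpow_natCast (1 + ‖w‖) (n + 9)
    rw [h4]
    calc kr (n + 10) 1 w * (1 + ‖w‖) ^ 2 ≤ 2 ^ (n + 11) * (1 + ‖w‖)⁻¹ ^ (n + 11) * (1 + ‖w‖) ^ 2 :=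
          mul_le_mul_of_nonneg_right h3 (by positivity)
      _ = 2 ^ (n + 11) * (1 + ‖w‖)⁻¹ ^ (n + 9) * ((1 + ‖w‖)⁻¹ * (1 + ‖w‖)) ^ 2 := by ring
      _ = 2 ^ (n + 11) * (1 + ‖w‖)⁻¹ ^ (n + 9) := by
          rw [inv_mul_cancel₀ hp.ne', one_pow, mul_one]
  have hkc : Continuous (kr (n + 10) 1 : X d → ℝ) := kr_continuous (n + 10) one_pos
  have hcont : Continuous (fun w : X d => kr (n + 10) 1 w * (a + b * (1 + ‖w‖) ^ 2)) := by
    exact hkc.mul (by fun_prop)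
  refine (h0.const_mul ((|a| + |b|) * 2 ^ (n + 11))).mono' hcont.aestronglyMeasurable
    (Eventually.of_forall fun w => ?_)
  have hw : 0 ≤ ‖w‖ := norm_nonneg w
  rw [norm_mul, Real.norm_of_nonneg (kr_nonneg _ _ _), Real.norm_eq_abs]
  have h5 : |a + b * (1 + ‖w‖) ^ 2| ≤ (|a| + |b|) * (1 + ‖w‖) ^ 2 := by
    refine (abs_add_le _ _).trans ?_
    rw [abs_mul, abs_of_nonneg (show 0 ≤ (1 + ‖w‖) ^ 2 by positivity), add_mul]
    have : |a| ≤ |a| * (1 + ‖w‖) ^ 2 :=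
      le_mul_of_one_le_right (abs_nonneg _) (one_le_pow₀ (by linarith))
    linarith
  calc kr (n + 10) 1 w * |a + b * (1 + ‖w‖) ^ 2|
      ≤ kr (n + 10) 1 w * ((|a| + |b|) * (1 + ‖w‖) ^ 2) :=
        mul_le_mul_of_nonneg_left h5 (kr_nonneg _ _ _)
    _ = (|a| + |b|) * (kr (n + 10) 1 w * (1 + ‖w‖) ^ 2) := by ring
    _ ≤ (|a| + |b|) * (2 ^ (n + 11) * (1 + ‖w‖) ^ (-((n : ℝ) + 9))) :=
        mul_le_mul_of_nonneg_left (h1 w) (by positivity)
    _ = (|a| + |b|) * 2 ^ (n + 11) * (1 + ‖w‖) ^ (-((n : ℝ) + 9)) := by ring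

private theorem C5B_scale {n : ℕ} {ε : ℝ} (hε : 0 < ε) (w : X d) :
    ε ^ (n + 5) * (ε ^ 6 * kr (n + 10) ε (ε • w)) = kr (n + 10) 1 w := by
  have h := kr_scale (n + 10) ε (r := ε⁻¹) (inv_pos.2 hε) w
  rw [inv_inv, inv_mul_cancel₀ hε.ne'] at h
  rw [h]
  have h1 : ε ^ (n + 5) * (ε ^ 6 * (ε⁻¹ ^ (n + 10 + 1) * kr (n + 10) 1 w)) =
      (ε * ε⁻¹) ^ (n + 11) * kr (n + 10) 1 w := by ring
  rw [h1, mul_inv_cancel₀ hε.ne', one_pow, one_mul]

theorem co5_bound {n : ℕ} (hn : 1 ≤ n) (hd : d = n + 5) {μ : Measure (X d)} [IsFiniteMeasure μ]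
    {C₀ : ℝ} (hC₀ : 0 ≤ C₀) (hg : Gr n C₀ μ) (hE : En n μ) :
    ∃ B : ℝ, ∀ ε : ℝ, 0 < ε →
      ∫⁻ Y, ENNReal.ofReal (‖Fe n ε μ Y‖ ^ 2 * ∫ x, ε ^ 6 * kr (n + 10) ε (Y - x) ∂μ) ≤
        ENNReal.ofReal B := by
  obtain ⟨B, hB⟩ := hE
  obtain ⟨C, hC, hdiff⟩ := C5B_diff d n hn hC₀
  refine ⟨∫ w : X d, kr (n + 10) 1 w *
    (2 * (d * B) + (2 * C ^ 2 * μ.real univ) * (1 + ‖w‖) ^ 2), fun ε hε => ?_⟩
  have hFm := C5B_meas n hε μ
  have hkc : Continuous (kr (n + 10) ε : X d → ℝ) := kr_continuous (n + 10) hε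
  have hk1 : Continuous (kr (n + 10) 1 : X d → ℝ) := kr_continuous (n + 10) one_pos
  -- the integral over `x` as a lower integral
  have s1 : ∀ Y : X d, ENNReal.ofReal (‖Fe n ε μ Y‖ ^ 2 * ∫ x, ε ^ 6 * kr (n + 10) ε (Y - x) ∂μ) =
      ∫⁻ x, ENNReal.ofReal (‖Fe n ε μ Y‖ ^ 2 * (ε ^ 6 * kr (n + 10) ε (Y - x))) ∂μ := by
    intro Y
    rw [← integral_const_mul]
    refine ofReal_integral_eq_lintegral_ofReal ?_ (Eventually.of_forall fun x => ?_)
    · refine Integrable.const_mul (Integrable.const_mul ?_ _) _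
      have hc : Continuous fun x : X d => kr (n + 10) ε (Y - x) :=
        hkc.comp (continuous_const.sub continuous_id)
      refine Integrable.of_bound hc.aestronglyMeasurable (ε⁻¹ ^ (n + 10 + 1))
        (Eventually.of_forall fun x => ?_)
      rw [Real.norm_of_nonneg (kr_nonneg _ _ _)]
      exact kr_le_eps _ hε _
    · have := kr_nonneg (n + 10) ε (Y - x)
      simp only [Pi.zero_apply]
      positivity
  simp_rw [s1]
  -- Tonelli
  have m1 : Measurable (Function.uncurry fun (Y x : X d) =>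
      ENNReal.ofReal (‖Fe n ε μ Y‖ ^ 2 * (ε ^ 6 * kr (n + 10) ε (Y - x)))) := by
    have h1 : Measurable fun p : X d × X d => kr (n + 10) ε (p.1 - p.2) :=
      (hkc.comp (continuous_fst.sub continuous_snd)).measurable
    have h2 : Measurable fun p : X d × X d => ‖Fe n ε μ p.1‖ ^ 2 :=
      ((hFm.comp measurable_fst).norm).pow_const 2
    exact (h2.mul (h1.const_mul _)).ennreal_ofReal
  rw [lintegral_lintegral_swap m1.aemeasurable]
  -- substitution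
  have s2 : ∀ x : X d, ∫⁻ Y, ENNReal.ofReal (‖Fe n ε μ Y‖ ^ 2 * (ε ^ 6 * kr (n + 10) ε (Y - x))) =
      ∫⁻ w, ENNReal.ofReal (kr (n + 10) 1 w * ‖Fe n ε μ (x + ε • w)‖ ^ 2) := by
    intro x
    have hm : Measurable fun Y : X d =>
        ENNReal.ofReal (‖Fe n ε μ Y‖ ^ 2 * (ε ^ 6 * kr (n + 10) ε (Y - x))) := by
      have g1 : Continuous fun Y : X d => kr (n + 10) ε (Y - x) :=
        hkc.comp (continuous_id.sub continuous_const)
      have g2 : Measurable fun Y : X d => ‖Fe n ε μ Y‖ ^ 2 := hFm.norm.pow_const 2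
      have g3 : Measurable fun Y : X d => ‖Fe n ε μ Y‖ ^ 2 * (ε ^ 6 * kr (n + 10) ε (Y - x)) :=
        g2.mul (g1.measurable.const_mul _)
      exact g3.ennreal_ofReal
    rw [C5B_subst hε x hm, ← lintegral_const_mul']
    · refine lintegral_congr fun w => ?_
      rw [← ENNReal.ofReal_mul (by positivity)]
      congr 1
      have h1 : x + ε • w - x = ε • w := by abel
      have hpow : ε ^ d = ε ^ (n + 5) := congrArg (fun k => ε ^ k) hd
      rw [h1, hpow, ← C5B_scale (n := n) hε w]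
      ring
    · exact ENNReal.ofReal_ne_top
  simp_rw [s2]
  have m2 : Measurable (Function.uncurry fun (x w : X d) =>
      ENNReal.ofReal (kr (n + 10) 1 w * ‖Fe n ε μ (x + ε • w)‖ ^ 2)) := by
    have h1 : Measurable fun p : X d × X d => kr (n + 10) 1 p.2 :=
      (hk1.comp continuous_snd).measurable
    have h3 : Measurable fun p : X d × X d => p.1 + ε • p.2 := by
      have : Continuous fun p : X d × X d => p.1 + ε • p.2 :=
        continuous_fst.add (continuous_snd.const_smul ε)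
      exact this.measurable
    have h4 : Measurable fun p : X d × X d => Fe n ε μ (p.1 + ε • p.2) := hFm.comp h3
    have h5 : Measurable fun p : X d × X d => ‖Fe n ε μ (p.1 + ε • p.2)‖ ^ 2 :=
      h4.norm.pow_const 2
    have h6 : Measurable fun p : X d × X d =>
        kr (n + 10) 1 p.2 * ‖Fe n ε μ (p.1 + ε • p.2)‖ ^ 2 := h1.mul h5
    exact h6.ennreal_ofReal
  rw [lintegral_lintegral_swap m2.aemeasurable]
  have hB0 : 0 ≤ B := by
    refine le_trans ?_ (hB ε hε 0 (by simp))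
    exact integral_nonneg fun x => sq_nonneg _
  rw [ofReal_integral_eq_lintegral_ofReal (C5B_weight hd _ _) (Eventually.of_forall fun w => by
    have := kr_nonneg (n + 10) 1 w
    simp only [Pi.zero_apply]
    positivity)]
  refine lintegral_mono fun w => ?_
  have hw : 0 ≤ ‖w‖ := norm_nonneg w
  have hρ0 : 0 < ε * (1 + ‖w‖) := by positivity
  obtain ⟨i1, b1⟩ := C5B_energy hB hρ0
  have hk := kr_nonneg (n + 10) 1 w
  have hpt : ∀ x : X d, kr (n + 10) 1 w * ‖Fe n ε μ (x + ε • w)‖ ^ 2 ≤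
      kr (n + 10) 1 w * (2 * ‖Fe n (ε * (1 + ‖w‖)) μ x‖ ^ 2 + 2 * (C * (1 + ‖w‖)) ^ 2) := by
    intro x
    refine mul_le_mul_of_nonneg_left ?_ hk
    have h1 := hdiff μ hg ε hε w x
    have h2 : ‖Fe n ε μ (x + ε • w)‖ ≤ ‖Fe n (ε * (1 + ‖w‖)) μ x‖ + C * (1 + ‖w‖) := by
      have := norm_le_norm_add_norm_sub' (Fe n ε μ (x + ε • w)) (Fe n (ε * (1 + ‖w‖)) μ x)
      linarith
    have h3 : ‖Fe n ε μ (x + ε • w)‖ ^ 2 ≤
        (‖Fe n (ε * (1 + ‖w‖)) μ x‖ + C * (1 + ‖w‖)) ^ 2 :=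
      pow_le_pow_left₀ (norm_nonneg _) h2 2
    nlinarith [sq_nonneg (‖Fe n (ε * (1 + ‖w‖)) μ x‖ - C * (1 + ‖w‖))]
  have i2 : Integrable (fun x => kr (n + 10) 1 w *
      (2 * ‖Fe n (ε * (1 + ‖w‖)) μ x‖ ^ 2 + 2 * (C * (1 + ‖w‖)) ^ 2)) μ :=
    ((i1.const_mul 2).add (integrable_const _)).const_mul _
  calc ∫⁻ x, ENNReal.ofReal (kr (n + 10) 1 w * ‖Fe n ε μ (x + ε • w)‖ ^ 2) ∂μ
      ≤ ∫⁻ x, ENNReal.ofReal (kr (n + 10) 1 w *
          (2 * ‖Fe n (ε * (1 + ‖w‖)) μ x‖ ^ 2 + 2 * (C * (1 + ‖w‖)) ^ 2)) ∂μ :=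
        lintegral_mono fun x => ENNReal.ofReal_le_ofReal (hpt x)
    _ = ENNReal.ofReal (∫ x, kr (n + 10) 1 w *
          (2 * ‖Fe n (ε * (1 + ‖w‖)) μ x‖ ^ 2 + 2 * (C * (1 + ‖w‖)) ^ 2) ∂μ) := by
        rw [ofReal_integral_eq_lintegral_ofReal i2 (Eventually.of_forall fun x => by
          simp only [Pi.zero_apply]
          positivity)]
    _ ≤ ENNReal.ofReal (kr (n + 10) 1 w *
          (2 * (d * B) + (2 * C ^ 2 * μ.real univ) * (1 + ‖w‖) ^ 2)) := by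
        refine ENNReal.ofReal_le_ofReal ?_
        rw [integral_const_mul, integral_add (i1.const_mul 2) (integrable_const _),
          integral_const_mul, integral_const, smul_eq_mul]
        refine mul_le_mul_of_nonneg_left ?_ hk
        have : μ.real univ * (2 * (C * (1 + ‖w‖)) ^ 2) =
          (2 * C ^ 2 * μ.real univ) * (1 + ‖w‖) ^ 2 := by ring
        linarith

end Pool.Agent.H1.LD
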