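import Pool.Agent.H1.LD.CoD0
import Pool.Agent.H1.LD.Gau3

/-!
Codimension five: definitions.
-/

set_option autoImplicit false

open MeasureTheory Filter Topology Metric Set
open scoped RealInnerProductSpace ENNReal

namespace Pool.Agent.H1.LD

open Pool.Agent.RZ

variable {d : ℕ}

/-- the square function of codimension five at scale `t` -/
noncomputable def Qc5 (n : ℕ) (μ : Measure (X d)) (z : X d) (t : ℝ) : ℝ≥0∞ :=
  ∫⁻ Y, ENNReal.ofReal (t * kr (n + 5) t (Y - z)) * ‖Se n 0 μ Y (Y - z)‖ₑ ^ 2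

/-- the gradient of the square of the Laplacian of the Gaussian `ga 4 (· - y)` -/
noncomputable def Vv5 (y Y : X d) : X d :=
  (-512 * (64 * ‖Y - y‖ ^ 4 - 16 * (d + 4) * ‖Y - y‖ ^ 2 + (d + 2) * (d + 4)) * ga 4 (Y - y)) •
    (Y - y)

/-- the trace of the derivative of the regularised Riesz transform -/
noncomputable def T5 (n : ℕ) (ε : ℝ) (μ : Measure (X d)) (Y : X d) : ℝ :=
  ∫ x, kr (n + 2) ε (Y - x) * (4 * ‖Y - x‖ ^ 2 + (n + 5) * ε ^ 2) ∂μ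

/-- the Hessian of `T5` -/
noncomputable def H5 (n : ℕ) (ε : ℝ) (μ : Measure (X d)) (k l : Fin d) (Y : X d) : ℝ :=
  -(n + 1) * ∫ x, ((4 * kr (n + 2) ε (Y - x) + (n + 3) * ε ^ 2 * kr (n + 4) ε (Y - x)) *
      (if k = l then 1 else 0) -
    (n + 3) * (4 * kr (n + 4) ε (Y - x) + (n + 5) * ε ^ 2 * kr (n + 6) ε (Y - x)) *
      ((Y - x) k * (Y - x) l)) ∂μ

/-- the field `∫ kr (n + 2) ε Z * Z` -/
noncomputable def W5 (n : ℕ) (ε : ℝ) (μ : Measure (X d)) (k : Fin d) (Y : X d) : ℝ :=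
  ∫ x, kr (n + 2) ε (Y - x) * (Y - x) k ∂μ

/-- its divergence -/
noncomputable def DW5 (n : ℕ) (ε : ℝ) (μ : Measure (X d)) (Y : X d) : ℝ :=
  ∫ x, (2 * kr (n + 2) ε (Y - x) + (n + 3) * ε ^ 2 * kr (n + 4) ε (Y - x)) ∂μ

/-- the square of the Laplacian of `T5` -/
noncomputable def Q5 (n : ℕ) (ε : ℝ) (μ : Measure (X d)) (Y : X d) : ℝ :=
  ((n + 1) * (n + 3) * (n + 5) * (n + 7) * (n + 9)) * ∫ x, ε ^ 6 * kr (n + 10) ε (Y - x) ∂μ

/-- data of a gradient field with decay on `ℝ^d`: `S` and `R` are its first and second derivatives,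
`T` the trace of `S`, `V` and `H` the gradient and the Hessian of `T` -/
structure HesA (n : ℕ) (F : Fin d → X d → ℝ) (S : Fin d → Fin d → X d → ℝ)
    (R : Fin d → Fin d → Fin d → X d → ℝ) (T : X d → ℝ) (V : Fin d → X d → ℝ)
    (H : Fin d → Fin d → X d → ℝ) : Prop where
  dF : ∀ i, Differentiable ℝ (F i)
  dS : ∀ i j, Differentiable ℝ (S i j)
  dR : ∀ i j k, Differentiable ℝ (R i j k)
  dV : ∀ k, Differentiable ℝ (V k)
  cH : ∀ k l, Continuous (H k l)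
  eF : ∀ i j x, fderiv ℝ (F i) x (EuclideanSpace.single j 1) = S i j x
  eS : ∀ i j k x, fderiv ℝ (S i j) x (EuclideanSpace.single k 1) = R i j k x
  eR : ∀ j l x, ∑ i, fderiv ℝ (R i j l) x (EuclideanSpace.single i 1) = H j l x
  eT : ∀ x, T x = ∑ i, S i i x
  eV : ∀ k x, V k x = ∑ i, R i i k x
  eH : ∀ k l x, fderiv ℝ (V k) x (EuclideanSpace.single l 1) = H k l x
  sS : ∀ i j x, S i j x = S j i x
  sR : ∀ i j k x, R i j k x = R i k j x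
  sH : ∀ k l x, H k l x = H l k x
  bd : ∃ C : ℝ, ∀ x, (∀ i, |F i x| ≤ C * (1 + ‖x‖)⁻¹ ^ n) ∧
    (∀ i j, |S i j x| ≤ C * (1 + ‖x‖)⁻¹ ^ (n + 1)) ∧
    (∀ i j k, |R i j k x| ≤ C * (1 + ‖x‖)⁻¹ ^ (n + 2)) ∧
    (∀ i j k l, |fderiv ℝ (R i j k) x (EuclideanSpace.single l 1)| ≤
      C * (1 + ‖x‖)⁻¹ ^ (n + 3)) ∧
    (∀ k l, |H k l x| ≤ C * (1 + ‖x‖)⁻¹ ^ (n + 3))

/-- continuation: `U` is the trace of `H`, `G` its gradient, `Q` its Laplacian, `DW` the divergence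
of the field `W` -/
structure HesB (n : ℕ) (H : Fin d → Fin d → X d → ℝ) (U : X d → ℝ) (G : Fin d → X d → ℝ)
    (Q : X d → ℝ) (W : Fin d → X d → ℝ) (DW : X d → ℝ) : Prop where
  dU : Differentiable ℝ U
  dG : ∀ k, Differentiable ℝ (G k)
  dW : ∀ k, Differentiable ℝ (W k)
  cQ : Continuous Q
  cD : Continuous DW
  eU : ∀ x, U x = ∑ k, H k k x
  eG : ∀ k x, fderiv ℝ U x (EuclideanSpace.single k 1) = G k x
  eQ : ∀ x, ∑ k, fderiv ℝ (G k) x (EuclideanSpace.single k 1) = Q x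
  eW : ∀ x, ∑ k, fderiv ℝ (W k) x (EuclideanSpace.single k 1) = DW x
  bd : ∃ C : ℝ, ∀ x, |U x| ≤ C * (1 + ‖x‖)⁻¹ ^ (n + 3) ∧
    (∀ k, |G k x| ≤ C * (1 + ‖x‖)⁻¹ ^ (n + 4)) ∧
    (∀ k l, |fderiv ℝ (G k) x (EuclideanSpace.single l 1)| ≤ C * (1 + ‖x‖)⁻¹ ^ (n + 5)) ∧
    (∀ k, |W k x| ≤ C * (1 + ‖x‖)⁻¹ ^ (n + 2)) ∧
    (∀ k l, |fderiv ℝ (W k) x (EuclideanSpace.single l 1)| ≤ C * (1 + ‖x‖)⁻¹ ^ (n + 3))

/-- the cubic expression -/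
def P5 (F : Fin d → X d → ℝ) (S : Fin d → Fin d → X d → ℝ)
    (R : Fin d → Fin d → Fin d → X d → ℝ) (T : X d → ℝ) (H : Fin d → Fin d → X d → ℝ)
    (x : X d) : ℝ :=
  (∑ i, ∑ j, ∑ k, H i k x * (S i j x * S j k x)) + T x * (∑ i, ∑ j, ∑ k, R i j k x ^ 2) -
    4 * ∑ i, ∑ j, ∑ k, ∑ l, S k l x * (R i j k x * R i j l x)

/-- the divergence of `|S|^2 W` -/
def D5 (S : Fin d → Fin d → X d → ℝ) (R : Fin d → Fin d → Fin d → X d → ℝ)
    (W : Fin d → X d → ℝ) (DW : X d → ℝ) (x : X d) : ℝ :=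
  2 * (∑ i, ∑ j, ∑ k, S i j x * (R i j k x * W k x)) + (∑ i, ∑ j, S i j x ^ 2) * DW x

end Pool.Agent.H1.LD
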