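import Pool.Agent.H1.C5.D0

/-!
Row J (template LD/CoJ.lean; copy its private lemmas).  Fix Y, S = Se n ε μ Y (symmetric), Z = Y - x, R any array of reals.  q3 = kr(n+2), q5 = kr(n+4), q7 = kr(n+6).
 T5 δ_kl - 4 S_kl = (n+1) ∫ q3 (4 Z_k Z_l + ε^2 δ_kl), so
 T5 |R|^2 - 4 S_kl R_ijk R_ijl = (n+1) ∫ q3 (4 sum_ij (Z_k R_ijk)^2 + ε^2 |R|^2) ≥ 4(n+1) ∫ q3 sum_ij (Z_k R_ijk)^2 ≥ -4(n+1) ∫ q3 (|S|^2 + 2 S_ij R_ijk Z_k)   [(S_ij + Z_k R_ijk)^2 ≥ 0]
 sum H5_ik S_ij S_jk = -(n+1) |S|^2 ∫ (4 q3 + (n+3) ε^2 q5) + (n+1)(n+3) ∫ (4 q5 + (n+5) ε^2 q7) |S Z|^2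
 4(n+1) D5 = 4(n+1)[2 S_ij R_ijk W5_k + |S|^2 ∫ (2 q3 + (n+3) ε^2 q5)].
 Sum: P5 + 4(n+1) D5 ≥ 4(n+1)(n+3) ∫ q5 |S Z|^2 + |S|^2 (n+1) ∫ [-4q3 - (n+3)ε^2 q5 - 4 q3 + 8 q3 + 4(n+3) ε^2 q5].
-/

set_option autoImplicit false

open MeasureTheory Filter Topology Metric Set
open scoped RealInnerProductSpace ENNReal

namespace Pool.Agent.H1.LD

open Pool.Agent.RZ

variable {d : ℕ}

/-- bounded continuous functions of the shifted variable are integrable -/
private theorem C5J_int {μ : Measure (X d)} [IsFiniteMeasure μ] {f : X d → ℝ} (hf : Continuous f)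
    {C : ℝ} (hC : ∀ x, |f x| ≤ C) : Integrable f μ :=
  Integrable.of_bound hf.aestronglyMeasurable C (Eventually.of_forall fun x => by
    rw [Real.norm_eq_abs]; exact hC x)

private theorem C5J_kr {n : ℕ} {ε : ℝ} (hε : 0 < ε) (z : X d) :
    kr n ε z = kr (n + 2) ε z * (‖z‖ ^ 2 + ε ^ 2) := by
  have h : 0 < ‖z‖ ^ 2 + ε ^ 2 := by positivity
  have hs : Real.sqrt (‖z‖ ^ 2 + ε ^ 2) ^ 2 = ‖z‖ ^ 2 + ε ^ 2 := Real.sq_sqrt h.le
  have hp : 0 < Real.sqrt (‖z‖ ^ 2 + ε ^ 2) := Real.sqrt_pos.2 h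
  unfold kr
  set ρ := Real.sqrt (‖z‖ ^ 2 + ε ^ 2) with hρ
  rw [← hs, show n + 2 + 1 = (n + 1) + 2 from rfl, pow_add ρ⁻¹ (n + 1) 2, mul_assoc, ← mul_pow,
    inv_mul_cancel₀ hp.ne', one_pow, mul_one]

private theorem C5J_coord (z : X d) (i : Fin d) : |z i| ≤ ‖z‖ := by
  have := PiLp.norm_apply_le z i
  rwa [Real.norm_eq_abs] at this

private theorem C5J_bd {n : ℕ} {ε : ℝ} (hε : 0 < ε) (z : X d) :
    kr (n + 2) ε z * ‖z‖ ^ 2 ≤ kr n ε z := by
  rw [C5J_kr (n := n) hε z]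
  have := kr_nonneg (n + 2) ε z
  have h2 : 0 ≤ ε ^ 2 := by positivity
  nlinarith [mul_nonneg this h2]

private theorem C5J_intZZ {n : ℕ} {ε : ℝ} (hε : 0 < ε) (μ : Measure (X d)) [IsFiniteMeasure μ]
    (Y : X d) (i j : Fin d) :
    Integrable (fun x => kr (n + 2) ε (Y - x) * ((Y - x) i * (Y - x) j)) μ := by
  have hc : Continuous fun x : X d => Y - x := continuous_const.sub continuous_id
  refine C5J_int (C := ε⁻¹ ^ (n + 1)) ?_ (fun x => ?_)
  · have h1 : Continuous fun x : X d => (Y - x) i := (EuclideanSpace.proj i).continuous.comp hc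
    have h2 : Continuous fun x : X d => (Y - x) j := (EuclideanSpace.proj j).continuous.comp hc
    exact ((kr_continuous (n + 2) hε).comp hc).mul (h1.mul h2)
  · rw [abs_mul, abs_of_nonneg (kr_nonneg _ _ _), abs_mul]
    calc kr (n + 2) ε (Y - x) * (|(Y - x) i| * |(Y - x) j|)
        ≤ kr (n + 2) ε (Y - x) * (‖Y - x‖ * ‖Y - x‖) := by
          have := kr_nonneg (n + 2) ε (Y - x)
          have h1 := C5J_coord (Y - x) i
          have h2 := C5J_coord (Y - x) j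
          gcongr
      _ = kr (n + 2) ε (Y - x) * ‖Y - x‖ ^ 2 := by ring
      _ ≤ kr n ε (Y - x) := C5J_bd hε _
      _ ≤ ε⁻¹ ^ (n + 1) := kr_le_eps n hε _

private theorem C5J_intK {n : ℕ} {ε : ℝ} (hε : 0 < ε) (μ : Measure (X d)) [IsFiniteMeasure μ]
    (Y : X d) : Integrable (fun x => kr n ε (Y - x)) μ := by
  have hc : Continuous fun x : X d => Y - x := continuous_const.sub continuous_id
  refine C5J_int (C := ε⁻¹ ^ (n + 1)) ((kr_continuous n hε).comp hc) (fun x => ?_)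
  rw [abs_of_nonneg (kr_nonneg _ _ _)]
  exact kr_le_eps n hε _

private theorem C5J_normsq (z : X d) : ‖z‖ ^ 2 = ∑ i, z i * z i := by
  rw [EuclideanSpace.norm_sq_eq]
  refine Finset.sum_congr rfl (fun i _ => ?_)
  rw [Real.norm_eq_abs, sq_abs, sq]

private theorem C5J_inner (z w : X d) : ⟪z, w⟫ = ∑ i, z i * w i := by
  rw [PiLp.inner_apply]
  refine Finset.sum_congr rfl (fun i _ => ?_)
  simp [mul_comm]

/-- the coordinates of `Se` -/
private theorem C5J_Se {n : ℕ} {ε : ℝ} (hε : 0 < ε) (μ : Measure (X d)) [IsFiniteMeasure μ]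
    (Y v : X d) (i : Fin d) :
    (Se n ε μ Y v) i = (∫ x, kr n ε (Y - x) ∂μ) * v i
      - (n + 1) * ∑ j, (∫ x, kr (n + 2) ε (Y - x) * ((Y - x) i * (Y - x) j) ∂μ) * v j := by
  have hc : Continuous fun x : X d => Y - x := continuous_const.sub continuous_id
  have hk := C5J_intK (n := n) hε μ Y
  have hkZ : Integrable (fun x => ((n + 1) * (kr (n + 2) ε (Y - x) * ⟪Y - x, v⟫)) • (Y - x)) μ := by
    refine Integrable.of_bound (C := (n + 1) * (ε⁻¹ ^ (n + 1) * ‖v‖)) ?_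
      (Eventually.of_forall fun x => ?_)
    · have h1 : Continuous fun x : X d => ((n + 1) * (kr (n + 2) ε (Y - x) * ⟪Y - x, v⟫)) :=
        continuous_const.mul (((kr_continuous (n + 2) hε).comp hc).mul (hc.inner continuous_const))
      exact (h1.smul hc).aestronglyMeasurable
    · rw [norm_smul, Real.norm_eq_abs, abs_mul, abs_mul, abs_of_nonneg (kr_nonneg _ _ _),
        abs_of_nonneg (show (0 : ℝ) ≤ (n : ℝ) + 1 by positivity)]
      have h1 : |⟪Y - x, v⟫| ≤ ‖Y - x‖ * ‖v‖ := abs_real_inner_le_norm _ _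
      have h2 := kr_nonneg (n + 2) ε (Y - x)
      calc (n + 1) * (kr (n + 2) ε (Y - x) * |⟪Y - x, v⟫|) * ‖Y - x‖
          ≤ (n + 1) * (kr (n + 2) ε (Y - x) * (‖Y - x‖ * ‖v‖)) * ‖Y - x‖ := by gcongr
        _ = (n + 1) * ((kr (n + 2) ε (Y - x) * ‖Y - x‖ ^ 2) * ‖v‖) := by ring
        _ ≤ (n + 1) * (ε⁻¹ ^ (n + 1) * ‖v‖) := by
          have h3 := (C5J_bd (n := n) hε (Y - x)).trans (kr_le_eps n hε (Y - x))
          gcongr
  have e1 : Se n ε μ Y v = (∫ x, kr n ε (Y - x) ∂μ) • v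
      - ∫ x, ((n + 1) * (kr (n + 2) ε (Y - x) * ⟪Y - x, v⟫)) • (Y - x) ∂μ := by
    unfold Se dK
    rw [integral_sub (hk.smul_const v) hkZ, integral_smul_const]
  have e2 : (∫ x, ((n + 1) * (kr (n + 2) ε (Y - x) * ⟪Y - x, v⟫)) • (Y - x) ∂μ) i
      = ∫ x, ((n + 1) * (kr (n + 2) ε (Y - x) * ⟪Y - x, v⟫)) * (Y - x) i ∂μ := by
    have := ContinuousLinearMap.integral_comp_comm (EuclideanSpace.proj (𝕜 := ℝ) i) hkZ
    simpa using this.symm
  rw [e1, PiLp.sub_apply, PiLp.smul_apply, smul_eq_mul, e2]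
  congr 1
  have e3 : ∀ x : X d, ((n + 1) * (kr (n + 2) ε (Y - x) * ⟪Y - x, v⟫)) * (Y - x) i
      = (n + 1) * ∑ j, (kr (n + 2) ε (Y - x) * ((Y - x) i * (Y - x) j)) * v j := by
    intro x
    rw [C5J_inner, Finset.mul_sum, Finset.mul_sum, Finset.sum_mul, Finset.mul_sum]
    refine Finset.sum_congr rfl (fun j _ => ?_)
    ring
  simp only [e3]
  rw [integral_const_mul, integral_finsetSum _ (fun j _ => (C5J_intZZ hε μ Y i j).mul_const (v j))]
  simp only [integral_mul_const]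

private theorem C5J_intZ {n : ℕ} {ε : ℝ} (hε : 0 < ε) (μ : Measure (X d)) [IsFiniteMeasure μ]
    (Y : X d) (i : Fin d) :
    Integrable (fun x => kr (n + 2) ε (Y - x) * (Y - x) i) μ := by
  have hc : Continuous fun x : X d => Y - x := continuous_const.sub continuous_id
  have h1 : Continuous fun x : X d => (Y - x) i := (EuclideanSpace.proj i).continuous.comp hc
  refine ((C5J_intK (n := n + 2) hε μ Y).add (C5J_intZZ (n := n) hε μ Y i i)).mono'
    (((kr_continuous (n + 2) hε).comp hc).mul h1).aestronglyMeasurable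
    (Eventually.of_forall fun x => ?_)
  rw [Real.norm_eq_abs, abs_mul, abs_of_nonneg (kr_nonneg _ _ _), Pi.add_apply]
  have h2 := kr_nonneg (n + 2) ε (Y - x)
  have h3 : |(Y - x) i| ≤ 1 + (Y - x) i * (Y - x) i := by
    rw [abs_le]
    constructor <;> nlinarith [sq_nonneg ((Y - x) i - 1), sq_nonneg ((Y - x) i + 1),
      sq_nonneg ((Y - x) i)]
  calc kr (n + 2) ε (Y - x) * |(Y - x) i|
      ≤ kr (n + 2) ε (Y - x) * (1 + (Y - x) i * (Y - x) i) := mul_le_mul_of_nonneg_left h3 h2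
    _ = kr (n + 2) ε (Y - x) + kr (n + 2) ε (Y - x) * ((Y - x) i * (Y - x) i) := by ring

private theorem C5J_quad {n : ℕ} {ε : ℝ} (hε : 0 < ε) (μ : Measure (X d)) [IsFiniteMeasure μ]
    (Y : X d) (M : Fin d → Fin d → ℝ) (L : X d → X d)
    (hL : ∀ v : X d, ‖L v‖ ^ 2 = ∑ i, ∑ j, ∑ k, M i j * M i k * (v j * v k)) :
    Integrable (fun x => kr (n + 2) ε (Y - x) * ‖L (Y - x)‖ ^ 2) μ ∧
    ∫ x, kr (n + 2) ε (Y - x) * ‖L (Y - x)‖ ^ 2 ∂μ =
      ∑ i, ∑ j, ∑ k, M i j * M i k *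
        ∫ x, kr (n + 2) ε (Y - x) * ((Y - x) j * (Y - x) k) ∂μ := by
  have iZ : ∀ i j, Integrable (fun x => kr (n + 2) ε (Y - x) * ((Y - x) i * (Y - x) j)) μ :=
    fun i j => C5J_intZZ hε μ Y i j
  have hpt : (fun x => kr (n + 2) ε (Y - x) * ‖L (Y - x)‖ ^ 2)
      = fun x => ∑ i, ∑ j, ∑ k, (M i j * M i k) *
          (kr (n + 2) ε (Y - x) * ((Y - x) j * (Y - x) k)) := by
    funext x
    rw [hL, Finset.mul_sum]
    refine Finset.sum_congr rfl (fun i _ => ?_)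
    rw [Finset.mul_sum]
    refine Finset.sum_congr rfl (fun j _ => ?_)
    rw [Finset.mul_sum]
    refine Finset.sum_congr rfl (fun k _ => ?_)
    ring
  have iI : ∀ i j, Integrable (fun x => ∑ k, (M i j * M i k) *
          (kr (n + 2) ε (Y - x) * ((Y - x) j * (Y - x) k))) μ :=
    fun i j => integrable_finsetSum _ (fun k _ => (iZ j k).const_mul _)
  have iI2 : ∀ i, Integrable (fun x => ∑ j, ∑ k, (M i j * M i k) *
          (kr (n + 2) ε (Y - x) * ((Y - x) j * (Y - x) k))) μ :=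
    fun i => integrable_finsetSum _ (fun j _ => iI i j)
  refine ⟨?_, ?_⟩
  · rw [hpt]
    exact integrable_finsetSum _ (fun i _ => iI2 i)
  · rw [hpt, integral_finsetSum _ (fun i _ => iI2 i)]
    refine Finset.sum_congr rfl (fun i _ => ?_)
    rw [integral_finsetSum _ (fun j _ => iI i j)]
    refine Finset.sum_congr rfl (fun j _ => ?_)
    rw [integral_finsetSum _ (fun k _ => (iZ j k).const_mul _)]
    refine Finset.sum_congr rfl (fun k _ => ?_)
    rw [integral_const_mul]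

private theorem C5J_sq {n : ℕ} {ε : ℝ} (hε : 0 < ε) (μ : Measure (X d)) [IsFiniteMeasure μ]
    (Y : X d) (a : ℝ) (r : Fin d → ℝ) :
    0 ≤ a ^ 2 * (∫ x, kr (n + 2) ε (Y - x) ∂μ) +
      2 * ∑ k, a * (r k * ∫ x, kr (n + 2) ε (Y - x) * (Y - x) k ∂μ) +
      ∑ k, ∑ l, (∫ x, kr (n + 2) ε (Y - x) * ((Y - x) k * (Y - x) l) ∂μ) * (r k * r l) := by
  have iK := C5J_intK (n := n + 2) hε μ Y
  have iZ : ∀ k, Integrable (fun x => kr (n + 2) ε (Y - x) * (Y - x) k) μ :=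
    fun k => C5J_intZ hε μ Y k
  have iZZ : ∀ k l, Integrable (fun x => kr (n + 2) ε (Y - x) * ((Y - x) k * (Y - x) l)) μ :=
    fun k l => C5J_intZZ hε μ Y k l
  have h0 : 0 ≤ ∫ x, kr (n + 2) ε (Y - x) * (a + ∑ k, r k * (Y - x) k) ^ 2 ∂μ :=
    integral_nonneg fun x => mul_nonneg (kr_nonneg _ _ _) (sq_nonneg _)
  have h1 : (fun x => kr (n + 2) ε (Y - x) * (a + ∑ k, r k * (Y - x) k) ^ 2) =
      fun x => (a ^ 2 * kr (n + 2) ε (Y - x) +
        ∑ k, (2 * a * r k) * (kr (n + 2) ε (Y - x) * (Y - x) k)) +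
        ∑ k, ∑ l, (r k * r l) * (kr (n + 2) ε (Y - x) * ((Y - x) k * (Y - x) l)) := by
    funext x
    have h2 : (∑ k, r k * (Y - x) k) ^ 2 =
        ∑ k, ∑ l, (r k * (Y - x) k) * (r l * (Y - x) l) := by
      rw [sq, Finset.sum_mul_sum]
    have h3 : ∑ k, (2 * a * r k) * (kr (n + 2) ε (Y - x) * (Y - x) k) =
        kr (n + 2) ε (Y - x) * (2 * a * ∑ k, r k * (Y - x) k) := by
      rw [Finset.mul_sum, Finset.mul_sum]
      exact Finset.sum_congr rfl fun k _ => by ring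
    have h4 : ∑ k, ∑ l, (r k * r l) * (kr (n + 2) ε (Y - x) * ((Y - x) k * (Y - x) l)) =
        kr (n + 2) ε (Y - x) * (∑ k, r k * (Y - x) k) ^ 2 := by
      rw [h2, Finset.mul_sum]
      refine Finset.sum_congr rfl fun k _ => ?_
      rw [Finset.mul_sum]
      exact Finset.sum_congr rfl fun l _ => by ring
    rw [h3, h4]
    ring
  have i1 : Integrable (fun x => ∑ k, (2 * a * r k) * (kr (n + 2) ε (Y - x) * (Y - x) k)) μ :=
    integrable_finsetSum _ (fun k _ => (iZ k).const_mul _)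
  have i2 : ∀ k, Integrable (fun x => ∑ l, (r k * r l) *
      (kr (n + 2) ε (Y - x) * ((Y - x) k * (Y - x) l))) μ :=
    fun k => integrable_finsetSum _ (fun l _ => (iZZ k l).const_mul _)
  have i3 : Integrable (fun x => ∑ k, ∑ l, (r k * r l) *
      (kr (n + 2) ε (Y - x) * ((Y - x) k * (Y - x) l))) μ :=
    integrable_finsetSum _ (fun k _ => i2 k)
  have i4 : Integrable (fun x => a ^ 2 * kr (n + 2) ε (Y - x) +
      ∑ k, (2 * a * r k) * (kr (n + 2) ε (Y - x) * (Y - x) k)) μ := (iK.const_mul _).add i1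
  rw [h1, integral_add i4 i3, integral_add (iK.const_mul _) i1,
    integral_const_mul, integral_finsetSum _ (fun k _ => (iZ k).const_mul _),
    integral_finsetSum _ (fun k _ => i2 k)] at h0
  have e1 : ∑ k, ∫ x, (2 * a * r k) * (kr (n + 2) ε (Y - x) * (Y - x) k) ∂μ =
      2 * ∑ k, a * (r k * ∫ x, kr (n + 2) ε (Y - x) * (Y - x) k ∂μ) := by
    rw [Finset.mul_sum]
    refine Finset.sum_congr rfl fun k _ => ?_
    rw [integral_const_mul]
    ring
  have e2 : ∑ k, ∫ x, ∑ l, (r k * r l) *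
      (kr (n + 2) ε (Y - x) * ((Y - x) k * (Y - x) l)) ∂μ =
      ∑ k, ∑ l, (∫ x, kr (n + 2) ε (Y - x) * ((Y - x) k * (Y - x) l) ∂μ) * (r k * r l) := by
    refine Finset.sum_congr rfl fun k _ => ?_
    rw [integral_finsetSum _ (fun l _ => (iZZ k l).const_mul _)]
    refine Finset.sum_congr rfl fun l _ => ?_
    rw [integral_const_mul]
    ring
  rw [e1, e2] at h0
  exact h0

private theorem C5J_fin (n : ℕ) (ε C B B5 Q U V N2 E5 E7 : ℝ) (hE7 : 0 ≤ E7) (hB0 : 0 ≤ B)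
    (hB50 : 0 ≤ B5) (hQ0 : 0 ≤ Q) (hN0 : 0 ≤ N2) (hsq : 0 ≤ N2 * B + 2 * V + U) :
    4 * ((n : ℝ) + 1) * (n + 3) * E5 ≤ -((n : ℝ) + 1) * ((4 * B + (n + 3) * ε ^ 2 * B5) * N2) +
        (n + 1) * (n + 3) * (4 * E5 + (n + 5) * ε ^ 2 * E7) +
        (4 * C + (n + 5) * ε ^ 2 * B) * Q - 4 * ((C + ε ^ 2 * B) * Q - (n + 1) * U) +
        4 * (n + 1) * (2 * V + N2 * (2 * B + (n + 3) * ε ^ 2 * B5)) := by
  have h1 : 0 ≤ ((n : ℝ) + 1) * (n + 3) * (n + 5) * ε ^ 2 * E7 := by positivity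
  have h2 : 0 ≤ ((n : ℝ) + 1) * ε ^ 2 * B * Q := by positivity
  have h3 : 0 ≤ 4 * ((n : ℝ) + 1) * (N2 * B + 2 * V + U) := by positivity
  have h4 : 0 ≤ 3 * ((n : ℝ) + 1) * (n + 3) * ε ^ 2 * B5 * N2 := by positivity
  linarith

theorem hess5_pos {n : ℕ} (hd : d = n + 5) {ε : ℝ} (hε : 0 < ε) (μ : Measure (X d))
    [IsFiniteMeasure μ] (R : Fin d → Fin d → Fin d → X d → ℝ) (Y : X d) :
    Integrable (fun x => kr (n + 4) ε (Y - x) * ‖Se n ε μ Y (Y - x)‖ ^ 2) μ ∧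
    4 * (n + 1) * (n + 3) * ∫ x, kr (n + 4) ε (Y - x) * ‖Se n ε μ Y (Y - x)‖ ^ 2 ∂μ ≤
      P5 (fun i Y => ⟪EuclideanSpace.single i 1, Fe n ε μ Y⟫)
        (fun i j Y => ⟪EuclideanSpace.single i 1, Se n ε μ Y (EuclideanSpace.single j 1)⟫) R
        (T5 n ε μ) (H5 n ε μ) Y +
      4 * (n + 1) * D5 (fun i j Y =>
          ⟪EuclideanSpace.single i 1, Se n ε μ Y (EuclideanSpace.single j 1)⟫) R
        (W5 n ε μ) (DW5 n ε μ) Y := by
  set A : Fin d → Fin d → ℝ := fun i j =>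
    ∫ x, kr (n + 2) ε (Y - x) * ((Y - x) i * (Y - x) j) ∂μ with hA
  set A5 : Fin d → Fin d → ℝ := fun i j =>
    ∫ x, kr (n + 4) ε (Y - x) * ((Y - x) i * (Y - x) j) ∂μ with hA5
  set A7 : Fin d → Fin d → ℝ := fun i j =>
    ∫ x, kr (n + 6) ε (Y - x) * ((Y - x) i * (Y - x) j) ∂μ with hA7
  set B : ℝ := ∫ x, kr (n + 2) ε (Y - x) ∂μ with hB
  set B5 : ℝ := ∫ x, kr (n + 4) ε (Y - x) ∂μ with hB5
  set κ : ℝ := ∫ x, kr n ε (Y - x) ∂μ with hκ
  set C : ℝ := ∑ i, A i i with hC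
  have iB := C5J_intK (n := n + 2) hε μ Y
  have iB5 := C5J_intK (n := n + 4) hε μ Y
  have iZ : ∀ i j, Integrable (fun x => kr (n + 2) ε (Y - x) * ((Y - x) i * (Y - x) j)) μ :=
    fun i j => C5J_intZZ hε μ Y i j
  have iZ5 : ∀ i j, Integrable (fun x => kr (n + 4) ε (Y - x) * ((Y - x) i * (Y - x) j)) μ :=
    fun i j => C5J_intZZ (n := n + 2) hε μ Y i j
  have iZ7 : ∀ i j, Integrable (fun x => kr (n + 6) ε (Y - x) * ((Y - x) i * (Y - x) j)) μ :=
    fun i j => C5J_intZZ (n := n + 4) hε μ Y i j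
  have hAs : ∀ i j, A i j = A j i := by
    intro i j
    simp only [hA]
    congr 1
    funext x
    ring
  have iC : Integrable (fun x => kr (n + 2) ε (Y - x) * ‖Y - x‖ ^ 2) μ := by
    have h1 : (fun x => kr (n + 2) ε (Y - x) * ‖Y - x‖ ^ 2)
        = fun x => ∑ i, kr (n + 2) ε (Y - x) * ((Y - x) i * (Y - x) i) := by
      funext x
      rw [C5J_normsq, Finset.mul_sum]
    rw [h1]
    exact integrable_finsetSum _ (fun i _ => iZ i i)
  have eC : ∫ x, kr (n + 2) ε (Y - x) * ‖Y - x‖ ^ 2 ∂μ = C := by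
    have h1 : (fun x => kr (n + 2) ε (Y - x) * ‖Y - x‖ ^ 2)
        = fun x => ∑ i, kr (n + 2) ε (Y - x) * ((Y - x) i * (Y - x) i) := by
      funext x
      rw [C5J_normsq, Finset.mul_sum]
    rw [h1, integral_finsetSum _ (fun i _ => iZ i i)]
  have eκ : κ = C + ε ^ 2 * B := by
    have h1 : (fun x => kr n ε (Y - x))
        = fun x => kr (n + 2) ε (Y - x) * ‖Y - x‖ ^ 2 + ε ^ 2 * kr (n + 2) ε (Y - x) := by
      funext x
      rw [C5J_kr hε]
      ring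
    rw [hκ, h1, integral_add iC (iB.const_mul _), integral_const_mul, eC]
  have eT : T5 n ε μ Y = 4 * C + (n + 5) * ε ^ 2 * B := by
    unfold T5
    have h1 : (fun x => kr (n + 2) ε (Y - x) * (4 * ‖Y - x‖ ^ 2 + (n + 5) * ε ^ 2))
        = fun x => 4 * (kr (n + 2) ε (Y - x) * ‖Y - x‖ ^ 2)
          + ((n + 5) * ε ^ 2) * kr (n + 2) ε (Y - x) := by
      funext x
      ring
    rw [h1, integral_add (iC.const_mul _) (iB.const_mul _), integral_const_mul,
      integral_const_mul, eC]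
  have eH : ∀ k l, H5 n ε μ k l Y = -(n + 1) * ((4 * B + (n + 3) * ε ^ 2 * B5) *
      (if k = l then 1 else 0) - (n + 3) * (4 * A5 k l + (n + 5) * ε ^ 2 * A7 k l)) := by
    intro k l
    unfold H5
    have h1 : (fun x => (4 * kr (n + 2) ε (Y - x) + (n + 3) * ε ^ 2 * kr (n + 4) ε (Y - x)) *
        (if k = l then (1 : ℝ) else 0) -
        (n + 3) * (4 * kr (n + 4) ε (Y - x) + (n + 5) * ε ^ 2 * kr (n + 6) ε (Y - x)) *
        ((Y - x) k * (Y - x) l)) =
        fun x => ((4 * (if k = l then (1 : ℝ) else 0)) * kr (n + 2) ε (Y - x) +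
          ((n + 3) * ε ^ 2 * (if k = l then (1 : ℝ) else 0)) * kr (n + 4) ε (Y - x)) -
          ((4 * (n + 3)) * (kr (n + 4) ε (Y - x) * ((Y - x) k * (Y - x) l)) +
          ((n + 3) * ((n + 5) * ε ^ 2)) * (kr (n + 6) ε (Y - x) * ((Y - x) k * (Y - x) l))) := by
      funext x
      ring
    have j1 : Integrable (fun x => (4 * (if k = l then (1 : ℝ) else 0)) * kr (n + 2) ε (Y - x) +
          ((n + 3) * ε ^ 2 * (if k = l then (1 : ℝ) else 0)) * kr (n + 4) ε (Y - x)) μ :=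
      (iB.const_mul _).add (iB5.const_mul _)
    have j2 : Integrable (fun x => (4 * ((n : ℝ) + 3)) *
          (kr (n + 4) ε (Y - x) * ((Y - x) k * (Y - x) l)) +
          (((n : ℝ) + 3) * ((n + 5) * ε ^ 2)) *
          (kr (n + 6) ε (Y - x) * ((Y - x) k * (Y - x) l))) μ :=
      ((iZ5 k l).const_mul _).add ((iZ7 k l).const_mul _)
    rw [h1, integral_sub j1 j2,
      integral_add (iB.const_mul _) (iB5.const_mul _),
      integral_add ((iZ5 k l).const_mul _) ((iZ7 k l).const_mul _),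
      integral_const_mul, integral_const_mul, integral_const_mul, integral_const_mul]
    simp only [hB, hB5, hA5, hA7]
    ring
  have eD : DW5 n ε μ Y = 2 * B + (n + 3) * ε ^ 2 * B5 := by
    unfold DW5
    rw [integral_add (iB.const_mul _) (iB5.const_mul _), integral_const_mul, integral_const_mul]
  set M : Fin d → Fin d → ℝ := fun i j => (if i = j then κ else 0) - (n + 1) * A i j with hM
  have hSe : ∀ (v : X d) (i : Fin d), (Se n ε μ Y v) i = ∑ j, M i j * v j := by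
    intro v i
    rw [C5J_Se hε μ Y v i]
    simp only [hM, sub_mul, Finset.sum_sub_distrib, ite_mul, zero_mul, Finset.sum_ite_eq,
      Finset.mem_univ, if_true, Finset.mul_sum, mul_assoc]
    rfl
  have hMs : ∀ i j, M i j = M j i := by
    intro i j
    simp only [hM, hAs i j, eq_comm (a := i) (b := j)]
  have hS : ∀ i j, ⟪(EuclideanSpace.single i 1 : X d), Se n ε μ Y (EuclideanSpace.single j 1)⟫
      = M i j := by
    intro i j
    rw [EuclideanSpace.inner_single_left, hSe]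
    simp
  have hN : ∀ v : X d, ‖Se n ε μ Y v‖ ^ 2 = ∑ i, ∑ j, ∑ k, M i j * M i k * (v j * v k) := by
    intro v
    rw [C5J_normsq]
    refine Finset.sum_congr rfl (fun i _ => ?_)
    rw [hSe, Finset.sum_mul_sum]
    refine Finset.sum_congr rfl (fun j _ => Finset.sum_congr rfl (fun k _ => ?_))
    ring
  obtain ⟨i5, e5⟩ := C5J_quad (n := n + 2) hε μ Y M (fun v => Se n ε μ Y v) hN
  obtain ⟨_, e7⟩ := C5J_quad (n := n + 4) hε μ Y M (fun v => Se n ε μ Y v) hN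
  refine ⟨i5, ?_⟩
  have hE7 : 0 ≤ ∑ i, ∑ j, ∑ k, M i j * M i k * A7 j k := by
    have h1 : 0 ≤ ∫ x, kr (n + 4 + 2) ε (Y - x) * ‖Se n ε μ Y (Y - x)‖ ^ 2 ∂μ :=
      integral_nonneg fun x => mul_nonneg (kr_nonneg _ _ _) (sq_nonneg _)
    rw [e7] at h1
    exact h1
  have e5' : ∫ x, kr (n + 4) ε (Y - x) * ‖Se n ε μ Y (Y - x)‖ ^ 2 ∂μ =
      ∑ i, ∑ j, ∑ k, M i j * M i k * A5 j k := e5
  rw [e5']
  set E5 : ℝ := ∑ i, ∑ j, ∑ k, M i j * M i k * A5 j k with hE5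
  set E7 : ℝ := ∑ i, ∑ j, ∑ k, M i j * M i k * A7 j k with hE7d
  set N2 : ℝ := ∑ i, ∑ j, M i j ^ 2 with hN2
  set Q : ℝ := ∑ i, ∑ j, ∑ k, R i j k Y ^ 2 with hQ
  set V : ℝ := ∑ i, ∑ j, ∑ k, M i j * (R i j k Y * W5 n ε μ k Y) with hV
  set U : ℝ := ∑ i, ∑ j, ∑ k, ∑ l, A k l * (R i j k Y * R i j l Y) with hU
  have hB0 : 0 ≤ B := integral_nonneg (fun x => kr_nonneg _ _ _)
  have hB50 : 0 ≤ B5 := integral_nonneg (fun x => kr_nonneg _ _ _)
  have hN0 : 0 ≤ N2 :=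
    Finset.sum_nonneg (fun i _ => Finset.sum_nonneg (fun j _ => sq_nonneg _))
  have hQ0 : 0 ≤ Q := Finset.sum_nonneg (fun i _ => Finset.sum_nonneg (fun j _ =>
    Finset.sum_nonneg (fun k _ => sq_nonneg _)))
  have hn1 : (0 : ℝ) < n + 1 := by positivity
  -- the square
  have hsq : 0 ≤ N2 * B + 2 * V + U := by
    have h1 : 0 ≤ ∑ i, ∑ j, (M i j ^ 2 * B + 2 * ∑ k, M i j * (R i j k Y * W5 n ε μ k Y) +
        ∑ k, ∑ l, A k l * (R i j k Y * R i j l Y)) :=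
      Finset.sum_nonneg (fun i _ => Finset.sum_nonneg (fun j _ =>
        C5J_sq hε μ Y (M i j) (fun k => R i j k Y)))
    have h2 : ∑ i, ∑ j, (M i j ^ 2 * B + 2 * ∑ k, M i j * (R i j k Y * W5 n ε μ k Y) +
        ∑ k, ∑ l, A k l * (R i j k Y * R i j l Y)) = N2 * B + 2 * V + U := by
      simp only [Finset.sum_add_distrib, hN2, hV, hU, Finset.sum_mul, Finset.mul_sum]
    rwa [h2] at h1
  -- the quartic sum
  have f1 : ∑ i, ∑ j, ∑ k, ∑ l, M k l * (R i j k Y * R i j l Y) = κ * Q - (n + 1) * U := by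
    simp only [hQ, hU, Finset.mul_sum]
    rw [← Finset.sum_sub_distrib]
    refine Finset.sum_congr rfl fun i _ => ?_
    rw [← Finset.sum_sub_distrib]
    refine Finset.sum_congr rfl fun j _ => ?_
    rw [← Finset.sum_sub_distrib]
    refine Finset.sum_congr rfl fun k _ => ?_
    have h1 : ∀ l, M k l * (R i j k Y * R i j l Y) =
        (if k = l then κ * (R i j k Y * R i j l Y) else 0) -
          (n + 1) * (A k l * (R i j k Y * R i j l Y)) := by
      intro l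
      simp only [hM]
      by_cases hkl : k = l
      · simp only [hkl, if_true]
        ring
      · simp only [hkl, if_false]
        ring
    simp only [h1, Finset.sum_sub_distrib, Finset.sum_ite_eq, Finset.mem_univ, if_true]
    ring
  -- the Hessian sum
  have f2 : ∑ i, ∑ j, ∑ k, H5 n ε μ i k Y * (M i j * M j k) =
      -(n + 1) * ((4 * B + (n + 3) * ε ^ 2 * B5) * N2) +
        (n + 1) * (n + 3) * (4 * E5 + (n + 5) * ε ^ 2 * E7) := by
    have g1 : ∀ F : Fin d → Fin d → ℝ, ∑ i, ∑ j, ∑ k, F i k * (M i j * M j k) =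
        ∑ i, ∑ j, ∑ k, M i j * M i k * F j k := by
      intro F
      rw [Finset.sum_comm]
      refine Finset.sum_congr rfl fun j _ => Finset.sum_congr rfl fun i _ =>
        Finset.sum_congr rfl fun k _ => ?_
      rw [hMs i j]
      ring
    rw [g1 (fun i k => H5 n ε μ i k Y)]
    have g2 : ∑ i, ∑ j, ∑ k, M i j * M i k * H5 n ε μ j k Y =
        ∑ i, ∑ j, ((-(n + 1) * (4 * B + (n + 3) * ε ^ 2 * B5)) * M i j ^ 2 +
          ((n + 1) * (n + 3) * 4) * (∑ k, M i j * M i k * A5 j k) +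
          ((n + 1) * (n + 3) * ((n + 5) * ε ^ 2)) * (∑ k, M i j * M i k * A7 j k)) := by
      refine Finset.sum_congr rfl fun i _ => Finset.sum_congr rfl fun j _ => ?_
      have h1 : ∀ k, M i j * M i k * H5 n ε μ j k Y =
          (if j = k then (-(n + 1) * (4 * B + (n + 3) * ε ^ 2 * B5)) * (M i j * M i k) else 0) +
          ((n + 1) * (n + 3) * 4) * (M i j * M i k * A5 j k) +
          ((n + 1) * (n + 3) * ((n + 5) * ε ^ 2)) * (M i j * M i k * A7 j k) := by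
        intro k
        rw [eH]
        by_cases hjk : j = k
        · simp only [hjk, if_true]
          ring
        · simp only [hjk, if_false]
          ring
      simp only [h1, Finset.sum_add_distrib, Finset.sum_ite_eq, Finset.mem_univ, if_true,
        ← Finset.mul_sum]
      ring
    rw [g2]
    simp only [Finset.sum_add_distrib, ← Finset.mul_sum]
    rw [← hN2, ← hE5, ← hE7d]
    ring
  have hP : P5 (fun i Y => ⟪EuclideanSpace.single i 1, Fe n ε μ Y⟫)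
        (fun i j Y => ⟪EuclideanSpace.single i 1, Se n ε μ Y (EuclideanSpace.single j 1)⟫) R
        (T5 n ε μ) (H5 n ε μ) Y =
      (∑ i, ∑ j, ∑ k, H5 n ε μ i k Y * (M i j * M j k)) + T5 n ε μ Y * Q -
        4 * ∑ i, ∑ j, ∑ k, ∑ l, M k l * (R i j k Y * R i j l Y) := by
    simp only [P5, hS, hQ]
  have hDD : D5 (fun i j Y =>
          ⟪EuclideanSpace.single i 1, Se n ε μ Y (EuclideanSpace.single j 1)⟫) R
        (W5 n ε μ) (DW5 n ε μ) Y = 2 * V + N2 * DW5 n ε μ Y := by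
    simp only [D5, hS, hV, hN2]
  rw [hP, hDD, f1, f2, eT, eD, eκ]
  exact C5J_fin n ε C B B5 Q U V N2 E5 E7 hE7 hB0 hB50 hQ0 hN0 hsq

end Pool.Agent.H1.LD
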