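import Pool.Agent.H1.C5.E
import Pool.Agent.H1.C5.B

/-!
Row F (template LD/CoF.lean).
-/

set_option autoImplicit false

open MeasureTheory Filter Topology Metric Set
open scoped RealInnerProductSpace ENNReal

namespace Pool.Agent.H1.LD

open Pool.Agent.RZ

variable {d : ℕ}

private theorem C5F_ball {n : ℕ} (hd : d = n + 5) :
    ∫⁻ Z in ball (0 : X d) 1, ENNReal.ofReal (‖Z‖⁻¹ ^ (n + 1)) < ⊤ := by
  have h : IntegrableOn (fun Z : X d => ‖Z‖⁻¹ ^ (n + 1)) (ball 0 1) volume := by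
    refine integrableOn_ball_of_norm_le_rpow (C := 1) (α := ((n + 1 : ℕ) : ℝ)) ?_ ?_ ?_ ?_
    · rw [finrank_euclideanSpace_fin]; omega
    · rw [finrank_euclideanSpace_fin, hd]; push_cast; linarith
    · refine ae_of_all _ fun x => le_of_eq ?_
      rw [Real.norm_of_nonneg (by positivity), one_mul, Real.rpow_neg (norm_nonneg x),
        Real.rpow_natCast, inv_pow]
    · exact (measurable_norm.inv.pow_const _).aestronglyMeasurable
  exact h.lintegral_lt_top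

private theorem C5F_meas (n : ℕ) :
    Measurable (fun p : X d × X d => ENNReal.ofReal (‖p.1 - p.2‖⁻¹ ^ (n + 1))) :=
  ENNReal.measurable_ofReal.comp
    (((measurable_fst.sub measurable_snd).norm.inv).pow_const _)

private theorem C5F_ae {n : ℕ} (hd : d = n + 5) (μ : Measure (X d)) [IsFiniteMeasure μ] :
    ∀ᵐ Y : X d, ∫⁻ x, ENNReal.ofReal (‖Y - x‖⁻¹ ^ (n + 1)) ∂μ < ⊤ := by
  have hm := C5F_meas (d := d) n
  have hN : ∀ N : ℕ, ∀ᵐ Y ∂((volume : Measure (X d)).restrict (closedBall (0 : X d) N)),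
      ∫⁻ x, ENNReal.ofReal (‖Y - x‖⁻¹ ^ (n + 1)) ∂μ < ⊤ := by
    intro N
    refine ae_lt_top (hm.lintegral_prod_right') ?_
    rw [lintegral_lintegral_swap hm.aemeasurable]
    set K : ℝ≥0∞ := ∫⁻ Z in ball (0 : X d) 1, ENNReal.ofReal (‖Z‖⁻¹ ^ (n + 1)) with hK
    have hK' : K < ⊤ := C5F_ball hd
    have hb : ∀ x : X d, ∫⁻ Y in closedBall (0 : X d) N,
        ENNReal.ofReal (‖Y - x‖⁻¹ ^ (n + 1)) ≤ K + volume (closedBall (0 : X d) N) := by
      intro x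
      set h : X d → ℝ≥0∞ :=
        (ball (0 : X d) 1).indicator fun Z => ENNReal.ofReal (‖Z‖⁻¹ ^ (n + 1)) with hh
      have hhm : Measurable h := by
        refine Measurable.indicator ?_ measurableSet_ball
        exact ENNReal.measurable_ofReal.comp ((measurable_norm.inv).pow_const _)
      have h1 : ∀ Y : X d, ENNReal.ofReal (‖Y - x‖⁻¹ ^ (n + 1)) ≤ h (Y - x) + 1 := by
        intro Y
        by_cases hY : Y - x ∈ ball (0 : X d) 1
        · rw [hh, indicator_of_mem hY]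
          exact le_self_add
        · rw [hh, indicator_of_notMem hY, zero_add]
          rw [mem_ball_zero_iff, not_lt] at hY
          rw [← ENNReal.ofReal_one]
          refine ENNReal.ofReal_le_ofReal ?_
          exact pow_le_one₀ (by positivity) (inv_le_one_of_one_le₀ hY)
      calc ∫⁻ Y in closedBall (0 : X d) N, ENNReal.ofReal (‖Y - x‖⁻¹ ^ (n + 1))
          ≤ ∫⁻ Y in closedBall (0 : X d) N, (h (Y - x) + 1) := lintegral_mono h1
        _ = (∫⁻ Y in closedBall (0 : X d) N, h (Y - x)) + ∫⁻ _ in closedBall (0 : X d) N, 1 :=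
            lintegral_add_right _ measurable_const
        _ ≤ (∫⁻ Y : X d, h (Y - x)) + volume (closedBall (0 : X d) N) := by
            refine add_le_add (setLIntegral_le_lintegral _ _) ?_
            rw [setLIntegral_one]
        _ = K + volume (closedBall (0 : X d) N) := by
            rw [lintegral_sub_right_eq_self h x, hh, lintegral_indicator measurableSet_ball]
    refine ne_of_lt (lt_of_le_of_lt (lintegral_mono hb) ?_)
    rw [lintegral_const]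
    exact ENNReal.mul_lt_top (ENNReal.add_lt_top.2 ⟨hK', measure_closedBall_lt_top⟩)
      (measure_lt_top _ _)
  have h2 := (ae_restrict_iUnion_iff (fun N : ℕ => closedBall (0 : X d) N)
    (fun Y => ∫⁻ x, ENNReal.ofReal (‖Y - x‖⁻¹ ^ (n + 1)) ∂μ < ⊤)).2 hN
  rwa [iUnion_closedBall_nat, Measure.restrict_univ] at h2

private theorem C5F_kr (n : ℕ) {z : X d} (hz : z ≠ 0) {ε : ℕ → ℝ}
    (hlim : Tendsto ε atTop (𝓝 0)) :
    Tendsto (fun k => kr n (ε k) z) atTop (𝓝 (kr n 0 z)) := by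
  have hz' : 0 < ‖z‖ := norm_pos_iff.2 hz
  have h : Tendsto (fun k => Real.sqrt (‖z‖ ^ 2 + ε k ^ 2)) atTop
      (𝓝 (Real.sqrt (‖z‖ ^ 2 + 0 ^ 2))) :=
    (Real.continuous_sqrt.tendsto _).comp ((hlim.pow 2).const_add _)
  have hne : Real.sqrt (‖z‖ ^ 2 + 0 ^ 2) ≠ 0 := by
    have : 0 < ‖z‖ ^ 2 + 0 ^ 2 := by positivity
    exact (Real.sqrt_pos.2 this).ne'
  exact (h.inv₀ hne).pow (n + 1)

private theorem C5F_dK_le (n : ℕ) (ε : ℝ) {Z : X d} (hZ : Z ≠ 0) (v : X d) :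
    ‖dK n ε Z v‖ ≤ (n + 2) * ‖Z‖⁻¹ ^ (n + 1) * ‖v‖ := by
  have hZ' : 0 < ‖Z‖ := norm_pos_iff.2 hZ
  have h1 := kr_le_norm n ε hZ
  have h2 := kr_le_norm (n + 2) ε hZ
  have h0 := kr_nonneg n ε Z
  have h0' := kr_nonneg (n + 2) ε Z
  have hi : |⟪Z, v⟫| ≤ ‖Z‖ * ‖v‖ := abs_real_inner_le_norm Z v
  unfold dK
  calc ‖kr n ε Z • v - ((n + 1) * (kr (n + 2) ε Z * ⟪Z, v⟫)) • Z‖
      ≤ ‖kr n ε Z • v‖ + ‖((n + 1) * (kr (n + 2) ε Z * ⟪Z, v⟫)) • Z‖ := norm_sub_le _ _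
    _ = kr n ε Z * ‖v‖ + (n + 1) * (kr (n + 2) ε Z * |⟪Z, v⟫|) * ‖Z‖ := by
        rw [norm_smul, norm_smul, Real.norm_eq_abs, Real.norm_eq_abs, abs_of_nonneg h0, abs_mul,
          abs_mul, abs_of_nonneg h0']
        rw [abs_of_nonneg (by positivity : (0 : ℝ) ≤ n + 1)]
    _ ≤ ‖Z‖⁻¹ ^ (n + 1) * ‖v‖ +
        (n + 1) * (‖Z‖⁻¹ ^ (n + 2 + 1) * (‖Z‖ * ‖v‖)) * ‖Z‖ := by
        gcongr
    _ = (n + 2) * ‖Z‖⁻¹ ^ (n + 1) * ‖v‖ := by
        have e : ‖Z‖⁻¹ ^ (n + 2 + 1) * (‖Z‖ * ‖v‖) * ‖Z‖ = ‖Z‖⁻¹ ^ (n + 1) * ‖v‖ := by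
          have h3 : ‖Z‖⁻¹ * ‖Z‖ = 1 := inv_mul_cancel₀ hZ'.ne'
          calc ‖Z‖⁻¹ ^ (n + 2 + 1) * (‖Z‖ * ‖v‖) * ‖Z‖
              = ‖Z‖⁻¹ ^ (n + 1) * ‖v‖ * ((‖Z‖⁻¹ * ‖Z‖) * (‖Z‖⁻¹ * ‖Z‖)) := by ring
            _ = ‖Z‖⁻¹ ^ (n + 1) * ‖v‖ := by rw [h3]; ring
        calc ‖Z‖⁻¹ ^ (n + 1) * ‖v‖ + (n + 1) * (‖Z‖⁻¹ ^ (n + 2 + 1) * (‖Z‖ * ‖v‖)) * ‖Z‖
            = ‖Z‖⁻¹ ^ (n + 1) * ‖v‖ +
              (n + 1) * (‖Z‖⁻¹ ^ (n + 2 + 1) * (‖Z‖ * ‖v‖) * ‖Z‖) := by ring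
          _ = (n + 2) * ‖Z‖⁻¹ ^ (n + 1) * ‖v‖ := by rw [e]; ring

private theorem C5F_dK_cont (n : ℕ) {ε : ℝ} (hε : 0 < ε) {T : Type*} [TopologicalSpace T]
    {f g : T → X d} (hf : Continuous f) (hg : Continuous g) :
    Continuous (fun p : T => dK n ε (f p) (g p)) := by
  unfold dK
  have h1 : Continuous (fun p : T => kr n ε (f p)) := (kr_continuous n hε).comp hf
  have h2 : Continuous (fun p : T => kr (n + 2) ε (f p)) := (kr_continuous (n + 2) hε).comp hf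
  exact (h1.smul hg).sub ((continuous_const.mul (h2.mul (hf.inner hg))).smul hf)

private theorem C5F_Se {n : ℕ} {μ : Measure (X d)} [IsFiniteMeasure μ] (hs : ∀ x, μ {x} = 0)
    {Y : X d} (hY : ∫⁻ x, ENNReal.ofReal (‖Y - x‖⁻¹ ^ (n + 1)) ∂μ < ⊤) (v : X d) {ε : ℕ → ℝ}
    (hε : ∀ k, 0 < ε k) (hlim : Tendsto ε atTop (𝓝 0)) :
    Tendsto (fun k => Se n (ε k) μ Y v) atTop (𝓝 (Se n 0 μ Y v)) := by
  have hne : ∀ᵐ x ∂μ, Y - x ≠ 0 := by
    have h1 : ∀ᵐ x ∂μ, x ∉ ({Y} : Set (X d)) := measure_eq_zero_iff_ae_notMem.1 (hs Y)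
    filter_upwards [h1] with x hx h
    exact hx (by rw [mem_singleton_iff]; exact (sub_eq_zero.1 h).symm)
  have hint : Integrable (fun x => ‖Y - x‖⁻¹ ^ (n + 1)) μ := by
    refine ⟨((measurable_const.sub measurable_id).norm.inv.pow_const _).aestronglyMeasurable, ?_⟩
    rw [hasFiniteIntegral_iff_ofReal (ae_of_all _ fun x => by positivity)]
    exact hY
  unfold Se
  refine tendsto_integral_of_dominated_convergence
    (fun x => (n + 2) * ‖Y - x‖⁻¹ ^ (n + 1) * ‖v‖) ?_ ?_ ?_ ?_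
  · intro k
    have h1 : Continuous (fun x : X d => dK n (ε k) (Y - x) v) :=
      C5F_dK_cont n (hε k) (continuous_const.sub continuous_id) continuous_const
    exact h1.aestronglyMeasurable
  · exact (hint.const_mul _).mul_const _
  · intro k
    filter_upwards [hne] with x hx
    exact C5F_dK_le n (ε k) hx v
  · filter_upwards [hne] with x hx
    unfold dK
    exact ((C5F_kr n hx hlim).smul_const v).sub
      ((((C5F_kr (n + 2) hx hlim).mul_const _).const_mul _).smul_const _)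

private theorem C5F_measF (n : ℕ) (μ : Measure (X d)) [IsFiniteMeasure μ] {ε : ℝ} (hε : 0 < ε) :
    Measurable (fun p : X d × X d =>
      ENNReal.ofReal (kr (n + 4) ε (p.2 - p.1) * ‖Se n ε μ p.2 (p.2 - p.1)‖ ^ 2)) := by
  have h1 : Continuous (fun q : (X d × X d) × X d => dK n ε (q.1.2 - q.2) (q.1.2 - q.1.1)) :=
    C5F_dK_cont n hε ((continuous_snd.comp continuous_fst).sub continuous_snd)
      ((continuous_snd.comp continuous_fst).sub (continuous_fst.comp continuous_fst))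
  have h2 : StronglyMeasurable (fun p : X d × X d => Se n ε μ p.2 (p.2 - p.1)) := by
    unfold Se
    exact h1.stronglyMeasurable.integral_prod_right'
  have h3 : Measurable (fun p : X d × X d => kr (n + 4) ε (p.2 - p.1)) :=
    ((kr_continuous (n + 4) hε).comp (continuous_snd.sub continuous_fst)).measurable
  exact ENNReal.measurable_ofReal.comp (h3.mul (h2.measurable.norm.pow_const 2))

private theorem C5F_limF {n : ℕ} (hd : d = n + 5) {μ : Measure (X d)} [IsFiniteMeasure μ]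
    (hs : ∀ x, μ {x} = 0) {ε : ℕ → ℝ} (hε : ∀ k, 0 < ε k) (hlim : Tendsto ε atTop (𝓝 0))
    (z : X d) : ∀ᵐ Y : X d, Tendsto (fun k =>
        ENNReal.ofReal (kr (n + 4) (ε k) (Y - z) * ‖Se n (ε k) μ Y (Y - z)‖ ^ 2)) atTop
      (𝓝 (ENNReal.ofReal (kr (n + 4) 0 (Y - z)) * ‖Se n 0 μ Y (Y - z)‖ₑ ^ 2)) := by
  have hne : ∀ᵐ Y : X d, Y ≠ z := by
    have : Nonempty (Fin d) := ⟨⟨0, by omega⟩⟩
    have : Nontrivial (X d) := inferInstance
    have h1 : (volume : Measure (X d)) {z} = 0 := measure_singleton z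
    have h2 := measure_eq_zero_iff_ae_notMem.1 h1
    filter_upwards [h2] with Y hY h
    exact hY (mem_singleton_iff.2 h)
  filter_upwards [hne, C5F_ae hd μ] with Y h1 h2
  have h3 := C5F_Se hs h2 (Y - z) hε hlim
  have h4 := C5F_kr (n + 4) (sub_ne_zero.2 h1) hlim
  have h5 := (ENNReal.continuous_ofReal.tendsto _).comp (h4.mul ((h3.norm).pow 2))
  have h6 : ENNReal.ofReal (kr (n + 4) 0 (Y - z) * ‖Se n 0 μ Y (Y - z)‖ ^ 2) =
      ENNReal.ofReal (kr (n + 4) 0 (Y - z)) * ‖Se n 0 μ Y (Y - z)‖ₑ ^ 2 := by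
    rw [ENNReal.ofReal_mul (kr_nonneg _ _ _), ENNReal.ofReal_pow (norm_nonneg _), ofReal_norm]
  rw [← h6]
  exact h5

private theorem C5F_fatou {F : ℕ → X d → X d → ℝ≥0∞} {G : X d → X d → ℝ≥0∞}
    {μ : Measure (X d)} {C : ℝ≥0∞}
    (hmeas : ∀ k, Measurable (fun p : X d × X d => F k p.1 p.2))
    (hlim : ∀ z, ∀ᵐ Y : X d, Tendsto (fun k => F k z Y) atTop (𝓝 (G z Y)))
    (hC : ∀ k, ∫⁻ z, (∫⁻ Y, F k z Y) ∂μ ≤ C) : ∫⁻ z, (∫⁻ Y, G z Y) ∂μ ≤ C := by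
  calc ∫⁻ z, (∫⁻ Y, G z Y) ∂μ
      = ∫⁻ z, (∫⁻ Y, liminf (fun k => F k z Y) atTop) ∂μ :=
        lintegral_congr fun z => lintegral_congr_ae
          ((hlim z).mono fun Y h => h.liminf_eq.symm)
    _ ≤ ∫⁻ z, liminf (fun k => ∫⁻ Y, F k z Y) atTop ∂μ :=
        lintegral_mono fun z => lintegral_liminf_le fun k =>
          (hmeas k).comp measurable_prodMk_left
    _ ≤ liminf (fun k => ∫⁻ z, (∫⁻ Y, F k z Y) ∂μ) atTop :=
        lintegral_liminf_le fun k => (hmeas k).lintegral_prod_right'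
    _ ≤ liminf (fun _ : ℕ => C) atTop := liminf_le_liminf (Eventually.of_forall hC)
    _ = C := liminf_const _

theorem co5_carleson {n : ℕ} (hn : 1 ≤ n) (hd : d = n + 5) {μ : Measure (X d)} [IsFiniteMeasure μ]
    {A : ℝ} (hA : μ (closedBall 0 A)ᶜ = 0) {C₀ : ℝ} (hC₀ : 0 ≤ C₀) (hg : Gr n C₀ μ)
    (hE : En n μ) :
    ∫⁻ z, (∫⁻ Y, ENNReal.ofReal (kr (n + 4) 0 (Y - z)) * ‖Se n 0 μ Y (Y - z)‖ₑ ^ 2) ∂μ < ⊤ := by
  obtain ⟨B, hB⟩ := co5_bound hn hd hC₀ hg hE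
  have hs : ∀ x, μ {x} = 0 := fun x => hg.singleton hn x
  have hε : ∀ k : ℕ, 0 < 1 / ((k : ℝ) + 1) := fun k => by positivity
  have hlim : Tendsto (fun k : ℕ => 1 / ((k : ℝ) + 1)) atTop (𝓝 0) :=
    tendsto_one_div_add_atTop_nhds_zero_nat
  refine lt_of_le_of_lt (C5F_fatou
    (C := ENNReal.ofReal ((n + 5) * (n + 7) * (n + 9) / 4) * ENNReal.ofReal B)
    (fun k => C5F_measF n μ (hε k)) (C5F_limF hd hs hε hlim) fun k => ?_) ?_
  · exact (co5_energy hn hd (hε k) μ hA).trans (mul_le_mul_right (hB _ (hε k)) _)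
  · exact ENNReal.mul_lt_top ENNReal.ofReal_lt_top ENNReal.ofReal_lt_top

end Pool.Agent.H1.LD
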