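import Pool.Agent.H1.C5.T
import Pool.Agent.H1.LD.Pad

/-!
Codimension at most five: zero padding.
-/

set_option autoImplicit false

open MeasureTheory Filter Topology Metric Set
open scoped RealInnerProductSpace ENNReal

namespace Pool.Agent.H1.LD

open Pool.Agent.RZ

variable {d : ℕ}

theorem dich_codim5 {n : ℕ} (hn : 1 ≤ n) (hd : d ≤ n + 5) {μ : Measure (X d)}
    [IsFiniteMeasure μ] {A : ℝ} (hA : μ (closedBall 0 A)ᶜ = 0) {C₀ : ℝ} (hC₀ : 0 ≤ C₀)
    (hg : Gr n C₀ μ) (hE : En n μ) : Dich n μ := by
  have hpm : Measurable (pad (n + 5) : X d → X (n + 5)) := (pad_continuous (n + 5)).measurable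
  have hfin : IsFiniteMeasure (μ.map (pad (n + 5))) := by
    refine ⟨?_⟩
    rw [Measure.map_apply hpm MeasurableSet.univ, preimage_univ]
    exact measure_lt_top _ _
  have hA' : (μ.map (pad (n + 5))) (closedBall 0 A)ᶜ = 0 := by
    rw [Measure.map_apply hpm measurableSet_closedBall.compl]
    refine measure_mono_null ?_ hA
    intro x hx
    simp only [mem_preimage, mem_compl_iff, mem_closedBall, dist_zero_right] at hx ⊢
    rwa [pad_norm hd] at hx
  exact pad_dich hd (dich_co5 hn rfl hA' (by positivity) (pad_growth hd hC₀ hg) (pad_energy hd hE))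

end Pool.Agent.H1.LD
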