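import Pool.Agent.H1.C5.D0

/-!
Row H1 (template LD/CoH1.lean, claim1).  χ(Y) = ga 4 (Y-y), w = Y-y, ρ = |w|^2: Lap χ = (64ρ-8d)χ, Lap^2 χ = 64(64ρ^2 - 16(d+2)ρ + d(d+2))χ, Vv5 = grad Lap^2 χ.
 ∫ <Vv5, kr n Z> = -∫ (Lap^2 χ) T, T = div(kr n Z) = 4 kr n + (n+1) ε^2 kr(n+2); integrate by parts four times:
 = -∫ χ Lap^2 T = -(n+1)(n+3)(n+5)(n+7)(n+9) ∫ χ ε^6 kr(n+10).
 Gradients: grad T = -(n+1)[4 kr(n+2) + (n+3)ε^2 kr(n+4)] Z, Lap T = -(n+1)[8 kr(n+2) + 4(n+3)ε^2 kr(n+4) + (n+3)(n+5)ε^4 kr(n+6)],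
 grad Lap T = (n+1)(n+3)[8 kr(n+4) + 4(n+5) ε^2 kr(n+6) + (n+5)(n+7) ε^4 kr(n+8)] Z, div of it = (n+1)(n+3)(n+5)(n+7)(n+9) ε^6 kr(n+10).
-/

set_option autoImplicit false

open MeasureTheory Filter Topology Metric Set
open scoped RealInnerProductSpace ENNReal

namespace Pool.Agent.H1.LD

open Pool.Agent.RZ

variable {d : ℕ}

/-- continuous and of polynomial growth -/
private def C5H1_P {E : Type*} [NormedAddCommGroup E] (y : X d) (F : X d → E) : Prop :=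
  Continuous F ∧ ∃ C : ℝ, ∃ m : ℕ, 0 ≤ C ∧ ∀ Y, ‖F Y‖ ≤ C * (1 + ‖Y - y‖) ^ m

/-- `f'` is the gradient of `f` -/
private def C5H1_G (f : X d → ℝ) (f' : X d → X d) : Prop :=
  ∀ Y v : X d, HasDerivAt (fun t : ℝ => f (Y + t • v)) ⟪f' Y, v⟫ 0

private theorem C5H1_one (y Y : X d) : (1 : ℝ) ≤ 1 + ‖Y - y‖ := by
  have := norm_nonneg (Y - y)
  linarith

private theorem C5H1_P_add {E : Type*} [NormedAddCommGroup E] {y : X d} {F G : X d → E} (hF : C5H1_P y F)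
    (hG : C5H1_P y G) : C5H1_P y (fun Y => F Y + G Y) := by
  obtain ⟨cF, C, m, hC, hb⟩ := hF
  obtain ⟨cG, C', m', hC', hb'⟩ := hG
  refine ⟨cF.add cG, C + C', m + m', by positivity, fun Y => ?_⟩
  have h1 := C5H1_one y Y
  have h2 : (1 + ‖Y - y‖) ^ m ≤ (1 + ‖Y - y‖) ^ (m + m') := pow_le_pow_right₀ h1 (Nat.le_add_right _ _)
  have h3 : (1 + ‖Y - y‖) ^ m' ≤ (1 + ‖Y - y‖) ^ (m + m') := pow_le_pow_right₀ h1 (Nat.le_add_left _ _)
  calc ‖F Y + G Y‖ ≤ ‖F Y‖ + ‖G Y‖ := norm_add_le _ _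
    _ ≤ C * (1 + ‖Y - y‖) ^ (m + m') + C' * (1 + ‖Y - y‖) ^ (m + m') :=
        add_le_add ((hb Y).trans (mul_le_mul_of_nonneg_left h2 hC)) ((hb' Y).trans (mul_le_mul_of_nonneg_left h3 hC'))
    _ = _ := by ring

private theorem C5H1_P_prod {E E' E'' : Type*} [NormedAddCommGroup E] [NormedAddCommGroup E'] [NormedAddCommGroup E'']
    {y : X d} {F : X d → E} {G : X d → E'} {H : X d → E''} (hF : C5H1_P y F) (hG : C5H1_P y G) (hc : Continuous H)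
    (hH : ∀ Y, ‖H Y‖ ≤ ‖F Y‖ * ‖G Y‖) : C5H1_P y H := by
  obtain ⟨_, C, m, hC, hb⟩ := hF
  obtain ⟨_, C', m', hC', hb'⟩ := hG
  refine ⟨hc, C * C', m + m', by positivity, fun Y => ?_⟩
  have h1 := C5H1_one y Y
  calc ‖H Y‖ ≤ ‖F Y‖ * ‖G Y‖ := hH Y
    _ ≤ (C * (1 + ‖Y - y‖) ^ m) * (C' * (1 + ‖Y - y‖) ^ m') := mul_le_mul (hb Y) (hb' Y) (norm_nonneg _) (by positivity)
    _ = _ := by rw [pow_add]; ring

private theorem C5H1_P_smul {E : Type*} [NormedAddCommGroup E] [NormedSpace ℝ E] {y : X d} {F : X d → ℝ} {G : X d → E}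
    (hF : C5H1_P y F) (hG : C5H1_P y G) : C5H1_P y (fun Y => F Y • G Y) :=
  C5H1_P_prod hF hG (hF.1.smul hG.1) fun _ => (norm_smul _ _).le

private theorem C5H1_P_mul {y : X d} {F G : X d → ℝ} (hF : C5H1_P y F) (hG : C5H1_P y G) : C5H1_P y (fun Y => F Y * G Y) :=
  C5H1_P_smul hF hG

private theorem C5H1_P_inner {E : Type*} [NormedAddCommGroup E] [InnerProductSpace ℝ E] {y : X d} {F G : X d → E}
    (hF : C5H1_P y F) (hG : C5H1_P y G) : C5H1_P y (fun Y => ⟪F Y, G Y⟫) :=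
  C5H1_P_prod hF hG (hF.1.inner hG.1) fun _ => norm_inner_le_norm _ _

private theorem C5H1_P_const {E : Type*} [NormedAddCommGroup E] {y : X d} (c : E) : C5H1_P y (fun _ => c) :=
  ⟨continuous_const, ‖c‖, 0, norm_nonneg _, fun _ => by simp⟩

private theorem C5H1_P_sub {y : X d} (p : X d) : C5H1_P y (fun Y => Y - p) := by
  refine ⟨continuous_id.sub continuous_const, 1 + ‖y - p‖, 1, by positivity, fun Y => ?_⟩
  have h1 : ‖Y - p‖ ≤ ‖Y - y‖ + ‖y - p‖ := by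
    have := norm_add_le (Y - y) (y - p)
    rwa [sub_add_sub_cancel] at this
  have h2 := norm_nonneg (Y - y)
  have h3 := norm_nonneg (y - p)
  nlinarith [mul_nonneg h2 h3]

private theorem C5H1_P_kr {y : X d} (m : ℕ) {ε : ℝ} (hε : 0 < ε) (x : X d) : C5H1_P y (fun Y => kr m ε (Y - x)) := by
  refine ⟨(kr_continuous m hε).comp (continuous_id.sub continuous_const), ε⁻¹ ^ (m + 1), 0, by positivity, fun Y => ?_⟩
  rw [Real.norm_of_nonneg (kr_nonneg _ _ _), pow_zero, mul_one]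
  exact kr_le_eps m hε _

private theorem C5H1_P_nsq {y : X d} (p : X d) : C5H1_P y (fun Y => ‖Y - p‖ ^ 2) := by
  have h := C5H1_P_inner (C5H1_P_sub (y := y) p) (C5H1_P_sub (y := y) p)
  simpa only [real_inner_self_eq_norm_sq] using h

private theorem C5H1_int {E : Type*} [NormedAddCommGroup E] [NormedSpace ℝ E] {y : X d} {F : X d → E} (hF : C5H1_P y F) :
    Integrable (fun Y => ga 4 (Y - y) • F Y) := by
  obtain ⟨cF, C, m, hC, hb⟩ := hF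
  have h1 := ((ga_integrable (d := d) (b := 4) (by norm_num) m).comp_sub_right y).const_mul C
  refine h1.mono' ?_ (Eventually.of_forall fun Y => ?_)
  · exact (((ga_continuous 4).comp (continuous_id.sub continuous_const)).smul cF).aestronglyMeasurable
  · rw [norm_smul, Real.norm_of_nonneg (ga_nonneg 4 _)]
    calc ga 4 (Y - y) * ‖F Y‖ ≤ ga 4 (Y - y) * (C * (1 + ‖Y - y‖) ^ m) :=
          mul_le_mul_of_nonneg_left (hb Y) (ga_nonneg 4 _)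
      _ = C * ((1 + ‖Y - y‖) ^ m * ga 4 (Y - y)) := by ring

private theorem C5H1_intr {y : X d} {F : X d → ℝ} (hF : C5H1_P y F) : Integrable (fun Y => ga 4 (Y - y) * F Y) :=
  C5H1_int hF

private theorem C5H1_congr {f : X d → ℝ} {f' g' : X d → X d} (h : C5H1_G f f') (hg : ∀ Y, f' Y = g' Y) : C5H1_G f g' := by
  intro Y v
  rw [← hg Y]
  exact h Y v

private theorem C5H1_mul {f g : X d → ℝ} {f' g' : X d → X d} (hf : C5H1_G f f') (hg : C5H1_G g g') :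
    C5H1_G (fun Y => f Y * g Y) (fun Y => f Y • g' Y + g Y • f' Y) := by
  intro Y v
  have h := (hf Y v).mul (hg Y v)
  refine h.congr_deriv ?_
  rw [inner_add_left, real_inner_smul_left, real_inner_smul_left, zero_smul, add_zero]
  ring

private theorem C5H1_add {f g : X d → ℝ} {f' g' : X d → X d} (hf : C5H1_G f f') (hg : C5H1_G g g') :
    C5H1_G (fun Y => f Y + g Y) (fun Y => f' Y + g' Y) := by
  intro Y v
  have h := (hf Y v).add (hg Y v)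
  refine h.congr_deriv ?_
  rw [inner_add_left]

private theorem C5H1_cmul {f : X d → ℝ} {f' : X d → X d} (c : ℝ) (hf : C5H1_G f f') :
    C5H1_G (fun Y => c * f Y) (fun Y => c • f' Y) := by
  intro Y v
  have h := (hf Y v).const_mul c
  refine h.congr_deriv ?_
  rw [real_inner_smul_left]

private theorem C5H1_const (c : ℝ) : C5H1_G (fun _ : X d => c) (fun _ => 0) := by
  intro Y v
  refine (hasDerivAt_const (0 : ℝ) c).congr_deriv ?_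
  rw [inner_zero_left]

private theorem C5H1_line (p Y v : X d) : HasDerivAt (fun t : ℝ => Y + t • v - p) v 0 := by
  have h2 : HasDerivAt (fun t : ℝ => t • v) ((1 : ℝ) • v) 0 := (hasDerivAt_id (0 : ℝ)).smul_const v
  rw [one_smul] at h2
  exact (h2.const_add Y).sub_const p

private theorem C5H1_nsq (p : X d) : C5H1_G (fun Y => ‖Y - p‖ ^ 2) (fun Y => (2 : ℝ) • (Y - p)) := by
  intro Y v
  refine (C5H1_line p Y v).norm_sq.congr_deriv ?_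
  rw [real_inner_smul_left, zero_smul, add_zero]

private theorem C5H1_lin (p e : X d) : C5H1_G (fun Y => ⟪Y - p, e⟫) (fun _ => e) := by
  intro Y v
  have h := (C5H1_line p Y v).inner ℝ (hasDerivAt_const (0 : ℝ) e)
  refine h.congr_deriv ?_
  rw [inner_zero_right, zero_add, real_inner_comm]

private theorem C5H1_ga (y : X d) : C5H1_G (fun Y => ga 4 (Y - y)) (fun Y => (-8 * ga 4 (Y - y)) • (Y - y)) := by
  intro Y v
  have h1 : HasDerivAt (fun t : ℝ => -(4 * ‖Y + t • v - y‖ ^ 2)) (-(4 * ⟪(2 : ℝ) • (Y - y), v⟫)) 0 :=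
    ((C5H1_nsq y Y v).const_mul 4).neg
  have h : HasDerivAt (fun t : ℝ => ga 4 (Y + t • v - y))
      (Real.exp (-(4 * ‖Y + (0 : ℝ) • v - y‖ ^ 2)) * (-(4 * ⟪(2 : ℝ) • (Y - y), v⟫))) 0 := h1.exp
  refine h.congr_deriv ?_
  rw [real_inner_smul_left, real_inner_smul_left, zero_smul, add_zero]
  unfold ga
  ring

private theorem C5H1_kr (m : ℕ) {ε : ℝ} (hε : 0 < ε) (x : X d) :
    C5H1_G (fun Y => kr m ε (Y - x)) (fun Y => (-(m + 1) * kr (m + 2) ε (Y - x)) • (Y - x)) := by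
  intro Y v
  have hpos : ∀ Z : X d, 0 < ‖Z‖ ^ 2 + ε ^ 2 := fun Z => by positivity
  have h1 : HasDerivAt (fun t : ℝ => ‖Y + t • v - x‖ ^ 2 + ε ^ 2) ⟪(2 : ℝ) • (Y - x), v⟫ 0 :=
    (C5H1_nsq x Y v).add_const (ε ^ 2)
  have h0 : ‖Y + (0 : ℝ) • v - x‖ ^ 2 + ε ^ 2 = ‖Y - x‖ ^ 2 + ε ^ 2 := by rw [zero_smul, add_zero]
  have hs : 0 < Real.sqrt (‖Y - x‖ ^ 2 + ε ^ 2) := Real.sqrt_pos.2 (hpos _)
  have h2 : HasDerivAt (fun t : ℝ => Real.sqrt (‖Y + t • v - x‖ ^ 2 + ε ^ 2))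
      (⟪(2 : ℝ) • (Y - x), v⟫ / (2 * Real.sqrt (‖Y + (0 : ℝ) • v - x‖ ^ 2 + ε ^ 2))) 0 :=
    h1.sqrt (by rw [h0]; exact (hpos _).ne')
  have h3 : HasDerivAt (fun t : ℝ => (Real.sqrt (‖Y + t • v - x‖ ^ 2 + ε ^ 2))⁻¹)
      (-(⟪(2 : ℝ) • (Y - x), v⟫ / (2 * Real.sqrt (‖Y + (0 : ℝ) • v - x‖ ^ 2 + ε ^ 2))) /
        Real.sqrt (‖Y + (0 : ℝ) • v - x‖ ^ 2 + ε ^ 2) ^ 2) 0 := h2.inv (by rw [h0]; exact hs.ne')
  have h4 : HasDerivAt (fun t : ℝ => kr m ε (Y + t • v - x))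
      (((m + 1 : ℕ) : ℝ) * (Real.sqrt (‖Y + (0 : ℝ) • v - x‖ ^ 2 + ε ^ 2))⁻¹ ^ (m + 1 - 1) *
        (-(⟪(2 : ℝ) • (Y - x), v⟫ / (2 * Real.sqrt (‖Y + (0 : ℝ) • v - x‖ ^ 2 + ε ^ 2))) /
        Real.sqrt (‖Y + (0 : ℝ) • v - x‖ ^ 2 + ε ^ 2) ^ 2)) 0 := h3.pow (m + 1)
  refine h4.congr_deriv ?_
  rw [h0, real_inner_smul_left, real_inner_smul_left]
  unfold kr
  set S := Real.sqrt (‖Y - x‖ ^ 2 + ε ^ 2) with hS
  have hne : S ≠ 0 := hs.ne'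
  simp only [Nat.add_sub_cancel, Nat.cast_add, Nat.cast_one, inv_pow]
  rw [show m + 2 + 1 = m + 3 by ring, pow_add S m 3]
  field_simp

private theorem C5H1_kr_rel (m : ℕ) {ε : ℝ} (hε : 0 < ε) (Z : X d) :
    kr m ε Z = kr (m + 2) ε Z * (‖Z‖ ^ 2 + ε ^ 2) := by
  have hpos : 0 < ‖Z‖ ^ 2 + ε ^ 2 := by positivity
  unfold kr
  have hs : 0 < Real.sqrt (‖Z‖ ^ 2 + ε ^ 2) := Real.sqrt_pos.2 hpos
  have h2 : ‖Z‖ ^ 2 + ε ^ 2 = Real.sqrt (‖Z‖ ^ 2 + ε ^ 2) ^ 2 := (Real.sq_sqrt hpos.le).symm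
  conv_rhs => rw [h2]
  rw [Real.sqrt_sq hs.le]
  set S := Real.sqrt (‖Z‖ ^ 2 + ε ^ 2) with hS
  have hne : S ≠ 0 := hs.ne'
  rw [show m + 2 + 1 = m + 1 + 2 by ring, pow_add _ (m + 1) 2, mul_assoc, ← mul_pow, inv_mul_cancel₀ hne, one_pow, mul_one]

private theorem C5H1_zero {g g' : X d → ℝ} {v : X d} (hd : ∀ Y, HasDerivAt (fun t : ℝ => g (Y + t • v)) (g' Y) 0)
    (hg : Integrable g) (hg' : Integrable g') : ∫ Y, g' Y = 0 := by
  have h := integral_bilinear_hasLineDerivAt_right_eq_neg_left_of_integrable (μ := (volume : Measure (X d)))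
    (f := fun _ : X d => (1 : ℝ)) (f' := fun _ => (0 : ℝ)) (g := g) (g' := g') (v := v)
    (B := ContinuousLinearMap.mul ℝ ℝ) (by simp) (by simpa using hg') (by simpa using hg)
    (fun x _ => hasDerivAt_const (0 : ℝ) (1 : ℝ)) (fun x _ => hd x)
  simpa using h

private theorem C5H1_euler {y p : X d} {F : X d → ℝ} {F' : X d → X d} (hG : C5H1_G F F') (hF : C5H1_P y F)
    (hF' : C5H1_P y F') :
    Integrable (fun Y => ga 4 (Y - y) * (⟪F' Y - (8 * F Y) • (Y - y), Y - p⟫ + d * F Y)) ∧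
    ∫ Y, ga 4 (Y - y) * (⟪F' Y - (8 * F Y) • (Y - y), Y - p⟫ + d * F Y) = 0 := by
  have b := EuclideanSpace.basisFun (Fin d) ℝ
  have hV : C5H1_P y (fun Y => F' Y - (8 * F Y) • (Y - y)) := by
    have h := C5H1_P_add hF' (C5H1_P_smul (C5H1_P_mul (C5H1_P_const (y := y) (-8 : ℝ)) hF) (C5H1_P_sub (y := y) y))
    refine (funext fun Y => ?_ : (fun Y => F' Y + (-8 * F Y) • (Y - y)) = fun Y => F' Y - (8 * F Y) • (Y - y)) ▸ h
    module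
  have hP : ∀ i, C5H1_P y (fun Y => ⟪F' Y - (8 * F Y) • (Y - y), b i⟫ * ⟪Y - p, b i⟫ + F Y) := fun i =>
    C5H1_P_add (C5H1_P_mul (C5H1_P_inner hV (C5H1_P_const _)) (C5H1_P_inner (C5H1_P_sub p) (C5H1_P_const _))) hF
  have hi : ∀ i, ∫ Y, ga 4 (Y - y) * (⟪F' Y - (8 * F Y) • (Y - y), b i⟫ * ⟪Y - p, b i⟫ + F Y) = 0 := by
    intro i
    refine C5H1_zero (g := fun Y => ga 4 (Y - y) * (F Y * ⟪Y - p, b i⟫)) (v := b i) (fun Y => ?_) ?_ (C5H1_intr (hP i))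
    · have h := C5H1_mul (C5H1_ga y) (C5H1_mul hG (C5H1_lin p (b i))) Y (b i)
      refine h.congr_deriv ?_
      have hb : ⟪b i, b i⟫ = 1 := by
        rw [real_inner_self_eq_norm_sq, b.orthonormal.1 i]
        norm_num
      simp only [inner_add_left, inner_sub_left, real_inner_smul_left, hb]
      ring
    · exact C5H1_intr (C5H1_P_mul hF (C5H1_P_inner (C5H1_P_sub p) (C5H1_P_const _)))
  have he : ∀ Y, ga 4 (Y - y) * (⟪F' Y - (8 * F Y) • (Y - y), Y - p⟫ + d * F Y) =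
      ∑ i, ga 4 (Y - y) * (⟪F' Y - (8 * F Y) • (Y - y), b i⟫ * ⟪Y - p, b i⟫ + F Y) := by
    intro Y
    rw [← Finset.mul_sum, Finset.sum_add_distrib, Finset.sum_const, Finset.card_univ, Fintype.card_fin, nsmul_eq_mul]
    congr 2
    rw [← b.sum_inner_mul_inner]
    refine Finset.sum_congr rfl fun i _ => ?_
    rw [real_inner_comm (Y - p) (b i)]
  have hint : ∀ i, Integrable (fun Y => ga 4 (Y - y) * (⟪F' Y - (8 * F Y) • (Y - y), b i⟫ * ⟪Y - p, b i⟫ + F Y)) :=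
    fun i => C5H1_intr (hP i)
  constructor
  · refine (integrable_finsetSum Finset.univ fun i _ => hint i).congr (Eventually.of_forall fun Y => ?_)
    exact (he Y).symm
  · rw [integral_congr_ae (Eventually.of_forall he), integral_finsetSum _ fun i _ => hint i]
    exact Finset.sum_eq_zero fun i _ => hi i

private theorem C5H1_three {f g h : X d → ℝ} (hf : Integrable f ∧ ∫ Y, f Y = 0) (hg : Integrable g ∧ ∫ Y, g Y = 0)
    (hh : Integrable h ∧ ∫ Y, h Y = 0) : ∫ Y, (f Y + g Y + h Y) = 0 := by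
  have h1 : Integrable (fun Y => f Y + g Y) := hf.1.add hg.1
  rw [integral_add h1 hh.1, integral_add hf.1 hg.1, hf.2, hg.2, hh.2, add_zero, add_zero]
private theorem C5H1_five {f g h k l : X d → ℝ} (hf : Integrable f ∧ ∫ Y, f Y = 0) (hg : Integrable g ∧ ∫ Y, g Y = 0)
    (hh : Integrable h ∧ ∫ Y, h Y = 0) (hk : Integrable k ∧ ∫ Y, k Y = 0) (hl : Integrable l ∧ ∫ Y, l Y = 0) :
    ∫ Y, (f Y + g Y + h Y + k Y + l Y) = 0 := by
  have h1 : Integrable (fun Y => f Y + g Y) := hf.1.add hg.1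
  have h2 : Integrable (fun Y => f Y + g Y + h Y) := h1.add hh.1
  have h3 : Integrable (fun Y => f Y + g Y + h Y + k Y) := h2.add hk.1
  rw [integral_add h3 hl.1, integral_add h2 hk.1, integral_add h1 hh.1, integral_add hf.1 hg.1, hf.2, hg.2, hh.2, hk.2,
    hl.2]
  norm_num

/-- the pointwise identity -/
private theorem C5H1_alg (n d e z ρ s k0 k2 k4 k6 k8 k10 : ℝ) (hd : d = n + 5) (r0 : k0 = k2 * (z + e))
    (r2 : k2 = k4 * (z + e)) (r4 : k4 = k6 * (z + e)) (r6 : k6 = k8 * (z + e)) (r8 : k8 = k10 * (z + e)) :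
    (((16384 * ρ - 2048 * (d + 2)) * k0 - 8 * ((4096 * ρ ^ 2 - 1024 * (d + 2) * ρ + 64 * d * (d + 2)) * k0)) * s -
        (4096 * ρ ^ 2 - 1024 * (d + 2) * ρ + 64 * d * (d + 2)) * (n + 1) * k2 * z +
        d * ((4096 * ρ ^ 2 - 1024 * (d + 2) * ρ + 64 * d * (d + 2)) * k0)) +
      ((1024 * (4 * k0 + (n + 1) * e * k2) - 8 * ((512 * ρ - 64 * (d + 2)) * (4 * k0 + (n + 1) * e * k2))) * ρ -
        (512 * ρ - 64 * (d + 2)) * (4 * (n + 1) * k2 + (n + 1) * e * (n + 3) * k4) * s +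
        d * ((512 * ρ - 64 * (d + 2)) * (4 * k0 + (n + 1) * e * k2))) +
      ((128 * (-(4 * (n + 1)) * k2 - (n + 1) * (n + 3) * e * k4) -
        8 * ((64 * ρ - 8 * d) * (-(4 * (n + 1)) * k2 - (n + 1) * (n + 3) * e * k4))) * s +
        (64 * ρ - 8 * d) * (4 * (n + 1) * (n + 3) * k4 + (n + 1) * (n + 3) * e * (n + 5) * k6) * z +
        d * ((64 * ρ - 8 * d) * (-(4 * (n + 1)) * k2 - (n + 1) * (n + 3) * e * k4))) +
      (8 * (8 * (n + 1) * (n + 3) * k4 + 4 * (n + 1) * (n + 3) * e * (n + 5) * k6 +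
          (n + 1) * (n + 3) * (n + 5) * e ^ 2 * (n + 7) * k8) * s +
        (d - 8 * ρ) * (-8 * (8 * (n + 1) * k2 + 4 * (n + 1) * (n + 3) * e * k4 + (n + 1) * (n + 3) * (n + 5) * e ^ 2 * k6))) +
      ((d - 8 * s) * (8 * (n + 1) * (n + 3) * k4 + 4 * (n + 1) * (n + 3) * (n + 5) * e * k6 +
          (n + 1) * (n + 3) * (n + 5) * (n + 7) * e ^ 2 * k8) -
        (8 * (n + 1) * (n + 3) * (n + 5) * k6 + 4 * (n + 1) * (n + 3) * (n + 5) * e * (n + 7) * k8 +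
          (n + 1) * (n + 3) * (n + 5) * (n + 7) * e ^ 2 * (n + 9) * k10) * z) =
      -512 * (64 * ρ ^ 2 - 16 * (d + 4) * ρ + (d + 2) * (d + 4)) * (k0 * s) +
        (n + 1) * (n + 3) * (n + 5) * (n + 7) * (n + 9) * (e ^ 3 * k10) := by
  subst hd
  linear_combination (64 * (64 * ρ ^ 2 - 16 * (n + 7) * ρ + (n + 5) * (n + 7)) * (n + 1)) * r0 -
    (4 * (n + 1) * (n + 3) * (64 * ρ - 8 * (n + 5))) * r2 -
    ((n + 1) * (n + 3) * (n + 5) * e * (64 * ρ - 8 * (n + 5)) - 8 * (n + 1) * (n + 3) * (n + 5)) * r4 +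
    (4 * (n + 7) * e * ((n + 1) * (n + 3) * (n + 5))) * r6 +
    ((n + 7) * (n + 9) * e ^ 2 * ((n + 1) * (n + 3) * (n + 5))) * r8

theorem claim1_5 {n : ℕ} (hd : d = n + 5) {ε : ℝ} (hε : 0 < ε) (x y : X d) :
    ∫ Y, ⟪Vv5 y Y, kr n ε (Y - x) • (Y - x)⟫ =
      -((n + 1) * (n + 3) * (n + 5) * (n + 7) * (n + 9)) *
        ∫ Y, ga 4 (Y - y) * (ε ^ 6 * kr (n + 10) ε (Y - x)) := by
  have G0 : C5H1_G (fun Y => kr n ε (Y - x)) (fun Y => (-((n : ℝ) + 1) * kr (n + 2) ε (Y - x)) • (Y - x)) :=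
    C5H1_kr n hε x
  have G2 : C5H1_G (fun Y => kr (n + 2) ε (Y - x)) (fun Y => (-((n : ℝ) + 3) * kr (n + 4) ε (Y - x)) • (Y - x)) :=
    C5H1_congr (C5H1_kr (n + 2) hε x) fun Y => by push_cast; ring_nf
  have G4 : C5H1_G (fun Y => kr (n + 4) ε (Y - x)) (fun Y => (-((n : ℝ) + 5) * kr (n + 6) ε (Y - x)) • (Y - x)) :=
    C5H1_congr (C5H1_kr (n + 4) hε x) fun Y => by push_cast; ring_nf
  have G6 : C5H1_G (fun Y => kr (n + 6) ε (Y - x)) (fun Y => (-((n : ℝ) + 7) * kr (n + 8) ε (Y - x)) • (Y - x)) :=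
    C5H1_congr (C5H1_kr (n + 6) hε x) fun Y => by push_cast; ring_nf
  have G8 : C5H1_G (fun Y => kr (n + 8) ε (Y - x)) (fun Y => (-((n : ℝ) + 9) * kr (n + 10) ε (Y - x)) • (Y - x)) :=
    C5H1_congr (C5H1_kr (n + 8) hε x) fun Y => by push_cast; ring_nf
  have P0 := C5H1_P_kr (y := y) n hε x
  have P2 := C5H1_P_kr (y := y) (n + 2) hε x
  have P4 := C5H1_P_kr (y := y) (n + 4) hε x
  have P6 := C5H1_P_kr (y := y) (n + 6) hε x
  have P8 := C5H1_P_kr (y := y) (n + 8) hε x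
  have P10 := C5H1_P_kr (y := y) (n + 10) hε x
  have PZ := C5H1_P_sub (y := y) x
  have Pw := C5H1_P_sub (y := y) y
  have Pr := C5H1_P_nsq (y := y) y
  have Gr := C5H1_nsq y
  have PgG : ∀ (c : ℝ) {k : X d → ℝ}, C5H1_P y k → C5H1_P y (fun Y => (c * k Y) • (Y - x)) := fun c k hk =>
    C5H1_P_smul (C5H1_P_mul (C5H1_P_const _) hk) PZ
  have PgW : C5H1_P y (fun Y => (2 : ℝ) • (Y - y)) := C5H1_P_smul (C5H1_P_const _) Pw
  -- the polynomial factors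
  have A2 := C5H1_add (C5H1_add (C5H1_cmul 4096 (C5H1_mul Gr Gr)) (C5H1_cmul (-(1024 * ((d : ℝ) + 2))) Gr))
    (C5H1_const (64 * (d : ℝ) * (d + 2)))
  have PA2 := C5H1_P_add (C5H1_P_add (C5H1_P_mul (C5H1_P_const (4096 : ℝ)) (C5H1_P_mul Pr Pr))
    (C5H1_P_mul (C5H1_P_const (-(1024 * ((d : ℝ) + 2)))) Pr)) (C5H1_P_const (y := y) (64 * (d : ℝ) * (d + 2)))
  have PA2' := C5H1_P_add (C5H1_P_add (C5H1_P_smul (C5H1_P_const (4096 : ℝ)) (C5H1_P_add (C5H1_P_smul Pr PgW)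
    (C5H1_P_smul Pr PgW))) (C5H1_P_smul (C5H1_P_const (-(1024 * ((d : ℝ) + 2)))) PgW)) (C5H1_P_const (y := y) (0 : X d))
  have A1 := C5H1_add (C5H1_cmul 512 Gr) (C5H1_const (-(64 * ((d : ℝ) + 2))))
  have PA1 := C5H1_P_add (C5H1_P_mul (C5H1_P_const (512 : ℝ)) Pr) (C5H1_P_const (y := y) (-(64 * ((d : ℝ) + 2))))
  have PA1' := C5H1_P_add (C5H1_P_smul (C5H1_P_const (512 : ℝ)) PgW) (C5H1_P_const (y := y) (0 : X d))
  have A0 := C5H1_add (C5H1_cmul 64 Gr) (C5H1_const (-(8 * (d : ℝ))))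
  have PA0 := C5H1_P_add (C5H1_P_mul (C5H1_P_const (64 : ℝ)) Pr) (C5H1_P_const (y := y) (-(8 * (d : ℝ))))
  have PA0' := C5H1_P_add (C5H1_P_smul (C5H1_P_const (64 : ℝ)) PgW) (C5H1_P_const (y := y) (0 : X d))
  -- the radial factors
  have T1 := C5H1_add (C5H1_cmul 4 G0) (C5H1_cmul (((n : ℝ) + 1) * ε ^ 2) G2)
  have PT1 := C5H1_P_add (C5H1_P_mul (C5H1_P_const (4 : ℝ)) P0) (C5H1_P_mul (C5H1_P_const (((n : ℝ) + 1) * ε ^ 2)) P2)
  have PT1' := C5H1_P_add (C5H1_P_smul (C5H1_P_const (4 : ℝ)) (PgG (-((n : ℝ) + 1)) P2))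
    (C5H1_P_smul (C5H1_P_const (((n : ℝ) + 1) * ε ^ 2)) (PgG (-((n : ℝ) + 3)) P4))
  have T2 := C5H1_add (C5H1_cmul (-(4 * ((n : ℝ) + 1))) G2) (C5H1_cmul (-(((n : ℝ) + 1) * (n + 3) * ε ^ 2)) G4)
  have PT2 := C5H1_P_add (C5H1_P_mul (C5H1_P_const (-(4 * ((n : ℝ) + 1)))) P2)
    (C5H1_P_mul (C5H1_P_const (-(((n : ℝ) + 1) * (n + 3) * ε ^ 2))) P4)
  have PT2' := C5H1_P_add (C5H1_P_smul (C5H1_P_const (-(4 * ((n : ℝ) + 1)))) (PgG (-((n : ℝ) + 3)) P4))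
    (C5H1_P_smul (C5H1_P_const (-(((n : ℝ) + 1) * (n + 3) * ε ^ 2))) (PgG (-((n : ℝ) + 5)) P6))
  have T3 := C5H1_add (C5H1_add (C5H1_cmul (-(64 * ((n : ℝ) + 1))) G2)
    (C5H1_cmul (-(32 * ((n : ℝ) + 1) * (n + 3) * ε ^ 2)) G4))
    (C5H1_cmul (-(8 * ((n : ℝ) + 1) * (n + 3) * (n + 5) * ε ^ 4)) G6)
  have PT3 := C5H1_P_add (C5H1_P_add (C5H1_P_mul (C5H1_P_const (-(64 * ((n : ℝ) + 1)))) P2)
    (C5H1_P_mul (C5H1_P_const (-(32 * ((n : ℝ) + 1) * (n + 3) * ε ^ 2))) P4))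
    (C5H1_P_mul (C5H1_P_const (-(8 * ((n : ℝ) + 1) * (n + 3) * (n + 5) * ε ^ 4))) P6)
  have PT3' := C5H1_P_add (C5H1_P_add (C5H1_P_smul (C5H1_P_const (-(64 * ((n : ℝ) + 1)))) (PgG (-((n : ℝ) + 3)) P4))
    (C5H1_P_smul (C5H1_P_const (-(32 * ((n : ℝ) + 1) * (n + 3) * ε ^ 2))) (PgG (-((n : ℝ) + 5)) P6)))
    (C5H1_P_smul (C5H1_P_const (-(8 * ((n : ℝ) + 1) * (n + 3) * (n + 5) * ε ^ 4))) (PgG (-((n : ℝ) + 7)) P8))
  have T4 := C5H1_add (C5H1_add (C5H1_cmul (8 * ((n : ℝ) + 1) * (n + 3)) G4)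
    (C5H1_cmul (4 * ((n : ℝ) + 1) * (n + 3) * (n + 5) * ε ^ 2) G6))
    (C5H1_cmul (((n : ℝ) + 1) * (n + 3) * (n + 5) * (n + 7) * ε ^ 4) G8)
  have PT4 := C5H1_P_add (C5H1_P_add (C5H1_P_mul (C5H1_P_const (8 * ((n : ℝ) + 1) * (n + 3))) P4)
    (C5H1_P_mul (C5H1_P_const (4 * ((n : ℝ) + 1) * (n + 3) * (n + 5) * ε ^ 2)) P6))
    (C5H1_P_mul (C5H1_P_const (((n : ℝ) + 1) * (n + 3) * (n + 5) * (n + 7) * ε ^ 4)) P8)
  have PT4' := C5H1_P_add (C5H1_P_add (C5H1_P_smul (C5H1_P_const (8 * ((n : ℝ) + 1) * (n + 3))) (PgG (-((n : ℝ) + 5)) P6))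
    (C5H1_P_smul (C5H1_P_const (4 * ((n : ℝ) + 1) * (n + 3) * (n + 5) * ε ^ 2)) (PgG (-((n : ℝ) + 7)) P8)))
    (C5H1_P_smul (C5H1_P_const (((n : ℝ) + 1) * (n + 3) * (n + 5) * (n + 7) * ε ^ 4)) (PgG (-((n : ℝ) + 9)) P10))
  have E1 := C5H1_euler (y := y) (p := x) (C5H1_mul A2 G0) (C5H1_P_mul PA2 P0)
    (C5H1_P_add (C5H1_P_smul PA2 (PgG (-((n : ℝ) + 1)) P2)) (C5H1_P_smul P0 PA2'))
  have E2 := C5H1_euler (y := y) (p := y) (C5H1_mul A1 T1) (C5H1_P_mul PA1 PT1)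
    (C5H1_P_add (C5H1_P_smul PA1 PT1') (C5H1_P_smul PT1 PA1'))
  have E3 := C5H1_euler (y := y) (p := x) (C5H1_mul A0 T2) (C5H1_P_mul PA0 PT2)
    (C5H1_P_add (C5H1_P_smul PA0 PT2') (C5H1_P_smul PT2 PA0'))
  have E4 := C5H1_euler (y := y) (p := y) T3 PT3 PT3'
  have E5 := C5H1_euler (y := y) (p := x) T4 PT4 PT4'
  have hsum := C5H1_five E1 E2 E3 E4 E5
  have IA : Integrable (fun Y => ⟪Vv5 y Y, kr n ε (Y - x) • (Y - x)⟫) := by
    have h := C5H1_intr (y := y) (C5H1_P_mul (C5H1_P_add (C5H1_P_add (C5H1_P_mul (C5H1_P_const (-32768 : ℝ))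
      (C5H1_P_mul Pr Pr)) (C5H1_P_mul (C5H1_P_const (8192 * ((d : ℝ) + 4))) Pr))
      (C5H1_P_const (-512 * (((d : ℝ) + 2) * (d + 4))))) (C5H1_P_inner Pw (C5H1_P_smul P0 PZ)))
    refine h.congr (Eventually.of_forall fun Y => ?_)
    show _ = ⟪Vv5 y Y, kr n ε (Y - x) • (Y - x)⟫
    unfold Vv5
    rw [real_inner_smul_left (Y - y)]
    ring
  have IB : Integrable (fun Y => ga 4 (Y - y) * (ε ^ 6 * kr (n + 10) ε (Y - x))) :=
    C5H1_intr (C5H1_P_mul (C5H1_P_const _) P10)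
  have hzero : ∫ Y, (⟪Vv5 y Y, kr n ε (Y - x) • (Y - x)⟫ +
      (n + 1) * (n + 3) * (n + 5) * (n + 7) * (n + 9) * (ga 4 (Y - y) * (ε ^ 6 * kr (n + 10) ε (Y - x)))) = 0 := by
    rw [← hsum]
    refine integral_congr_ae (Eventually.of_forall fun Y => ?_)
    have hdr : (d : ℝ) = (n : ℝ) + 5 := by
      rw [hd]
      push_cast
      ring
    have h := C5H1_alg n d (ε ^ 2) (‖Y - x‖ ^ 2) (‖Y - y‖ ^ 2) ⟪Y - y, Y - x⟫ (kr n ε (Y - x)) (kr (n + 2) ε (Y - x))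
      (kr (n + 4) ε (Y - x)) (kr (n + 6) ε (Y - x)) (kr (n + 8) ε (Y - x)) (kr (n + 10) ε (Y - x)) hdr
      (C5H1_kr_rel n hε (Y - x)) (C5H1_kr_rel (n + 2) hε (Y - x)) (C5H1_kr_rel (n + 4) hε (Y - x))
      (C5H1_kr_rel (n + 6) hε (Y - x)) (C5H1_kr_rel (n + 8) hε (Y - x))
    simp only [Vv5]
    generalize kr n ε (Y - x) = k0 at h ⊢
    generalize kr (n + 2) ε (Y - x) = k2 at h ⊢
    generalize kr (n + 4) ε (Y - x) = k4 at h ⊢
    generalize kr (n + 6) ε (Y - x) = k6 at h ⊢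
    generalize kr (n + 8) ε (Y - x) = k8 at h ⊢
    generalize kr (n + 10) ε (Y - x) = k10 at h ⊢
    generalize Y - x = Z at h ⊢
    generalize hww : Y - y = w at h ⊢
    simp only [inner_add_left, inner_sub_left, real_inner_smul_left, real_inner_smul_right, real_inner_self_eq_norm_sq,
      add_zero]
    rw [real_inner_comm w Z]
    generalize ga 4 w = χ
    linear_combination (-χ) * h
  rw [integral_add IA (IB.const_mul _), integral_const_mul] at hzero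
  linear_combination hzero

end Pool.Agent.H1.LD
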