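import Pool.Agent.H1.C5.IB

/-!
Row I1 (template LD/CoI.lean: copy its private class CoIDec of functions which are measurable and O((1+|x|)^(-p)), with d = n+5; integrable if p ≥ n+6).
Integration by parts (integral_mul_fderiv_eq_neg_fderiv_mul_of_integrable), sum_i d_i R_ijl = H_jl, d_i S_jk = R_jki = R_ijk (symmetry):
 C = ∫ S_kl R_ijk R_ijl = ∫ (d_i S_jk) (S_kl R_ijl) = -∫ S_jk R_ikl R_ijl - ∫ S_jk S_kl H_jl = -C - A.
All products are O(-3n-5), the products f*g are O(-3n-4), integrable in R^(n+5) (3n+4 ≥ n+6 for n ≥ 1).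
-/

set_option autoImplicit false

open MeasureTheory Filter Topology Metric Set
open scoped RealInnerProductSpace ENNReal

namespace Pool.Agent.H1.LD

open Pool.Agent.RZ

variable {d : ℕ}

theorem id5_one {n : ℕ} (hn : 1 ≤ n) (hd : d = n + 5) {F : Fin d → X d → ℝ}
    {S : Fin d → Fin d → X d → ℝ} {R : Fin d → Fin d → Fin d → X d → ℝ} {T : X d → ℝ}
    {V : Fin d → X d → ℝ} {H : Fin d → Fin d → X d → ℝ}
    (h : HesA n F S R T V H) :
    (∫ x, ∑ i, ∑ j, ∑ k, ∑ l, S k l x * (R i j k x * R i j l x)) =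
      -(1 / 2) * ∫ x, ∑ i, ∑ j, ∑ k, H i k x * (S i j x * S j k x) := by
  have f1 := C5I_1 hn hd h
  simp only [mul_assoc] at f1
  linarith

end Pool.Agent.H1.LD
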