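import Pool.Agent.H1.C5.D0

/-!
Row I2 (template LD/CoI.lean).
 A = ∫ H_ik S_ij S_jk = ∫ (d_i V_k) S_ij S_jk = -∫ V_k V_j S_jk - ∫ V_k S_ij R_ijk   (sum_i d_i S_ij = V_j, d_i S_jk = R_ijk)
 and ∫ U |S|^2 = ∫ (d_k V_k) |S|^2 = -2 ∫ V_k S_ij R_ijk.  So A = -Sig + (1/2) ∫ U |S|^2.
-/

set_option autoImplicit false

open MeasureTheory Filter Topology Metric Set
open scoped RealInnerProductSpace ENNReal

namespace Pool.Agent.H1.LD

open Pool.Agent.RZ

variable {d : ℕ}

/-- measurable and `O ((1 + |x|) ^ (-p))` -/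
private def C5I2Dec (p : ℕ) (f : X d → ℝ) : Prop :=
  Measurable f ∧ ∃ C : ℝ, ∀ x, |f x| ≤ C * (1 + ‖x‖)⁻¹ ^ p

private theorem C5I2_le_one (x : X d) : (1 + ‖x‖)⁻¹ ≤ 1 := by
  have := norm_nonneg x
  exact inv_le_one_of_one_le₀ (by linarith)

private theorem C5I2Dec.mul {p q : ℕ} {f g : X d → ℝ} (hf : C5I2Dec p f) (hg : C5I2Dec q g) :
    C5I2Dec (p + q) (fun x => f x * g x) := by
  obtain ⟨cf, C, hC⟩ := hf
  obtain ⟨cg, D, hD⟩ := hg
  refine ⟨cf.mul cg, C * D, fun x => ?_⟩
  rw [abs_mul, pow_add]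
  have h1 := hC x
  have h2 := hD x
  calc |f x| * |g x| ≤ (C * (1 + ‖x‖)⁻¹ ^ p) * (D * (1 + ‖x‖)⁻¹ ^ q) :=
        mul_le_mul h1 h2 (abs_nonneg _) ((abs_nonneg _).trans h1)
    _ = _ := by ring

private theorem C5I2Dec.add {p : ℕ} {f g : X d → ℝ} (hf : C5I2Dec p f) (hg : C5I2Dec p g) :
    C5I2Dec p (fun x => f x + g x) := by
  obtain ⟨cf, C, hC⟩ := hf
  obtain ⟨cg, D, hD⟩ := hg
  refine ⟨cf.add cg, C + D, fun x => (abs_add_le _ _).trans ?_⟩
  rw [add_mul]
  exact add_le_add (hC x) (hD x)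

private theorem C5I2Dec.zero {p : ℕ} : C5I2Dec p (fun _ : X d => (0 : ℝ)) :=
  ⟨measurable_const, 0, fun x => by simp⟩

private theorem C5I2Dec.sum {p : ℕ} {ι : Type} (s : Finset ι) {f : ι → X d → ℝ}
    (hf : ∀ i, C5I2Dec p (f i)) : C5I2Dec p (fun x => ∑ i ∈ s, f i x) := by
  classical
  induction s using Finset.induction_on with
  | empty => simpa using C5I2Dec.zero
  | insert a s ha ih =>
    simp only [Finset.sum_insert ha]
    exact (hf a).add ih

private theorem C5I2Dec.integrable {p : ℕ} (hp : d < p) {f : X d → ℝ} (hf : C5I2Dec p f) :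
    Integrable f := by
  obtain ⟨cf, C, hC⟩ := hf
  have h1 : Integrable (fun x : X d => (1 + ‖x‖) ^ (-(p : ℝ))) := by
    refine integrable_one_add_norm ?_
    rw [finrank_euclideanSpace_fin]
    exact_mod_cast hp
  refine (h1.const_mul C).mono' cf.aestronglyMeasurable (Eventually.of_forall fun x => ?_)
  rw [Real.norm_eq_abs, Real.rpow_neg (by positivity), Real.rpow_natCast, ← inv_pow]
  exact hC x

/-- `f` is differentiable with the derivative `f'` in the direction `k`, with decay -/
private structure C5I2P (p : ℕ) (k : Fin d) (f f' : X d → ℝ) : Prop where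
  df : Differentiable ℝ f
  ef : ∀ x, fderiv ℝ f x (EuclideanSpace.single k 1) = f' x
  b : C5I2Dec p f
  b' : C5I2Dec (p + 1) f'

private theorem C5I2P.mul {p q : ℕ} {k : Fin d} {f f' g g' : X d → ℝ} (hf : C5I2P p k f f')
    (hg : C5I2P q k g g') :
    C5I2P (p + q) k (fun x => f x * g x) (fun x => f' x * g x + f x * g' x) where
  df := hf.df.mul hg.df
  ef x := by
    rw [fderiv_fun_mul (hf.df x) (hg.df x)]
    simp only [add_apply, smul_apply, smul_eq_mul, hf.ef, hg.ef]
    ring
  b := hf.b.mul hg.b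
  b' := by
    have h1 := hf.b'.mul hg.b
    have h2 := hf.b.mul hg.b'
    rw [show p + 1 + q = p + q + 1 by ring] at h1
    rw [show p + (q + 1) = p + q + 1 by ring] at h2
    exact h1.add h2

private theorem C5I2P.sum {p : ℕ} {k : Fin d} {ι : Type} (s : Finset ι) {f f' : ι → X d → ℝ}
    (h : ∀ i, C5I2P p k (f i) (f' i)) :
    C5I2P p k (fun x => ∑ i ∈ s, f i x) (fun x => ∑ i ∈ s, f' i x) where
  df := Differentiable.fun_sum fun i _ => (h i).df
  ef x := by
    rw [fderiv_fun_sum fun i _ => (h i).df x]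
    simp only [sum_apply, (h _).ef]
  b := C5I2Dec.sum s fun i => (h i).b
  b' := C5I2Dec.sum s fun i => (h i).b'

private theorem C5I2P.ibp {p q : ℕ} (hpq : d < p + q) {k : Fin d} {f f' g g' : X d → ℝ}
    (hf : C5I2P p k f f') (hg : C5I2P q k g g') :
    ∫ x, f x * g' x = -∫ x, f' x * g x := by
  have i1 : Integrable (fun x => f' x * g x) := by
    have := hf.b'.mul hg.b
    exact this.integrable (by omega)
  have i2 : Integrable (fun x => f x * g' x) := by
    have := hf.b.mul hg.b'
    exact this.integrable (by omega)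
  have i3 : Integrable (fun x => f x * g x) := (hf.b.mul hg.b).integrable hpq
  have h := integral_mul_fderiv_eq_neg_fderiv_mul_of_integrable (μ := volume) (f := f) (g := g)
    (v := EuclideanSpace.single k 1) (by simpa only [hf.ef] using i1)
    (by simpa only [hg.ef] using i2) i3 (fun x _ => hf.df x) (fun x _ => hg.df x)
  simp only [hf.ef, hg.ef] at h
  exact h

section

variable {n : ℕ} {F : Fin d → X d → ℝ}
  {S : Fin d → Fin d → X d → ℝ} {R : Fin d → Fin d → Fin d → X d → ℝ} {T : X d → ℝ}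
  {V : Fin d → X d → ℝ} {H : Fin d → Fin d → X d → ℝ}

private theorem C5I2_S (h : HesA n F S R T V H) (i j k : Fin d) :
    C5I2P (n + 1) k (S i j) (R i j k) := by
  obtain ⟨C, hC⟩ := h.bd
  exact ⟨h.dS i j, h.eS i j k, ⟨(h.dS i j).continuous.measurable, C, fun x => (hC x).2.1 i j⟩,
    ⟨(h.dR i j k).continuous.measurable, C, fun x => (hC x).2.2.1 i j k⟩⟩

private theorem C5I2_V (h : HesA n F S R T V H) (k l : Fin d) :
    C5I2P (n + 2) l (V k) (H k l) := by
  obtain ⟨C, hC⟩ := h.bd
  refine ⟨h.dV k, h.eH k l, ?_, ⟨(h.cH k l).measurable, C, fun x => (hC x).2.2.2.2 k l⟩⟩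
  have h1 : C5I2Dec (n + 2) (fun x => ∑ i, R i i k x) :=
    C5I2Dec.sum _ fun i => (C5I2_S h i i k).b'
  have h2 : (fun x => ∑ i, R i i k x) = V k := funext fun x => (h.eV k x).symm
  rwa [h2] at h1

private theorem C5I2_R (h : HesA n F S R T V H) (i j k : Fin d) (x : X d) :
    R i j k x = R j i k x := by
  rw [← h.eS i j k x, ← h.eS j i k x]
  have : S i j = S j i := funext fun x => h.sS i j x
  rw [this]

/-- `∫ U |S|^2 = -2 ∫ V_k S_ij R_ijk` -/
private theorem C5I2_b (hn : 1 ≤ n) (hd : d = n + 5) (h : HesA n F S R T V H) {U : X d → ℝ}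
    (hU : ∀ x, U x = ∑ k, H k k x) :
    ∫ x, U x * ∑ i, ∑ j, S i j x ^ 2 =
      -(2 * ∫ x, ∑ k, V k x * ∑ i, ∑ j, S i j x * R i j k x) := by
  have g1 : ∀ k, C5I2P (n + 1 + (n + 1)) k (fun x => ∑ i, ∑ j, S i j x * S i j x)
      (fun x => ∑ i, ∑ j, (R i j k x * S i j x + S i j x * R i j k x)) := fun k =>
    C5I2P.sum _ fun i => C5I2P.sum _ fun j => (C5I2_S h i j k).mul (C5I2_S h i j k)
  have h1 : ∀ k, ∫ x, (∑ i, ∑ j, S i j x * S i j x) * H k k x =
      -∫ x, (∑ i, ∑ j, (R i j k x * S i j x + S i j x * R i j k x)) * V k x := fun k =>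
    C5I2P.ibp (by omega) (g1 k) (C5I2_V h k k)
  have i1 : ∀ k, Integrable fun x => (∑ i, ∑ j, S i j x * S i j x) * H k k x := fun k =>
    ((g1 k).b.mul (C5I2_V h k k).b').integrable (by omega)
  have i2 : ∀ k, Integrable fun x =>
      (∑ i, ∑ j, (R i j k x * S i j x + S i j x * R i j k x)) * V k x := fun k =>
    ((g1 k).b'.mul (C5I2_V h k k).b).integrable (by omega)
  calc ∫ x, U x * ∑ i, ∑ j, S i j x ^ 2
      = ∫ x, ∑ k, (∑ i, ∑ j, S i j x * S i j x) * H k k x := by
        refine integral_congr_ae (Eventually.of_forall fun x => ?_)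
        simp only [hU x, pow_two, ← Finset.mul_sum]
        exact mul_comm _ _
    _ = ∑ k, ∫ x, (∑ i, ∑ j, S i j x * S i j x) * H k k x :=
        integral_finsetSum _ fun k _ => i1 k
    _ = ∑ k, -∫ x, (∑ i, ∑ j, (R i j k x * S i j x + S i j x * R i j k x)) * V k x :=
        Finset.sum_congr rfl fun k _ => h1 k
    _ = -∫ x, ∑ k, (∑ i, ∑ j, (R i j k x * S i j x + S i j x * R i j k x)) * V k x := by
        rw [Finset.sum_neg_distrib, integral_finsetSum _ fun k _ => i2 k]
    _ = -(2 * ∫ x, ∑ k, V k x * ∑ i, ∑ j, S i j x * R i j k x) := by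
        rw [← integral_const_mul]
        congr 1
        refine integral_congr_ae (Eventually.of_forall fun x => ?_)
        simp only [Finset.mul_sum, Finset.sum_mul]
        refine Finset.sum_congr rfl fun k _ => Finset.sum_congr rfl fun i _ =>
          Finset.sum_congr rfl fun j _ => ?_
        ring

/-- `∫ H_ik S_ij S_jk = -∫ V_k V_j S_jk - ∫ V_k S_ij R_ijk` -/
private theorem C5I2_a (hn : 1 ≤ n) (hd : d = n + 5) (h : HesA n F S R T V H) :
    ∫ x, ∑ i, ∑ j, ∑ k, H i k x * (S i j x * S j k x) =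
      -((∫ x, ∑ i, ∑ j, S i j x * (V i x * V j x)) +
        ∫ x, ∑ k, V k x * ∑ i, ∑ j, S i j x * R i j k x) := by
  have h1 : ∀ i j k, ∫ x, (S i j x * S j k x) * H k i x =
      -∫ x, (R i j i x * S j k x + S i j x * R j k i x) * V k x := fun i j k =>
    C5I2P.ibp (by omega) ((C5I2_S h i j i).mul (C5I2_S h j k i)) (C5I2_V h k i)
  have i1 : ∀ i j k, Integrable fun x => (S i j x * S j k x) * H k i x := fun i j k =>
    (((C5I2_S h i j i).mul (C5I2_S h j k i)).b.mul (C5I2_V h k i).b').integrable (by omega)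
  have i2 : ∀ i j k, Integrable fun x =>
      (R i j i x * S j k x + S i j x * R j k i x) * V k x := fun i j k =>
    (((C5I2_S h i j i).mul (C5I2_S h j k i)).b'.mul (C5I2_V h k i).b).integrable (by omega)
  have i3 : Integrable fun x => ∑ i, ∑ j, S i j x * (V i x * V j x) := by
    have a : C5I2Dec (n + 1 + (n + 2 + (n + 2))) fun x =>
        ∑ i, ∑ j, S i j x * (V i x * V j x) :=
      C5I2Dec.sum _ fun i => C5I2Dec.sum _ fun j =>
        (C5I2_S h i j i).b.mul ((C5I2_V h i i).b.mul (C5I2_V h j j).b)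
    exact a.integrable (by omega)
  have i4 : Integrable fun x => ∑ k, V k x * ∑ i, ∑ j, S i j x * R i j k x := by
    have a : C5I2Dec (n + 2 + (n + 1 + (n + 2))) fun x =>
        ∑ k, V k x * ∑ i, ∑ j, S i j x * R i j k x :=
      C5I2Dec.sum _ fun k => (C5I2_V h k k).b.mul (C5I2Dec.sum _ fun i => C5I2Dec.sum _ fun j =>
        (C5I2_S h i j k).b.mul (C5I2_S h i j k).b')
    exact a.integrable (by omega)
  calc ∫ x, ∑ i, ∑ j, ∑ k, H i k x * (S i j x * S j k x)
      = ∫ x, ∑ i, ∑ j, ∑ k, (S i j x * S j k x) * H k i x := by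
        refine integral_congr_ae (Eventually.of_forall fun x => ?_)
        refine Finset.sum_congr rfl fun i _ => Finset.sum_congr rfl fun j _ =>
          Finset.sum_congr rfl fun k _ => ?_
        rw [h.sH i k, mul_comm]
    _ = ∑ i, ∑ j, ∑ k, ∫ x, (S i j x * S j k x) * H k i x := by
        rw [integral_finsetSum _ fun i _ => integrable_finsetSum _ fun j _ =>
          integrable_finsetSum _ fun k _ => i1 i j k]
        refine Finset.sum_congr rfl fun i _ => ?_
        rw [integral_finsetSum _ fun j _ => integrable_finsetSum _ fun k _ => i1 i j k]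
        refine Finset.sum_congr rfl fun j _ => ?_
        rw [integral_finsetSum _ fun k _ => i1 i j k]
    _ = ∑ i, ∑ j, ∑ k, -∫ x, (R i j i x * S j k x + S i j x * R j k i x) * V k x := by
        refine Finset.sum_congr rfl fun i _ => Finset.sum_congr rfl fun j _ =>
          Finset.sum_congr rfl fun k _ => ?_
        rw [h1]
    _ = -∫ x, ∑ i, ∑ j, ∑ k, (R i j i x * S j k x + S i j x * R j k i x) * V k x := by
        simp only [Finset.sum_neg_distrib]
        congr 1
        rw [integral_finsetSum _ fun i _ => integrable_finsetSum _ fun j _ =>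
          integrable_finsetSum _ fun k _ => i2 i j k]
        refine Finset.sum_congr rfl fun i _ => ?_
        rw [integral_finsetSum _ fun j _ => integrable_finsetSum _ fun k _ => i2 i j k]
        refine Finset.sum_congr rfl fun j _ => ?_
        rw [integral_finsetSum _ fun k _ => i2 i j k]
    _ = _ := by
        rw [← integral_add i3 i4]
        congr 1
        refine integral_congr_ae (Eventually.of_forall fun x => ?_)
        have e1 : ∑ i, ∑ j, ∑ k, (R i j i x * S j k x + S i j x * R j k i x) * V k x =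
            (∑ i, ∑ j, ∑ k, R i i j x * (S j k x * V k x)) +
              ∑ i, ∑ j, ∑ k, V k x * (S i j x * R i j k x) := by
          simp only [← Finset.sum_add_distrib]
          refine Finset.sum_congr rfl fun i _ => Finset.sum_congr rfl fun j _ =>
            Finset.sum_congr rfl fun k _ => ?_
          rw [h.sR i j i, h.sR j k i, C5I2_R h j i k]
          ring
        have e2 : ∑ i, ∑ j, ∑ k, R i i j x * (S j k x * V k x) =
            ∑ i, ∑ j, S i j x * (V i x * V j x) := by
          rw [Finset.sum_comm]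
          refine Finset.sum_congr rfl fun j _ => ?_
          rw [Finset.sum_comm]
          refine Finset.sum_congr rfl fun k _ => ?_
          rw [← Finset.sum_mul, ← h.eV j x]
          ring
        have e3 : ∑ i, ∑ j, ∑ k, V k x * (S i j x * R i j k x) =
            ∑ k, V k x * ∑ i, ∑ j, S i j x * R i j k x := by
          simp only [Finset.mul_sum]
          rw [Finset.sum_comm (s := (Finset.univ : Finset (Fin d)))
            (f := fun k i => ∑ j, V k x * (S i j x * R i j k x))]
          refine Finset.sum_congr rfl fun i _ => ?_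
          exact Finset.sum_comm
        show ∑ i, ∑ j, ∑ k, (R i j i x * S j k x + S i j x * R j k i x) * V k x =
          (∑ i, ∑ j, S i j x * (V i x * V j x)) +
            ∑ k, V k x * ∑ i, ∑ j, S i j x * R i j k x
        rw [e1, e2, e3]

end

theorem id5_two {n : ℕ} (hn : 1 ≤ n) (hd : d = n + 5) {F : Fin d → X d → ℝ}
    {S : Fin d → Fin d → X d → ℝ} {R : Fin d → Fin d → Fin d → X d → ℝ} {T : X d → ℝ}
    {V : Fin d → X d → ℝ} {H : Fin d → Fin d → X d → ℝ} {U : X d → ℝ} {G : Fin d → X d → ℝ}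
    {Q : X d → ℝ} {W : Fin d → X d → ℝ} {DW : X d → ℝ}
    (h : HesA n F S R T V H) (hB : HesB n H U G Q W DW) :
    (∫ x, ∑ i, ∑ j, ∑ k, H i k x * (S i j x * S j k x)) =
      -(∫ x, ∑ i, ∑ j, S i j x * (V i x * V j x)) +
        (1 / 2) * ∫ x, U x * ∑ i, ∑ j, S i j x ^ 2 := by
  rw [C5I2_a hn hd h, C5I2_b hn hd h hB.eU]
  ring

end Pool.Agent.H1.LD
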