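import Pool.Agent.H1.C5.IB

/-!
Row I3 (template LD/CoI.lean).
 ∫ U |S|^2 = ∫ (d_k V_k)|S|^2 = -2 ∫ V_k S_ij R_ijk = 2 ∫ T d_k (S_ij R_ijk) = 2 ∫ T |R|^2 + 2 ∫ T S_ij H_ij   (V_k = d_k T, T = sum S_ii; sum_k d_k R_ijk = H_ij by symmetry)
 ∫ T S_ij H_ij = ∫ T S_ij d_j V_i = -∫ V_j S_ij V_i - ∫ T V_i V_i.
-/

set_option autoImplicit false

open MeasureTheory Filter Topology Metric Set
open scoped RealInnerProductSpace ENNReal

namespace Pool.Agent.H1.LD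

open Pool.Agent.RZ

variable {d : ℕ}

theorem id5_three {n : ℕ} (hn : 1 ≤ n) (hd : d = n + 5) {F : Fin d → X d → ℝ}
    {S : Fin d → Fin d → X d → ℝ} {R : Fin d → Fin d → Fin d → X d → ℝ} {T : X d → ℝ}
    {V : Fin d → X d → ℝ} {H : Fin d → Fin d → X d → ℝ} {U : X d → ℝ} {G : Fin d → X d → ℝ}
    {Q : X d → ℝ} {W : Fin d → X d → ℝ} {DW : X d → ℝ}
    (h : HesA n F S R T V H) (hB : HesB n H U G Q W DW) :
    (∫ x, U x * ∑ i, ∑ j, S i j x ^ 2) =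
      2 * (∫ x, T x * ∑ i, ∑ j, ∑ k, R i j k x ^ 2) -
        2 * (∫ x, ∑ i, ∑ j, S i j x * (V i x * V j x)) - 2 * ∫ x, T x * ∑ i, V i x ^ 2 := by
  have f3 := C5I_3 hn hd h hB
  have f4 := C5I_4 hn hd h
  have f5 := C5I_5 hn hd h
  simp only [mul_assoc] at f3 f4 f5
  simp only [pow_two]
  linarith

end Pool.Agent.H1.LD
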