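import Pool.Agent.H1.C5.D0

/-!
Row I4 (template LD/CoI.lean).
 ∫ |F|^2 Q = ∫ |F|^2 d_j G_j = -2 ∫ F_i S_ij G_j = 2 ∫ U d_j (F_i S_ij) = 2 ∫ U |S|^2 + 2 ∫ U F_i V_i   (G_j = d_j U)
 ∫ U F_i V_i = ∫ (d_k V_k) F_i V_i = -∫ V_k S_ik V_i - ∫ V_k F_i H_ik = -Sig - (1/2) ∫ F_i d_i |V|^2 = -Sig + (1/2) ∫ T |V|^2.
-/

set_option autoImplicit false

open MeasureTheory Filter Topology Metric Set
open scoped RealInnerProductSpace ENNReal

namespace Pool.Agent.H1.LD

open Pool.Agent.RZ

variable {d : ℕ}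

/-- measurable and `O ((1 + |x|) ^ (-p))` -/
private def C5I4Dec (p : ℕ) (f : X d → ℝ) : Prop :=
  Measurable f ∧ ∃ C : ℝ, ∀ x, |f x| ≤ C * (1 + ‖x‖)⁻¹ ^ p

private theorem C5I4_le_one (x : X d) : (1 + ‖x‖)⁻¹ ≤ 1 := by
  have := norm_nonneg x
  exact inv_le_one_of_one_le₀ (by linarith)

private theorem C5I4Dec.mul {p q : ℕ} {f g : X d → ℝ} (hf : C5I4Dec p f) (hg : C5I4Dec q g) :
    C5I4Dec (p + q) (fun x => f x * g x) := by
  obtain ⟨cf, C, hC⟩ := hf
  obtain ⟨cg, D, hD⟩ := hg
  refine ⟨cf.mul cg, C * D, fun x => ?_⟩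
  rw [abs_mul, pow_add]
  have h1 := hC x
  have h2 := hD x
  calc |f x| * |g x| ≤ (C * (1 + ‖x‖)⁻¹ ^ p) * (D * (1 + ‖x‖)⁻¹ ^ q) :=
        mul_le_mul h1 h2 (abs_nonneg _) ((abs_nonneg _).trans h1)
    _ = _ := by ring

private theorem C5I4Dec.add {p : ℕ} {f g : X d → ℝ} (hf : C5I4Dec p f) (hg : C5I4Dec p g) :
    C5I4Dec p (fun x => f x + g x) := by
  obtain ⟨cf, C, hC⟩ := hf
  obtain ⟨cg, D, hD⟩ := hg
  refine ⟨cf.add cg, C + D, fun x => (abs_add_le _ _).trans ?_⟩
  rw [add_mul]
  exact add_le_add (hC x) (hD x)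

private theorem C5I4Dec.zero {p : ℕ} : C5I4Dec p (fun _ : X d => (0 : ℝ)) :=
  ⟨measurable_const, 0, fun x => by simp⟩

private theorem C5I4Dec.sum {p : ℕ} {ι : Type} (s : Finset ι) {f : ι → X d → ℝ}
    (hf : ∀ i, C5I4Dec p (f i)) : C5I4Dec p (fun x => ∑ i ∈ s, f i x) := by
  classical
  induction s using Finset.induction_on with
  | empty => simpa using C5I4Dec.zero
  | insert a s ha ih =>
    simp only [Finset.sum_insert ha]
    exact (hf a).add ih

private theorem C5I4Dec.integrable {p : ℕ} (hp : d < p) {f : X d → ℝ} (hf : C5I4Dec p f) :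
    Integrable f := by
  obtain ⟨cf, C, hC⟩ := hf
  have h1 : Integrable (fun x : X d => (1 + ‖x‖) ^ (-(p : ℝ))) := by
    refine integrable_one_add_norm ?_
    rw [finrank_euclideanSpace_fin]
    exact_mod_cast hp
  refine (h1.const_mul C).mono' cf.aestronglyMeasurable (Eventually.of_forall fun x => ?_)
  rw [Real.norm_eq_abs, Real.rpow_neg (by positivity), Real.rpow_natCast, ← inv_pow]
  exact hC x

/-- `f` is differentiable with the derivative `f'` in the direction `k`, with decay -/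
private structure C5I4P (p : ℕ) (k : Fin d) (f f' : X d → ℝ) : Prop where
  df : Differentiable ℝ f
  ef : ∀ x, fderiv ℝ f x (EuclideanSpace.single k 1) = f' x
  b : C5I4Dec p f
  b' : C5I4Dec (p + 1) f'

private theorem C5I4P.mul {p q : ℕ} {k : Fin d} {f f' g g' : X d → ℝ} (hf : C5I4P p k f f')
    (hg : C5I4P q k g g') :
    C5I4P (p + q) k (fun x => f x * g x) (fun x => f' x * g x + f x * g' x) where
  df := hf.df.mul hg.df
  ef x := by
    rw [fderiv_fun_mul (hf.df x) (hg.df x)]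
    simp only [add_apply, smul_apply, smul_eq_mul, hf.ef, hg.ef]
    ring
  b := hf.b.mul hg.b
  b' := by
    have h1 := hf.b'.mul hg.b
    have h2 := hf.b.mul hg.b'
    rw [show p + 1 + q = p + q + 1 by ring] at h1
    rw [show p + (q + 1) = p + q + 1 by ring] at h2
    exact h1.add h2

private theorem C5I4P.sum {p : ℕ} {k : Fin d} {ι : Type} (s : Finset ι) {f f' : ι → X d → ℝ}
    (h : ∀ i, C5I4P p k (f i) (f' i)) :
    C5I4P p k (fun x => ∑ i ∈ s, f i x) (fun x => ∑ i ∈ s, f' i x) where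
  df := Differentiable.fun_sum fun i _ => (h i).df
  ef x := by
    rw [fderiv_fun_sum fun i _ => (h i).df x]
    simp only [sum_apply, (h _).ef]
  b := C5I4Dec.sum s fun i => (h i).b
  b' := C5I4Dec.sum s fun i => (h i).b'

private theorem C5I4P.ibp {p q : ℕ} (hpq : d < p + q) {k : Fin d} {f f' g g' : X d → ℝ}
    (hf : C5I4P p k f f') (hg : C5I4P q k g g') :
    ∫ x, f x * g' x = -∫ x, f' x * g x := by
  have i1 : Integrable (fun x => f' x * g x) := by
    have := hf.b'.mul hg.b
    exact this.integrable (by omega)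
  have i2 : Integrable (fun x => f x * g' x) := by
    have := hf.b.mul hg.b'
    exact this.integrable (by omega)
  have i3 : Integrable (fun x => f x * g x) := (hf.b.mul hg.b).integrable hpq
  have h := integral_mul_fderiv_eq_neg_fderiv_mul_of_integrable (μ := volume) (f := f) (g := g)
    (v := EuclideanSpace.single k 1) (by simpa only [hf.ef] using i1)
    (by simpa only [hg.ef] using i2) i3 (fun x _ => hf.df x) (fun x _ => hg.df x)
  simp only [hf.ef, hg.ef] at h
  exact h

section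

variable {n : ℕ} {F : Fin d → X d → ℝ}
    {S : Fin d → Fin d → X d → ℝ} {R : Fin d → Fin d → Fin d → X d → ℝ} {T : X d → ℝ}
    {V : Fin d → X d → ℝ} {H : Fin d → Fin d → X d → ℝ} {U : X d → ℝ} {G : Fin d → X d → ℝ}
    {Q : X d → ℝ} {W : Fin d → X d → ℝ} {DW : X d → ℝ}

private theorem C5I4_F (h : HesA n F S R T V H) (i j : Fin d) : C5I4P n j (F i) (S i j) := by
  obtain ⟨C, hC⟩ := h.bd
  exact ⟨h.dF i, h.eF i j, ⟨(h.dF i).continuous.measurable, C, fun x => (hC x).1 i⟩,
    ⟨(h.dS i j).continuous.measurable, C, fun x => (hC x).2.1 i j⟩⟩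

private theorem C5I4_S (h : HesA n F S R T V H) (i j k : Fin d) :
    C5I4P (n + 1) k (S i j) (R i j k) := by
  obtain ⟨C, hC⟩ := h.bd
  exact ⟨h.dS i j, h.eS i j k, ⟨(h.dS i j).continuous.measurable, C, fun x => (hC x).2.1 i j⟩,
    ⟨(h.dR i j k).continuous.measurable, C, fun x => (hC x).2.2.1 i j k⟩⟩

private theorem C5I4_V (h : HesA n F S R T V H) (k l : Fin d) :
    C5I4P (n + 2) l (V k) (H k l) := by
  obtain ⟨C, hC⟩ := h.bd
  refine ⟨h.dV k, fun x => h.eH k l x, ?_,
    ⟨(h.cH k l).measurable, C, fun x => (hC x).2.2.2.2 k l⟩⟩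
  have h1 : C5I4Dec (n + 2) (fun x => ∑ i, R i i k x) :=
    C5I4Dec.sum _ fun i => (C5I4_S h i i k).b'
  have h2 : (fun x => ∑ i, R i i k x) = V k := funext fun x => (h.eV k x).symm
  rwa [h2] at h1

private theorem C5I4_U (hB : HesB n H U G Q W DW) (k : Fin d) : C5I4P (n + 3) k U (G k) := by
  obtain ⟨C, hC⟩ := hB.bd
  exact ⟨hB.dU, hB.eG k, ⟨hB.dU.continuous.measurable, C, fun x => (hC x).1⟩,
    ⟨(hB.dG k).continuous.measurable, C, fun x => (hC x).2.1 k⟩⟩

private theorem C5I4_G (hB : HesB n H U G Q W DW) (k l : Fin d) :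
    C5I4P (n + 4) l (G k) (fun x => fderiv ℝ (G k) x (EuclideanSpace.single l 1)) := by
  obtain ⟨C, hC⟩ := hB.bd
  exact ⟨hB.dG k, fun x => rfl, ⟨(hB.dG k).continuous.measurable, C, fun x => (hC x).2.1 k⟩,
    ⟨measurable_fderiv_apply_const ℝ (G k) _, C, fun x => (hC x).2.2.1 k l⟩⟩

private theorem C5I4_R (h : HesA n F S R T V H) (i j k : Fin d) (x : X d) :
    R i j k x = R j i k x := by
  rw [← h.eS i j k x, ← h.eS j i k x]
  have : S i j = S j i := funext fun x => h.sS i j x
  rw [this]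

private theorem C5I4_Rk (h : HesA n F S R T V H) (i k : Fin d) (x : X d) :
    R i k k x = R k k i x := by
  rw [C5I4_R h i k k, h.sR k i k]

/-- first integration by parts -/
private theorem C5I4_a (hn : 1 ≤ n) (hd : d = n + 5) (h : HesA n F S R T V H)
    (hB : HesB n H U G Q W DW) :
    ∫ x, (∑ i, F i x ^ 2) * Q x = -(2 * ∫ x, ∑ k, (∑ i, F i x * S i k x) * G k x) := by
  have h1 : ∀ k, ∫ x, (∑ i, F i x * F i x) * fderiv ℝ (G k) x (EuclideanSpace.single k 1) =
      -∫ x, (∑ i, (S i k x * F i x + F i x * S i k x)) * G k x := fun k =>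
    C5I4P.ibp (p := n + n) (q := n + 4) (by omega)
      (C5I4P.sum _ fun i => (C5I4_F h i k).mul (C5I4_F h i k)) (C5I4_G hB k k)
  have i1 : ∀ k, Integrable fun x =>
      (∑ i, F i x * F i x) * fderiv ℝ (G k) x (EuclideanSpace.single k 1) := fun k =>
    ((C5I4Dec.sum Finset.univ fun i => ((C5I4_F h i k).b.mul (C5I4_F h i k).b)).mul
      (C5I4_G hB k k).b').integrable (by omega)
  have i2 : ∀ k, Integrable fun x => (∑ i, (S i k x * F i x + F i x * S i k x)) * G k x := by
    intro k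
    have a : C5I4Dec (n + n + 1) fun x => ∑ i, (S i k x * F i x + F i x * S i k x) :=
      (C5I4P.sum Finset.univ fun i => (C5I4_F h i k).mul (C5I4_F h i k)).b'
    exact (a.mul (C5I4_G hB k k).b).integrable (by omega)
  calc ∫ x, (∑ i, F i x ^ 2) * Q x
      = ∫ x, ∑ k, (∑ i, F i x * F i x) * fderiv ℝ (G k) x (EuclideanSpace.single k 1) := by
        refine integral_congr_ae (Eventually.of_forall fun x => ?_)
        simp only [← hB.eQ x, Finset.mul_sum, pow_two]
    _ = ∑ k, ∫ x, (∑ i, F i x * F i x) * fderiv ℝ (G k) x (EuclideanSpace.single k 1) :=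
        integral_finsetSum _ fun k _ => i1 k
    _ = ∑ k, -∫ x, (∑ i, (S i k x * F i x + F i x * S i k x)) * G k x :=
        Finset.sum_congr rfl fun k _ => h1 k
    _ = -∫ x, ∑ k, (∑ i, (S i k x * F i x + F i x * S i k x)) * G k x := by
        rw [Finset.sum_neg_distrib, integral_finsetSum _ fun k _ => i2 k]
    _ = -(2 * ∫ x, ∑ k, (∑ i, F i x * S i k x) * G k x) := by
        rw [← integral_const_mul]
        congr 1
        refine integral_congr_ae (Eventually.of_forall fun x => ?_)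
        simp only [Finset.mul_sum, Finset.sum_mul]
        refine Finset.sum_congr rfl fun k _ => Finset.sum_congr rfl fun i _ => ?_
        ring

/-- second integration by parts -/
private theorem C5I4_b (hn : 1 ≤ n) (hd : d = n + 5) (h : HesA n F S R T V H)
    (hB : HesB n H U G Q W DW) :
    ∫ x, ∑ k, (∑ i, F i x * S i k x) * G k x =
      -((∫ x, U x * ∑ i, ∑ j, S i j x ^ 2) + ∫ x, U x * ∑ i, F i x * V i x) := by
  have g1 : ∀ k, C5I4P (n + (n + 1)) k (fun x => ∑ i, F i x * S i k x)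
      (fun x => ∑ i, (S i k x * S i k x + F i x * R i k k x)) := fun k =>
    C5I4P.sum _ fun i => (C5I4_F h i k).mul (C5I4_S h i k k)
  have h1 : ∀ k, ∫ x, (∑ i, F i x * S i k x) * G k x =
      -∫ x, (∑ i, (S i k x * S i k x + F i x * R i k k x)) * U x := fun k =>
    C5I4P.ibp (q := n + 3) (by omega) (g1 k) (C5I4_U hB k)
  have i1 : ∀ k, Integrable fun x => (∑ i, F i x * S i k x) * G k x := fun k =>
    ((g1 k).b.mul (C5I4_U hB k).b').integrable (by omega)
  have i2 : ∀ k, Integrable fun x => (∑ i, (S i k x * S i k x + F i x * R i k k x)) * U x :=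
    fun k => ((g1 k).b'.mul (C5I4_U hB k).b).integrable (by omega)
  have hU : C5I4Dec (n + 3) U := by
    obtain ⟨C, hC⟩ := hB.bd
    exact ⟨hB.dU.continuous.measurable, C, fun x => (hC x).1⟩
  have i3 : Integrable fun x => U x * ∑ i, ∑ j, S i j x ^ 2 := by
    have a : C5I4Dec (n + 3 + (n + 1 + (n + 1))) fun x => U x * ∑ i, ∑ j, S i j x * S i j x :=
      hU.mul (C5I4Dec.sum _ fun i => C5I4Dec.sum _ fun j => (C5I4_F h i j).b'.mul (C5I4_F h i j).b')
    have e : (fun x => U x * ∑ i, ∑ j, S i j x ^ 2) =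
        fun x => U x * ∑ i, ∑ j, S i j x * S i j x := by
      funext x
      simp only [pow_two]
    rw [e]
    exact a.integrable (by omega)
  have i4 : Integrable fun x => U x * ∑ i, F i x * V i x := by
    have a : C5I4Dec (n + 3 + (n + (n + 2))) fun x => U x * ∑ i, F i x * V i x :=
      hU.mul (C5I4Dec.sum _ fun i => (C5I4_F h i i).b.mul (C5I4_V h i i).b)
    exact a.integrable (by omega)
  calc ∫ x, ∑ k, (∑ i, F i x * S i k x) * G k x
      = ∑ k, ∫ x, (∑ i, F i x * S i k x) * G k x := integral_finsetSum _ fun k _ => i1 k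
    _ = ∑ k, -∫ x, (∑ i, (S i k x * S i k x + F i x * R i k k x)) * U x :=
        Finset.sum_congr rfl fun k _ => h1 k
    _ = -∫ x, ∑ k, (∑ i, (S i k x * S i k x + F i x * R i k k x)) * U x := by
        rw [Finset.sum_neg_distrib, integral_finsetSum _ fun k _ => i2 k]
    _ = _ := by
        rw [← integral_add i3 i4]
        congr 1
        refine integral_congr_ae (Eventually.of_forall fun x => ?_)
        show ∑ k, (∑ i, (S i k x * S i k x + F i x * R i k k x)) * U x =
          U x * ∑ i, ∑ j, S i j x ^ 2 + U x * ∑ i, F i x * V i x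
        rw [← Finset.sum_mul, Finset.sum_comm, ← mul_add, ← Finset.sum_add_distrib, mul_comm]
        congr 1
        refine Finset.sum_congr rfl fun i _ => ?_
        rw [Finset.sum_add_distrib, h.eV i x, Finset.mul_sum]
        congr 1
        · exact Finset.sum_congr rfl fun j _ => (pow_two _).symm
        · exact Finset.sum_congr rfl fun k _ => by rw [C5I4_Rk h i k x]

/-- third integration by parts -/
private theorem C5I4_c (hn : 1 ≤ n) (hd : d = n + 5) (h : HesA n F S R T V H)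
    (hB : HesB n H U G Q W DW) :
    ∫ x, U x * ∑ i, F i x * V i x =
      -((∫ x, ∑ i, ∑ j, S i j x * (V i x * V j x)) + ∫ x, ∑ i, F i x * ∑ k, H k i x * V k x) := by
  have g1 : ∀ k, C5I4P (n + (n + 2)) k (fun x => ∑ i, F i x * V i x)
      (fun x => ∑ i, (S i k x * V i x + F i x * H i k x)) := fun k =>
    C5I4P.sum _ fun i => (C5I4_F h i k).mul (C5I4_V h i k)
  have h1 : ∀ k, ∫ x, (∑ i, F i x * V i x) * H k k x =
      -∫ x, (∑ i, (S i k x * V i x + F i x * H i k x)) * V k x := fun k =>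
    C5I4P.ibp (q := n + 2) (by omega) (g1 k) (C5I4_V h k k)
  have i1 : ∀ k, Integrable fun x => (∑ i, F i x * V i x) * H k k x := fun k =>
    ((g1 k).b.mul (C5I4_V h k k).b').integrable (by omega)
  have i2 : ∀ k, Integrable fun x => (∑ i, (S i k x * V i x + F i x * H i k x)) * V k x :=
    fun k => ((g1 k).b'.mul (C5I4_V h k k).b).integrable (by omega)
  have i3 : Integrable fun x => ∑ i, ∑ j, S i j x * (V i x * V j x) := by
    have a : C5I4Dec (n + 1 + (n + 2 + (n + 2))) fun x => ∑ i, ∑ j, S i j x * (V i x * V j x) :=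
      C5I4Dec.sum _ fun i => C5I4Dec.sum _ fun j =>
        (C5I4_F h i j).b'.mul ((C5I4_V h i i).b.mul (C5I4_V h j j).b)
    exact a.integrable (by omega)
  have i4 : Integrable fun x => ∑ i, F i x * ∑ k, H k i x * V k x := by
    have a : C5I4Dec (n + (n + 2 + 1 + (n + 2))) fun x => ∑ i, F i x * ∑ k, H k i x * V k x :=
      C5I4Dec.sum _ fun i => (C5I4_F h i i).b.mul (C5I4Dec.sum _ fun k =>
        (C5I4_V h k i).b'.mul (C5I4_V h k k).b)
    exact a.integrable (by omega)
  calc ∫ x, U x * ∑ i, F i x * V i x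
      = ∫ x, ∑ k, (∑ i, F i x * V i x) * H k k x := by
        refine integral_congr_ae (Eventually.of_forall fun x => ?_)
        show U x * ∑ i, F i x * V i x = ∑ k, (∑ i, F i x * V i x) * H k k x
        rw [← Finset.mul_sum, ← hB.eU x, mul_comm]
    _ = ∑ k, ∫ x, (∑ i, F i x * V i x) * H k k x := integral_finsetSum _ fun k _ => i1 k
    _ = ∑ k, -∫ x, (∑ i, (S i k x * V i x + F i x * H i k x)) * V k x :=
        Finset.sum_congr rfl fun k _ => h1 k
    _ = -∫ x, ∑ k, (∑ i, (S i k x * V i x + F i x * H i k x)) * V k x := by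
        rw [Finset.sum_neg_distrib, integral_finsetSum _ fun k _ => i2 k]
    _ = _ := by
        rw [← integral_add i3 i4]
        congr 1
        refine integral_congr_ae (Eventually.of_forall fun x => ?_)
        show ∑ k, (∑ i, (S i k x * V i x + F i x * H i k x)) * V k x =
          (∑ i, ∑ j, S i j x * (V i x * V j x)) + ∑ i, F i x * ∑ k, H k i x * V k x
        simp only [Finset.sum_mul, Finset.mul_sum]
        rw [Finset.sum_comm, ← Finset.sum_add_distrib]
        refine Finset.sum_congr rfl fun i _ => ?_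
        rw [← Finset.sum_add_distrib]
        refine Finset.sum_congr rfl fun k _ => ?_
        rw [h.sH i k x]
        ring

/-- fourth integration by parts -/
private theorem C5I4_d (hn : 1 ≤ n) (hd : d = n + 5) (h : HesA n F S R T V H) :
    2 * ∫ x, ∑ i, F i x * ∑ k, H k i x * V k x = -∫ x, T x * ∑ i, V i x ^ 2 := by
  have g1 : ∀ i, C5I4P (n + 2 + (n + 2)) i (fun x => ∑ k, V k x * V k x)
      (fun x => ∑ k, (H k i x * V k x + V k x * H k i x)) := fun i =>
    C5I4P.sum _ fun k => (C5I4_V h k i).mul (C5I4_V h k i)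
  have h1 : ∀ i, ∫ x, F i x * (∑ k, (H k i x * V k x + V k x * H k i x)) =
      -∫ x, S i i x * (∑ k, V k x * V k x) := fun i =>
    C5I4P.ibp (p := n) (by omega) (C5I4_F h i i) (g1 i)
  have i1 : ∀ i, Integrable fun x => F i x * (∑ k, (H k i x * V k x + V k x * H k i x)) :=
    fun i => ((C5I4_F h i i).b.mul (g1 i).b').integrable (by omega)
  have i2 : ∀ i, Integrable fun x => S i i x * (∑ k, V k x * V k x) := fun i =>
    ((C5I4_F h i i).b'.mul (g1 i).b).integrable (by omega)
  calc 2 * ∫ x, ∑ i, F i x * ∑ k, H k i x * V k x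
      = ∫ x, ∑ i, F i x * (∑ k, (H k i x * V k x + V k x * H k i x)) := by
        rw [← integral_const_mul]
        refine integral_congr_ae (Eventually.of_forall fun x => ?_)
        simp only [Finset.mul_sum]
        refine Finset.sum_congr rfl fun i _ => Finset.sum_congr rfl fun k _ => ?_
        ring
    _ = ∑ i, ∫ x, F i x * (∑ k, (H k i x * V k x + V k x * H k i x)) :=
        integral_finsetSum _ fun i _ => i1 i
    _ = ∑ i, -∫ x, S i i x * (∑ k, V k x * V k x) := Finset.sum_congr rfl fun i _ => h1 i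
    _ = -∫ x, ∑ i, S i i x * (∑ k, V k x * V k x) := by
        rw [Finset.sum_neg_distrib, integral_finsetSum _ fun i _ => i2 i]
    _ = -∫ x, T x * ∑ i, V i x ^ 2 := by
        congr 1
        refine integral_congr_ae (Eventually.of_forall fun x => ?_)
        simp only [h.eT x, Finset.sum_mul, pow_two]

end

theorem id5_four {n : ℕ} (hn : 1 ≤ n) (hd : d = n + 5) {F : Fin d → X d → ℝ}
    {S : Fin d → Fin d → X d → ℝ} {R : Fin d → Fin d → Fin d → X d → ℝ} {T : X d → ℝ}
    {V : Fin d → X d → ℝ} {H : Fin d → Fin d → X d → ℝ} {U : X d → ℝ} {G : Fin d → X d → ℝ}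
    {Q : X d → ℝ} {W : Fin d → X d → ℝ} {DW : X d → ℝ}
    (h : HesA n F S R T V H) (hB : HesB n H U G Q W DW) :
    Integrable (fun x => (∑ i, F i x ^ 2) * Q x) ∧
    ∫ x, (∑ i, F i x ^ 2) * Q x =
      2 * (∫ x, U x * ∑ i, ∑ j, S i j x ^ 2) -
        2 * (∫ x, ∑ i, ∑ j, S i j x * (V i x * V j x)) + ∫ x, T x * ∑ i, V i x ^ 2 := by
  refine ⟨?_, ?_⟩
  · have a : C5I4Dec (n + n + (n + 5)) fun x => (∑ i, F i x * F i x) *
        ∑ k, fderiv ℝ (G k) x (EuclideanSpace.single k 1) :=
      (C5I4Dec.sum _ fun i => (C5I4_F h i i).b.mul (C5I4_F h i i).b).mul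
        (C5I4Dec.sum _ fun k => (C5I4_G hB k k).b')
    have e2 : (fun x => (∑ i, F i x ^ 2) * Q x) = fun x => (∑ i, F i x * F i x) *
        ∑ k, fderiv ℝ (G k) x (EuclideanSpace.single k 1) := by
      funext x
      simp only [← hB.eQ x, pow_two]
    rw [e2]
    exact a.integrable (by omega)
  · rw [C5I4_a hn hd h hB, C5I4_b hn hd h hB, C5I4_c hn hd h hB]
    have hb := C5I4_d hn hd h
    linarith

end Pool.Agent.H1.LD
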