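import Pool.Agent.H1.C5.I1
import Pool.Agent.H1.C5.I2
import Pool.Agent.H1.C5.I3
import Pool.Agent.H1.C5.I4

/-!
Row I5.  hess5_identity: integrability of P5 (all terms are O(-3n-5)) and linear combination of id5_one .. id5_four:
 A + B - 4C = 3A + B, A = B - 2 Sig - Pi, ∫|F|^2 Q = 4B - 6 Sig - 3 Pi.
hess5_div: D5 = sum_k d_k (|S|^2 W_k), integral 0 (integral_mul_fderiv_eq_neg_fderiv_mul_of_integrable with f = S_ij^2, g = W_k).
-/

set_option autoImplicit false

open MeasureTheory Filter Topology Metric Set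
open scoped RealInnerProductSpace ENNReal

namespace Pool.Agent.H1.LD

open Pool.Agent.RZ

variable {d : ℕ}

theorem hess5_identity {n : ℕ} (hn : 1 ≤ n) (hd : d = n + 5) {F : Fin d → X d → ℝ}
    {S : Fin d → Fin d → X d → ℝ} {R : Fin d → Fin d → Fin d → X d → ℝ} {T : X d → ℝ}
    {V : Fin d → X d → ℝ} {H : Fin d → Fin d → X d → ℝ} {U : X d → ℝ} {G : Fin d → X d → ℝ}
    {Q : X d → ℝ} {W : Fin d → X d → ℝ} {DW : X d → ℝ}
    (h : HesA n F S R T V H) (hB : HesB n H U G Q W DW) :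
    Integrable (P5 F S R T H) ∧ Integrable (fun x => (∑ i, F i x ^ 2) * Q x) ∧
    ∫ x, P5 F S R T H x = ∫ x, (∑ i, F i x ^ 2) * Q x := by
  have iC : Integrable fun x => ∑ i, ∑ j, ∑ k, ∑ l, S k l x * (R i j k x * R i j l x) := by
    have a : C5Dec (n + 1 + (n + 2 + (n + 2))) fun x =>
        ∑ i, ∑ j, ∑ k, ∑ l, S k l x * (R i j k x * R i j l x) :=
      C5Dec.sum _ fun i => C5Dec.sum _ fun j => C5Dec.sum _ fun k => C5Dec.sum _ fun l =>
        (C5_S h k l k).b.mul ((C5_R h i j k k).b.mul (C5_R h i j l k).b)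
    exact a.integrable (by omega)
  have iA : Integrable fun x => ∑ i, ∑ j, ∑ k, H i k x * (S i j x * S j k x) := by
    have a : C5Dec (n + 2 + 1 + (n + 1 + (n + 1))) fun x =>
        ∑ i, ∑ j, ∑ k, H i k x * (S i j x * S j k x) :=
      C5Dec.sum _ fun i => C5Dec.sum _ fun j => C5Dec.sum _ fun k =>
        (C5_V h i k).b'.mul ((C5_S h i j k).b.mul (C5_S h j k k).b)
    exact a.integrable (by omega)
  have iB : Integrable fun x => T x * (∑ i, ∑ j, ∑ k, R i j k x ^ 2) := by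
    have a : C5Dec (n + 1 + (n + 2 + (n + 2))) fun x =>
        T x * ∑ i, ∑ j, ∑ k, R i j k x * R i j k x :=
      (C5_T h ⟨0, by omega⟩).b.mul (C5Dec.sum _ fun i => C5Dec.sum _ fun j => C5Dec.sum _ fun k =>
        (C5_R h i j k k).b.mul (C5_R h i j k k).b)
    simp only [pow_two]
    exact a.integrable (by omega)
  obtain ⟨iQ, f4⟩ := id5_four hn hd h hB
  have f1 := id5_one hn hd h
  have f2 := id5_two hn hd h hB
  have f3 := id5_three hn hd h hB
  refine ⟨(iA.add iB).sub (iC.const_mul 4), iQ, ?_⟩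
  have g1 := integral_add iA iB
  have g2 := integral_sub (iA.add iB) (iC.const_mul 4)
  rw [integral_const_mul] at g2
  simp only [Pi.add_apply] at g2
  rw [g1] at g2
  have g3 : ∫ x, P5 F S R T H x = ∫ x, ((∑ i, ∑ j, ∑ k, H i k x * (S i j x * S j k x)) +
      T x * (∑ i, ∑ j, ∑ k, R i j k x ^ 2) -
      4 * ∑ i, ∑ j, ∑ k, ∑ l, S k l x * (R i j k x * R i j l x)) := rfl
  rw [g3, g2]
  linarith

theorem hess5_div {n : ℕ} (hn : 1 ≤ n) (hd : d = n + 5) {F : Fin d → X d → ℝ}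
    {S : Fin d → Fin d → X d → ℝ} {R : Fin d → Fin d → Fin d → X d → ℝ} {T : X d → ℝ}
    {V : Fin d → X d → ℝ} {H : Fin d → Fin d → X d → ℝ} {U : X d → ℝ} {G : Fin d → X d → ℝ}
    {Q : X d → ℝ} {W : Fin d → X d → ℝ} {DW : X d → ℝ}
    (h : HesA n F S R T V H) (hB : HesB n H U G Q W DW) :
    Integrable (D5 S R W DW) ∧ ∫ x, D5 S R W DW x = 0 := by
  have h1 := C5IP.ibp_sum (ι := Fin d) (p := n + 1 + (n + 1))
    (q := n + 2) (by omega) (fun k => k)
    (f := fun _ x => ∑ i, ∑ j, S i j x * S i j x)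
    (g := fun k => W k)
    (fun k => C5IP.sum _ fun i => C5IP.sum _ fun j => (C5_S h i j k).mul (C5_S h i j k))
    (fun k => C5_W hB k k)
  have e1 : ∀ x, ∑ k, (∑ i, ∑ j, S i j x * S i j x) *
      fderiv ℝ (W k) x (EuclideanSpace.single k 1) =
      (∑ i, ∑ j, S i j x ^ 2) * DW x := by
    intro x
    rw [← Finset.mul_sum, hB.eW x]
    simp only [pow_two]
  have e2 : ∀ x, ∑ k, (∑ i, ∑ j, (R i j k x * S i j x + S i j x * R i j k x)) * W k x =
      2 * ∑ i, ∑ j, ∑ k, S i j x * (R i j k x * W k x) := by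
    intro x
    simp only [Finset.sum_mul]
    rw [← C5_rot3 fun i j k => (R i j k x * S i j x + S i j x * R i j k x) * W k x]
    simp only [Finset.mul_sum]
    refine Finset.sum_congr rfl fun i _ => Finset.sum_congr rfl fun j _ =>
      Finset.sum_congr rfl fun k _ => ?_
    ring
  simp only [e1, e2] at h1
  have i1 : Integrable fun x => 2 * ∑ i, ∑ j, ∑ k, S i j x * (R i j k x * W k x) := by
    have a : C5Dec (n + 1 + (n + 2 + (n + 2))) fun x =>
        ∑ i, ∑ j, ∑ k, S i j x * (R i j k x * W k x) :=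
      C5Dec.sum _ fun i => C5Dec.sum _ fun j => C5Dec.sum _ fun k =>
        (C5_S h i j k).b.mul ((C5_R h i j k k).b.mul (C5_W hB k k).b)
    exact (a.integrable (by omega)).const_mul 2
  have i2 : Integrable fun x => (∑ i, ∑ j, S i j x ^ 2) * DW x := by
    have a : C5Dec (n + 1 + (n + 1) + (n + 2 + 1)) fun x => (∑ i, ∑ j, S i j x * S i j x) *
        ∑ k, fderiv ℝ (W k) x (EuclideanSpace.single k 1) :=
      (C5Dec.sum _ fun i => C5Dec.sum _ fun j => (C5_S h i j j).b.mul (C5_S h i j j).b).mul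
        (C5Dec.sum _ fun k => (C5_W hB k k).b')
    simp only [hB.eW] at a
    simp only [pow_two]
    exact a.integrable (by omega)
  refine ⟨i1.add i2, ?_⟩
  have g1 := integral_add i1 i2
  have g3 : ∫ x, D5 S R W DW x = ∫ x, (2 * (∑ i, ∑ j, ∑ k, S i j x * (R i j k x * W k x)) +
      (∑ i, ∑ j, S i j x ^ 2) * DW x) := rfl
  rw [g3, g1]
  linarith

end Pool.Agent.H1.LD
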